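import Mathlib
import Pool.Agent.Helper15.DimerDefs

/-!
# The octahedron: compactness, convexity, its twelve edges
-/

set_option autoImplicit false

open MeasureTheory Set Filter Topology
open scoped ContDiff RealInnerProductSpace

namespace Helper6.Dimer

open Helper15.Dimer

lemma cont_coord (i : Fin 3) : Continuous fun s : E3 => s i := by
  fun_prop

theorem isCompact_octahedron : IsCompact octahedron := by
  refine Metric.isCompact_of_isClosed_isBounded ?_ ?_
  · refine isClosed_le ?_ continuous_const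
    exact (((cont_coord 0).abs.add (cont_coord 1).abs).add (cont_coord 2).abs)
  · refine (Metric.isBounded_closedBall (x := (0 : E3)) (r := 1)).subset ?_
    intro s hs
    have hs' : |s 0| + |s 1| + |s 2| ≤ 1 := hs
    rw [mem_closedBall_zero_iff, EuclideanSpace.norm_eq, Fin.sum_univ_three]
    refine Real.sqrt_le_one.mpr ?_
    simp only [Real.norm_eq_abs]
    nlinarith [abs_nonneg (s 0), abs_nonneg (s 1), abs_nonneg (s 2),
      mul_nonneg (abs_nonneg (s 0)) (abs_nonneg (s 1)),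
      mul_nonneg (abs_nonneg (s 0)) (abs_nonneg (s 2)),
      mul_nonneg (abs_nonneg (s 1)) (abs_nonneg (s 2))]

lemma abs_comb {a b x y : ℝ} (ha : 0 ≤ a) (hb : 0 ≤ b) : |a * x + b * y| ≤ a * |x| + b * |y| := by
  refine (abs_add_le _ _).trans ?_
  rw [abs_mul, abs_mul, abs_of_nonneg ha, abs_of_nonneg hb]

theorem convex_octahedron : Convex ℝ octahedron := by
  intro s hs t ht a b ha hb hab
  have hs' : |s 0| + |s 1| + |s 2| ≤ 1 := hs
  have ht' : |t 0| + |t 1| + |t 2| ≤ 1 := ht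
  change |(a • s + b • t) 0| + |(a • s + b • t) 1| + |(a • s + b • t) 2| ≤ 1
  simp only [PiLp.add_apply, PiLp.smul_apply, smul_eq_mul]
  have h0 := abs_comb (x := s 0) (y := t 0) ha hb
  have h1 := abs_comb (x := s 1) (y := t 1) ha hb
  have h2 := abs_comb (x := s 2) (y := t 2) ha hb
  nlinarith

/-- sign of a Boolean -/
def sg (a : Bool) : ℝ := if a then 1 else -1

/-- index set of the edges -/
abbrev Ix := Fin 3 × Bool × Bool

/-- first end of the edge -/
noncomputable def vv (j : Ix) : E3 := sg j.2.1 • EuclideanSpace.single (j.1 + 1) (1 : ℝ)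

/-- second end of the edge -/
noncomputable def ww (j : Ix) : E3 := sg j.2.2 • EuclideanSpace.single (j.1 + 2) (1 : ℝ)

/-- the edge as a predicate -/
def Ed (j : Ix) (s : E3) : Prop :=
  s j.1 = 0 ∧ 0 ≤ sg j.2.1 * s (j.1 + 1) ∧ 0 ≤ sg j.2.2 * s (j.1 + 2) ∧
    sg j.2.1 * s (j.1 + 1) + sg j.2.2 * s (j.1 + 2) = 1

lemma sg_mul_self (a : Bool) : sg a * sg a = 1 := by cases a <;> simp [sg]

lemma vv_apply (j : Ix) (k : Fin 3) : vv j k = if k = j.1 + 1 then sg j.2.1 else 0 := by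
  simp [vv, PiLp.smul_apply, PiLp.single_apply]

lemma ww_apply (j : Ix) (k : Fin 3) : ww j k = if k = j.1 + 2 then sg j.2.2 else 0 := by
  simp [ww, PiLp.smul_apply, PiLp.single_apply]

lemma comb_apply (j : Ix) (a b : ℝ) :
    (a • vv j + b • ww j) j.1 = 0 ∧ (a • vv j + b • ww j) (j.1 + 1) = a * sg j.2.1 ∧
      (a • vv j + b • ww j) (j.1 + 2) = b * sg j.2.2 := by
  obtain ⟨i, x, y⟩ := j
  simp only [PiLp.add_apply, PiLp.smul_apply, smul_eq_mul, vv_apply, ww_apply]
  fin_cases i <;> simp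

lemma fin3 (i k : Fin 3) : k = i ∨ k = i + 1 ∨ k = i + 2 := by
  revert i k; decide

lemma mem_segment_iff (j : Ix) (m : E3) : m ∈ segment ℝ (vv j) (ww j) ↔ Ed j m := by
  constructor
  · rintro ⟨a, b, ha, hb, hab, rfl⟩
    obtain ⟨h0, h1, h2⟩ := comb_apply j a b
    have e1 := sg_mul_self j.2.1
    have e2 := sg_mul_self j.2.2
    refine ⟨h0, ?_, ?_, ?_⟩
    · rw [h1, mul_left_comm, e1, mul_one]; exact ha
    · rw [h2, mul_left_comm, e2, mul_one]; exact hb
    · rw [h1, h2, mul_left_comm, e1, mul_left_comm, e2]; linarith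
  · rintro ⟨h0, h1, h2, h3⟩
    have e1 := sg_mul_self j.2.1
    have e2 := sg_mul_self j.2.2
    refine ⟨_, _, h1, h2, h3, ?_⟩
    obtain ⟨g0, g1, g2⟩ := comb_apply j (sg j.2.1 * m (j.1 + 1)) (sg j.2.2 * m (j.1 + 2))
    ext k
    rcases fin3 j.1 k with rfl | rfl | rfl
    · rw [g0, h0]
    · rw [g1, mul_comm, ← mul_assoc, e1, one_mul]
    · rw [g2, mul_comm, ← mul_assoc, e2, one_mul]

lemma openSegment_pos (j : Ix) (m : E3) (hm : m ∈ openSegment ℝ (vv j) (ww j)) :
    Ed j m ∧ 0 < sg j.2.1 * m (j.1 + 1) ∧ 0 < sg j.2.2 * m (j.1 + 2) := by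
  refine ⟨(mem_segment_iff j m).1 (openSegment_subset_segment _ _ _ hm), ?_⟩
  obtain ⟨a, b, ha, hb, hab, rfl⟩ := hm
  obtain ⟨h0, h1, h2⟩ := comb_apply j a b
  have e1 := sg_mul_self j.2.1
  have e2 := sg_mul_self j.2.2
  constructor
  · rw [h1, mul_left_comm, e1, mul_one]; exact ha
  · rw [h2, mul_left_comm, e2, mul_one]; exact hb

lemma abs_sum_cyc (s : E3) (i : Fin 3) : |s i| + |s (i + 1)| + |s (i + 2)| =
    |s 0| + |s 1| + |s 2| := by
  fin_cases i <;> simp <;> ring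

lemma sg_mul_le_abs (a : Bool) (x : ℝ) : sg a * x ≤ |x| := by
  cases a
  · simpa [sg] using neg_le_abs x
  · simpa [sg] using le_abs_self x

lemma exists_sg_eq_abs (x : ℝ) : ∃ a, sg a * x = |x| := by
  rcases le_total 0 x with h | h
  · exact ⟨true, by simp [sg, abs_of_nonneg h]⟩
  · exact ⟨false, by simp [sg, abs_of_nonpos h]⟩

/-- a point of the union of the edges lies in some edge -/
lemma exists_Ed_of_mem_edges {s : E3} (hs : s ∈ edges) : ∃ j, Ed j s := by
  obtain ⟨h1, i, hi⟩ := hs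
  obtain ⟨a, ha⟩ := exists_sg_eq_abs (s (i + 1))
  obtain ⟨b, hb⟩ := exists_sg_eq_abs (s (i + 2))
  have h2 := abs_sum_cyc s i
  refine ⟨(i, a, b), hi, ?_, ?_, ?_⟩
  · rw [ha]; exact abs_nonneg _
  · rw [hb]; exact abs_nonneg _
  · change sg a * s (i + 1) + sg b * s (i + 2) = 1
    rw [ha, hb]
    rw [hi, abs_zero] at h2
    linarith

lemma mem_edges_of_Ed {s : E3} {j : Ix} (h : Ed j s) : s ∈ edges := by
  obtain ⟨h0, h1, h2, h3⟩ := h
  refine ⟨?_, j.1, h0⟩
  rw [← abs_sum_cyc s j.1, h0, abs_zero]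
  have e1 : sg j.2.1 * s (j.1 + 1) = |s (j.1 + 1)| := by
    rw [← abs_of_nonneg h1, abs_mul]
    cases j.2.1 <;> simp [sg]
  have e2 : sg j.2.2 * s (j.1 + 2) = |s (j.1 + 2)| := by
    rw [← abs_of_nonneg h2, abs_mul]
    cases j.2.2 <;> simp [sg]
  rw [e1, e2] at h3
  linarith

/-- Face property of the edges. -/
lemma face {s t z : E3} (hs : s ∈ octahedron) (ht : t ∈ octahedron)
    (hz : z ∈ openSegment ℝ s t) {j : Ix} (hj : Ed j z) : Ed j s ∧ Ed j t := by
  obtain ⟨a, b, ha, hb, hab, rfl⟩ := hz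
  obtain ⟨i, x, y⟩ := j
  obtain ⟨h0, h1, h2, h3⟩ := hj
  simp only [PiLp.add_apply, PiLp.smul_apply, smul_eq_mul] at h0 h1 h2 h3
  have hs' : |s i| + |s (i + 1)| + |s (i + 2)| ≤ 1 := by rw [abs_sum_cyc]; exact hs
  have ht' : |t i| + |t (i + 1)| + |t (i + 2)| ≤ 1 := by rw [abs_sum_cyc]; exact ht
  have s1 := sg_mul_le_abs x (s (i + 1))
  have s2 := sg_mul_le_abs y (s (i + 2))
  have t1 := sg_mul_le_abs x (t (i + 1))
  have t2 := sg_mul_le_abs y (t (i + 2))
  have s0 := abs_nonneg (s i)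
  have t0 := abs_nonneg (t i)
  have key : a * (sg x * s (i + 1) + sg y * s (i + 2)) +
      b * (sg x * t (i + 1) + sg y * t (i + 2)) = 1 := by linarith
  have ks : sg x * s (i + 1) + sg y * s (i + 2) = 1 := by
    refine le_antisymm (by linarith) ?_
    by_contra hc
    push Not at hc
    nlinarith
  have kt : sg x * t (i + 1) + sg y * t (i + 2) = 1 := by
    refine le_antisymm (by linarith) ?_
    by_contra hc
    push Not at hc
    nlinarith
  have zs : |s i| = 0 := by linarith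
  have zt : |t i| = 0 := by linarith
  have a1 := abs_nonneg (s (i + 1))
  have a2 := abs_nonneg (s (i + 2))
  have b1 := abs_nonneg (t (i + 1))
  have b2 := abs_nonneg (t (i + 2))
  exact ⟨⟨abs_eq_zero.1 zs, by simp only; linarith, by simp only; linarith, ks⟩,
    ⟨abs_eq_zero.1 zt, by simp only; linarith, by simp only; linarith, kt⟩⟩

/-- different edges: an interior point of one edge is in no other edge -/
lemma edge_unique {j k : Ix} {m : E3} (hj : Ed j m) (h1 : 0 < sg j.2.1 * m (j.1 + 1))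
    (h2 : 0 < sg j.2.2 * m (j.1 + 2)) (hk : Ed k m) : j = k := by
  obtain ⟨i, x, y⟩ := j
  obtain ⟨i', x', y'⟩ := k
  obtain ⟨g0, g1, g2, g3⟩ := hj
  obtain ⟨k0, k1, k2, k3⟩ := hk
  simp only at g0 g1 g2 g3 h1 h2 k0 k1 k2 k3
  have hne1 : m (i + 1) ≠ 0 := by intro h; rw [h] at h1; simp at h1
  have hne2 : m (i + 2) ≠ 0 := by intro h; rw [h] at h2; simp at h2
  have hi : i' = i := by
    rcases fin3 i i' with h | h | h
    · exact h
    · exact absurd (h ▸ k0) hne1
    · exact absurd (h ▸ k0) hne2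
  subst hi
  have hx : x = x' := by
    cases x <;> cases x' <;> simp [sg] at h1 k1 ⊢ <;> linarith
  have hy : y = y' := by
    cases y <;> cases y' <;> simp [sg] at h2 k2 ⊢ <;> linarith
  rw [hx, hy]

lemma vv_mem (j : Ix) : vv j ∈ octahedron := by
  change |vv j 0| + |vv j 1| + |vv j 2| ≤ 1
  rw [← abs_sum_cyc _ j.1]
  obtain ⟨h0, h1, h2⟩ := comb_apply j 1 0
  simp only [one_smul, zero_smul, add_zero, one_mul, zero_mul] at h0 h1 h2
  rw [h0, h1, h2]
  cases j.2.1 <;> simp [sg]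

lemma ww_mem (j : Ix) : ww j ∈ octahedron := by
  change |ww j 0| + |ww j 1| + |ww j 2| ≤ 1
  rw [← abs_sum_cyc _ j.1]
  obtain ⟨h0, h1, h2⟩ := comb_apply j 0 1
  simp only [one_smul, zero_smul, zero_add, one_mul, zero_mul] at h0 h1 h2
  rw [h0, h1, h2]
  cases j.2.2 <;> simp [sg]

lemma vv_ne_ww (j : Ix) : vv j ≠ ww j := by
  intro h
  obtain ⟨-, h1, -⟩ := comb_apply j 1 0
  obtain ⟨-, h2, -⟩ := comb_apply j 0 1
  simp only [one_smul, zero_smul, add_zero, zero_add, one_mul, zero_mul] at h1 h2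
  rw [h, h2] at h1
  have := sg_mul_self j.2.1
  rw [← h1] at this
  simp at this

/-- The contraction of a point of the octahedron is off the edges. -/
lemma contract_mem {s : E3} (hs : s ∈ octahedron) {c : ℝ} (hc0 : 0 ≤ c) (hc1 : c < 1) :
    c • s ∈ octahedron \ edges := by
  have hs' : |s 0| + |s 1| + |s 2| ≤ 1 := hs
  have h : |(c • s) 0| + |(c • s) 1| + |(c • s) 2| < 1 := by
    simp only [PiLp.smul_apply, smul_eq_mul, abs_mul, abs_of_nonneg hc0]
    nlinarith [abs_nonneg (s 0), abs_nonneg (s 1), abs_nonneg (s 2)]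
  exact ⟨h.le, fun he => absurd he.1 h.ne⟩

lemma tendsto_contract (s : E3) :
    Tendsto (fun n : ℕ => (1 - 1 / ((n : ℝ) + 1)) • s) atTop (𝓝 s) := by
  have h : Tendsto (fun n : ℕ => 1 - 1 / ((n : ℝ) + 1)) atTop (𝓝 (1 - 0)) :=
    tendsto_const_nhds.sub tendsto_one_div_add_atTop_nhds_zero_nat
  simpa using h.smul_const s

lemma coef_mem (n : ℕ) : 0 ≤ 1 - 1 / ((n : ℝ) + 1) ∧ 1 - 1 / ((n : ℝ) + 1) < 1 := by
  have h : (0 : ℝ) < (n : ℝ) + 1 := by positivity
  have h2 : 1 / ((n : ℝ) + 1) ≤ 1 := by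
    rw [div_le_one h]; linarith [(Nat.cast_nonneg n : (0 : ℝ) ≤ n)]
  have h3 : 0 < 1 / ((n : ℝ) + 1) := by positivity
  constructor <;> linarith

lemma tendsto_ent {ent : E3 → ℝ} (hent : ContinuousOn ent octahedron) {s : E3}
    (hs : s ∈ octahedron) :
    Tendsto (fun n : ℕ => ent ((1 - 1 / ((n : ℝ) + 1)) • s)) atTop (𝓝 (ent s)) := by
  have h1 : Tendsto (fun n : ℕ => (1 - 1 / ((n : ℝ) + 1)) • s) atTop (𝓝[octahedron] s) := by
    refine tendsto_nhdsWithin_iff.2 ⟨tendsto_contract s, Eventually.of_forall fun n => ?_⟩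
    exact (contract_mem hs (coef_mem n).1 (coef_mem n).2).1
  exact (hent s hs).tendsto.comp h1

lemma concave_oct {ent : E3 → ℝ} (hent : ContinuousOn ent octahedron)
    (hc : StrictConcaveOn ℝ (octahedron \ edges) ent) : ConcaveOn ℝ octahedron ent := by
  refine ⟨convex_octahedron, ?_⟩
  intro s hs t ht a b ha hb hab
  have h1 := (tendsto_ent hent hs).const_smul a
  have h2 := (tendsto_ent hent ht).const_smul b
  have h3 := tendsto_ent hent (convex_octahedron hs ht ha hb hab)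
  refine le_of_tendsto_of_tendsto' (h1.add h2) h3 fun n => ?_
  have h4 := hc.concaveOn.2 (contract_mem hs (coef_mem n).1 (coef_mem n).2)
    (contract_mem ht (coef_mem n).1 (coef_mem n).2) ha hb hab
  refine h4.trans (le_of_eq ?_)
  congr 1
  rw [smul_add, smul_comm a, smul_comm b]

lemma part3 {ent : E3 → ℝ} (hent : ContinuousOn ent octahedron)
    (hc : StrictConcaveOn ℝ (octahedron \ edges) ent) {s t : E3} (hs : s ∈ octahedron)
    (ht : t ∈ octahedron) (hne : s ≠ t)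
    (h : 2 * ent ((1 / 2 : ℝ) • (s + t)) ≤ ent s + ent t) : ∃ j, Ed j s ∧ Ed j t := by
  by_contra hno
  push Not at hno
  have hoff : ∀ z ∈ openSegment ℝ s t, z ∈ octahedron \ edges := by
    intro z hz
    refine ⟨convex_octahedron.segment_subset hs ht (openSegment_subset_segment _ _ _ hz), ?_⟩
    intro he
    obtain ⟨j, hj⟩ := exists_Ed_of_mem_edges he
    obtain ⟨h1, h2⟩ := face hs ht hz hj
    exact hno j h1 h2
  have hcc := concave_oct hent hc
  set m : E3 := (1 / 2 : ℝ) • (s + t) with hm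
  have hm1 : m ∈ openSegment ℝ s t :=
    ⟨1 / 2, 1 / 2, by norm_num, by norm_num, by norm_num, by rw [hm, smul_add]⟩
  have hmo := (hoff m hm1).1
  set s' : E3 := (1 / 2 : ℝ) • s + (1 / 2 : ℝ) • m with hs'
  set t' : E3 := (1 / 2 : ℝ) • m + (1 / 2 : ℝ) • t with ht'
  have hs1 : s' ∈ openSegment ℝ s t := by
    refine ⟨3 / 4, 1 / 4, by norm_num, by norm_num, by norm_num, ?_⟩
    rw [hs', hm]; module
  have ht1 : t' ∈ openSegment ℝ s t := by
    refine ⟨1 / 4, 3 / 4, by norm_num, by norm_num, by norm_num, ?_⟩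
    rw [ht', hm]; module
  have hne' : s' ≠ t' := by
    intro he
    apply hne
    have h1 : (1 / 2 : ℝ) • s = (1 / 2 : ℝ) • t := by
      have h2 : s' - (1 / 2 : ℝ) • m = t' - (1 / 2 : ℝ) • m := by rw [he]
      rw [hs', ht'] at h2
      simpa [add_sub_cancel_right, add_sub_cancel_left] using h2
    have h3 := congrArg (fun x => (2 : ℝ) • x) h1
    simpa [smul_smul] using h3
  have e1 := hc.2 (hoff s' hs1) (hoff t' ht1) hne' (by norm_num : (0 : ℝ) < 1 / 2)
    (by norm_num : (0 : ℝ) < 1 / 2) (by norm_num)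
  have hmid : (1 / 2 : ℝ) • s' + (1 / 2 : ℝ) • t' = m := by
    rw [hs', ht', hm]; module
  rw [hmid] at e1
  have e2 := hcc.2 hs hmo (by norm_num : (0 : ℝ) ≤ 1 / 2) (by norm_num : (0 : ℝ) ≤ 1 / 2)
    (by norm_num)
  have e3 := hcc.2 hmo ht (by norm_num : (0 : ℝ) ≤ 1 / 2) (by norm_num : (0 : ℝ) ≤ 1 / 2)
    (by norm_num)
  rw [← hs'] at e2
  rw [← ht'] at e3
  simp only [smul_eq_mul] at e1 e2 e3
  linarith

theorem octahedron_edges : ∃ (v w : Fin 12 → E3),
    (∀ j, v j ∈ octahedron ∧ w j ∈ octahedron ∧ v j ≠ w j) ∧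
    (∀ j k, j ≠ k → ∀ m ∈ openSegment ℝ (v j) (w j), m ∉ segment ℝ (v k) (w k)) ∧
    ∀ ent : E3 → ℝ, ContinuousOn ent octahedron →
      StrictConcaveOn ℝ (octahedron \ edges) ent →
      ConcaveOn ℝ octahedron ent ∧
      ∀ s ∈ octahedron, ∀ t ∈ octahedron, s ≠ t →
        2 * ent ((1 / 2 : ℝ) • (s + t)) ≤ ent s + ent t →
        ∃ j, s ∈ segment ℝ (v j) (w j) ∧ t ∈ segment ℝ (v j) (w j) := by
  have e : Fin 12 ≃ Ix := (Fintype.equivFinOfCardEq (by simp [Ix])).symm
  refine ⟨fun j => vv (e j), fun j => ww (e j),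
    fun j => ⟨vv_mem _, ww_mem _, vv_ne_ww _⟩, ?_, ?_⟩
  · intro j k hjk m hm hmk
    obtain ⟨h0, h1, h2⟩ := openSegment_pos _ _ hm
    exact hjk (e.injective (edge_unique h0 h1 h2 ((mem_segment_iff _ _).1 hmk)))
  · intro ent h1 h2
    refine ⟨concave_oct h1 h2, fun s hs t ht hne h => ?_⟩
    obtain ⟨j, hj1, hj2⟩ := part3 h1 h2 hs ht hne h
    refine ⟨e.symm j, ?_, ?_⟩
    · simp only [Equiv.apply_symm_apply]; exact (mem_segment_iff _ _).2 hj1
    · simp only [Equiv.apply_symm_apply]; exact (mem_segment_iff _ _).2 hj2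

end Helper6.Dimer
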