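import Mathlib

open Polynomial IsLocalRing

namespace Pool.Agent.Helper6.WanQ

variable (p : ℕ) [hp : Fact p.Prime]

lemma irreducible_cyclotomic_prime_pow (n : ℕ) :
    Irreducible (cyclotomic (p ^ (n + 1)) ℚ_[p]) := by
  have hE := cyclotomic_prime_pow_comp_X_add_one_isEisensteinAt p n
  set f : ℤ[X] := (cyclotomic (p ^ (n + 1)) ℤ).comp (X + 1) with hf
  have hmon : f.Monic := by
    rw [hf, show (X + 1 : ℤ[X]) = X + C 1 by simp]
    refine (cyclotomic.monic _ ℤ).comp (monic_X_add_C 1) fun h => ?_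
    rw [natDegree_X_add_C] at h
    exact zero_ne_one h.symm
  set g : ℤ_[p][X] := f.map (Int.castRingHom ℤ_[p]) with hg
  have hgmon : g.Monic := hmon.map _
  have hpprime : Prime (p : ℤ_[p]) := PadicInt.prime_p
  have hPprime : (Ideal.span {(p : ℤ_[p])}).IsPrime :=
    (Ideal.span_singleton_prime hpprime.ne_zero).2 hpprime
  have hf0 : f.coeff 0 = p := by
    rw [hf, coeff_zero_eq_eval_zero, eval_comp]
    simp only [eval_add, eval_X, eval_one, zero_add]
    exact eval_one_cyclotomic_prime_pow n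
  have hgE : g.IsEisensteinAt (Ideal.span {(p : ℤ_[p])}) := by
    refine Monic.isEisensteinAt_of_mem_of_notMem hgmon hPprime.ne_top ?_ ?_
    · intro i hi
      rw [hg, coeff_map]
      have h1 : i < f.natDegree := by
        rwa [hg, hmon.natDegree_map] at hi
      have h2 := hE.mem h1
      rw [Ideal.submodule_span_eq, Ideal.mem_span_singleton] at h2
      obtain ⟨k, hk⟩ := h2
      rw [Ideal.mem_span_singleton]
      exact ⟨(k : ℤ_[p]), by rw [hk]; simp⟩
    · rw [hg, coeff_map, hf0, Ideal.span_singleton_pow, Ideal.mem_span_singleton]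
      intro h
      have h1 : (p : ℤ_[p]) ^ 2 ∣ (p : ℤ_[p]) ^ 1 := by simpa using h
      have h2 := (pow_dvd_pow_iff hpprime.ne_zero hpprime.not_isUnit).1 h1
      omega
  have hdeg : 0 < g.natDegree := by
    rw [hg, hmon.natDegree_map, hf, natDegree_comp, show (X + 1 : ℤ[X]) = X + C 1 by simp,
      natDegree_X_add_C, mul_one, natDegree_cyclotomic]
    exact Nat.totient_pos.2 (pow_pos hp.out.pos _)
  have hirr : Irreducible g := hgE.irreducible hPprime hgmon.isPrimitive hdeg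
  have h3 : Irreducible (g.map (algebraMap ℤ_[p] ℚ_[p])) :=
    (hgmon.irreducible_iff_irreducible_map_fraction_map (K := ℚ_[p])).1 hirr
  have h4 : g.map (algebraMap ℤ_[p] ℚ_[p]) = taylorEquiv (1 : ℚ_[p]) (cyclotomic (p ^ (n + 1)) ℚ_[p]) := by
    rw [hg, hf, map_map, map_comp, map_cyclotomic]
    simp [taylorEquiv, taylor_apply]
  rw [h4] at h3
  exact (MulEquiv.irreducible_iff (taylorEquiv (1 : ℚ_[p]))).1 h3


lemma exists_algEquiv (n : ℕ) (ζ : AlgebraicClosure ℚ_[p]) (hζ : IsPrimitiveRoot ζ (p ^ (n+1)))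
    (hirr : Irreducible (cyclotomic (p ^ (n + 1)) ℚ_[p]))
    (a : ℕ) (ha : a.Coprime p) :
    ∃ σ : AlgebraicClosure ℚ_[p] ≃ₐ[ℚ_[p]] AlgebraicClosure ℚ_[p], σ ζ = ζ ^ a := by
  have hζa : IsPrimitiveRoot (ζ ^ a) (p ^ (n+1)) := hζ.pow_of_coprime a (ha.pow_right _)
  have : NeZero (p ^ (n+1)) := ⟨(pow_pos hp.out.pos _).ne'⟩
  have h1 := hζ.minpoly_eq_cyclotomic_of_irreducible hirr
  have h2 := hζa.minpoly_eq_cyclotomic_of_irreducible hirr
  have h3 : IsConjRoot ℚ_[p] (ζ ^ a) ζ := by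
    rw [IsConjRoot, ← h1, ← h2]
  obtain ⟨σ, hσ⟩ := isConjRoot_iff_exists_algEquiv.1 h3
  exact ⟨σ, hσ⟩

/-- the key non-vanishing: `F(ζ^(1+p^(n-1))) ≠ F(ζ)`; here `n = k + 2`. -/
lemma key {Ω : Type*} [Field Ω] [CharZero Ω] {ι : Type*} [Fintype ι] (m : ι → ℕ)
    (hm : ∀ i, 0 < m i) (k : ℕ) (y : ι → ℕ)
    (hdist : ∀ i j, y i ≡ y j [MOD p ^ (k + 1)] → y i ≡ y j [MOD p ^ (k + 2)])
    (i₀ : ι) (hi₀ : ¬ p ∣ y i₀)
    (ζ : Ω) (hζ : IsPrimitiveRoot ζ (p ^ (k + 2)))
    (hσ : ∀ a : ℕ, a.Coprime p → ∃ σ : Ω →+* Ω, σ ζ = ζ ^ a) :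
    ∑ i, (m i : Ω) * (ζ ^ (1 + p ^ (k + 1))) ^ (y i) ≠
      ∑ i, (m i : Ω) * ζ ^ (y i) := by
  classical
  intro hF
  have hp1 : 1 < p := hp.out.one_lt
  set N := p ^ (k + 2) with hN
  have hN1 : 1 ≤ N := Nat.one_le_iff_ne_zero.2 (pow_pos hp.out.pos _).ne'
  set s := (N - 1) * y i₀ with hs
  have hζN : ζ ^ N = 1 := hζ.pow_eq_one
  -- geometric sums
  have hgeom : ∀ θ : Ω, θ ^ N = 1 →
      ∑ j ∈ Finset.range (p ^ (k + 1)), θ ^ (1 + p * j) =
        if θ ^ p = 1 then (p ^ (k + 1) : ℕ) * θ else 0 := by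
    intro θ hθ
    have h1 : ∀ j ∈ Finset.range (p ^ (k + 1)), θ ^ (1 + p * j) = θ * (θ ^ p) ^ j := by
      intro j _
      rw [pow_add, pow_one, pow_mul]
    rw [Finset.sum_congr rfl h1, ← Finset.mul_sum]
    split_ifs with h
    · rw [h]; simp [mul_comm]
    · rw [geom_sum_eq h, ← pow_mul, show p * p ^ (k + 1) = N by rw [hN, pow_succ p (k+1), mul_comm],
        hθ, sub_self, zero_div, mul_zero]
  -- apply the automorphisms
  have hk : ∀ j ∈ Finset.range (p ^ (k + 1)),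
      ∑ i, (m i : Ω) * (ζ ^ ((1 + p ^ (k + 1)) * y i + s)) ^ (1 + p * j) =
      ∑ i, (m i : Ω) * (ζ ^ (y i + s)) ^ (1 + p * j) := by
    intro j _
    obtain ⟨σ, hσ⟩ := hσ (1 + p * j) (by simp)
    have h1 := congrArg σ hF
    simp only [map_sum, map_mul, map_natCast, map_pow, hσ] at h1
    have h2 := congrArg (fun z => z * (ζ ^ s) ^ (1 + p * j)) h1
    simp only [Finset.sum_mul] at h2
    convert h2 using 2 with i _ i _
    · rw [mul_assoc]; congr 1
      rw [← pow_mul, ← pow_mul, ← pow_mul, ← pow_mul, ← pow_add]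
      congr 1; ring
    · rw [mul_assoc]; congr 1
      rw [← pow_mul, ← pow_mul, ← pow_mul, ← pow_add]
      congr 1; ring
  have hsum := Finset.sum_congr rfl hk
  rw [Finset.sum_comm, Finset.sum_comm (s := Finset.range (p ^ (k+1)))] at hsum
  simp only [← Finset.mul_sum] at hsum
  have hθN : ∀ e : ℕ, (ζ ^ e) ^ N = 1 := fun e => by rw [← pow_mul, mul_comm, pow_mul, hζN, one_pow]
  simp only [hgeom _ (hθN _)] at hsum
  -- condition equivalence
  have hcond : ∀ e : ℕ, ((ζ ^ e) ^ p = 1 ↔ p ^ (k + 1) ∣ e) := by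
    intro e
    rw [← pow_mul, hζ.pow_eq_one_iff_dvd, hN, pow_succ p (k + 1)]
    exact Nat.mul_dvd_mul_iff_right hp.out.pos
  have hs' : ∀ M, M ∣ N → ∀ e : ℕ, (M ∣ e + s ↔ e ≡ y i₀ [MOD M]) := by
    intro M hM e
    have h0 : s + y i₀ = N * y i₀ := by
      rw [hs]
      conv_rhs => rw [← Nat.sub_add_cancel hN1]
      ring
    have h1 : s + y i₀ ≡ 0 [MOD M] := by
      rw [h0]
      exact (Nat.modEq_zero_iff_dvd.2 (hM.mul_right _))
    constructor
    · intro h
      have h2 : e + s ≡ y i₀ + s [MOD M] := by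
        rw [add_comm (y i₀)]
        exact (Nat.modEq_zero_iff_dvd.2 h).trans h1.symm
      exact Nat.ModEq.add_right_cancel' s h2
    · intro h
      have h2 : e + s ≡ y i₀ + s [MOD M] := h.add_right s
      rw [add_comm (y i₀)] at h2
      exact Nat.modEq_zero_iff_dvd.1 (h2.trans h1)
  have hdvd1 : p ^ (k + 1) ∣ N := by rw [hN]; exact pow_dvd_pow p (by omega)
  -- value for each i
  set ω := ζ ^ (p ^ (k + 1)) with hω
  have hωprim : IsPrimitiveRoot ω p := by
    refine hζ.pow (pow_pos hp.out.pos _) ?_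
    rw [pow_succ p (k+1)]
  have hval : ∀ i, ((m i : Ω) * (if (ζ ^ ((1 + p ^ (k + 1)) * y i + s)) ^ p = 1 then
        ((p ^ (k + 1) : ℕ) : Ω) * ζ ^ ((1 + p ^ (k + 1)) * y i + s) else 0)) -
      ((m i : Ω) * (if (ζ ^ (y i + s)) ^ p = 1 then ((p ^ (k + 1) : ℕ) : Ω) * ζ ^ (y i + s) else 0))
      = (if y i ≡ y i₀ [MOD p ^ (k + 1)] then (m i : Ω) else 0) *
        (((p ^ (k + 1) : ℕ) : Ω) * (ω ^ (y i₀) - 1)) := by
    intro i
    have e1 : (ζ ^ (y i + s)) ^ p = 1 ↔ y i ≡ y i₀ [MOD p ^ (k + 1)] := by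
      rw [hcond, hs' _ hdvd1]
    have e2 : (ζ ^ ((1 + p ^ (k + 1)) * y i + s)) ^ p = 1 ↔ y i ≡ y i₀ [MOD p ^ (k + 1)] := by
      rw [hcond, hs' _ hdvd1]
      have : (1 + p ^ (k + 1)) * y i ≡ y i [MOD p ^ (k + 1)] := by
        have h3 : (1 + p ^ (k + 1)) * y i = y i + p ^ (k + 1) * y i := by ring
        rw [h3]
        conv_rhs => rw [← add_zero (y i)]
        exact Nat.ModEq.add_left _ (Nat.modEq_zero_iff_dvd.2 (dvd_mul_right _ _))
      exact ⟨fun h => this.symm.trans h, fun h => this.trans h⟩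
    by_cases h : y i ≡ y i₀ [MOD p ^ (k + 1)]
    · rw [if_pos (e1.2 h), if_pos (e2.2 h), if_pos h]
      have h4 := hdist i i₀ h
      have h5 : ζ ^ (y i + s) = 1 := by
        rw [hζ.pow_eq_one_iff_dvd]
        exact (hs' N dvd_rfl _).2 h4
      have h6 : ζ ^ ((1 + p ^ (k + 1)) * y i + s) = ω ^ (y i₀) := by
        have : (1 + p ^ (k + 1)) * y i + s = p ^ (k + 1) * y i + (y i + s) := by ring
        rw [this, pow_add, h5, mul_one, pow_mul, ← hω]
        have h7 : y i ≡ y i₀ [MOD p] := h4.of_dvd (dvd_pow_self p (by omega))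
        have h8 : orderOf ω = p := hωprim.eq_orderOf.symm
        rw [← pow_mod_orderOf ω (y i), ← pow_mod_orderOf ω (y i₀), h8, h7]
      rw [h5, h6]; ring
    · rw [if_neg (fun h' => h (e1.1 h')), if_neg (fun h' => h (e2.1 h')), if_neg h]; ring
  have hfin : (∑ i, (if y i ≡ y i₀ [MOD p ^ (k + 1)] then (m i : Ω) else 0)) *
        (((p ^ (k + 1) : ℕ) : Ω) * (ω ^ (y i₀) - 1)) = 0 := by
    rw [Finset.sum_mul, ← Finset.sum_congr rfl (fun i _ => hval i), Finset.sum_sub_distrib, hsum,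
      sub_self]
  rcases mul_eq_zero.1 hfin with h | h
  · have h9 : ((∑ i, (if y i ≡ y i₀ [MOD p ^ (k + 1)] then m i else 0) : ℕ) : Ω) = 0 := by
      rw [← h]; push_cast; refine Finset.sum_congr rfl fun i _ => ?_; split_ifs <;> simp
    rw [Nat.cast_eq_zero, Finset.sum_eq_zero_iff] at h9
    have h10 := h9 i₀ (Finset.mem_univ _)
    rw [if_pos (Nat.ModEq.refl _)] at h10
    exact (hm i₀).ne' h10
  · rcases mul_eq_zero.1 h with h | h
    · rw [Nat.cast_eq_zero] at h
      exact (pow_pos hp.out.pos _).ne' h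
    · rw [sub_eq_zero, hωprim.pow_eq_one_iff_dvd] at h
      exact hi₀ h


/-- the unit `1 + p^(k+1)` mod `p^(k+2)` -/
noncomputable def uu (k : ℕ) : (ZMod (p ^ (k + 2)))ˣ :=
  ZMod.unitOfCoprime (1 + p ^ (k + 1)) (by
    refine Nat.Coprime.pow_right _ ?_
    rw [pow_succ, mul_comm]
    simp)

lemma pow_eq_one_of_orderOf {G : Type*} [Monoid G] {g : G} {q : ℕ} (h : orderOf g = q) :
    g ^ q = 1 := h ▸ pow_orderOf_eq_one g

lemma card_le_of_odd (hp2 : p ≠ 2) (k : ℕ) (H : Subgroup (ZMod (p ^ (k + 2)))ˣ)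
    (hH : uu p k ∉ H) : Nat.card H ≤ p - 1 := by
  have : IsCyclic (ZMod (p ^ (k + 2)))ˣ := ZMod.isCyclic_units_of_prime_pow p hp.out hp2 _
  have hcard : Nat.card (ZMod (p ^ (k + 2)))ˣ = p ^ (k + 1) * (p - 1) := by
    rw [Nat.card_eq_fintype_card, ZMod.card_units_eq_totient, Nat.totient_prime_pow hp.out (by omega)]
    rfl
  have hp3 : 3 ≤ p := by
    have := hp.out.two_le
    omega
  have hu : orderOf (uu p k) = p := by
    have h := ZMod.orderOf_one_add_mul_prime_pow hp.out (k + 1) (by omega) (by nlinarith) 1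
      (by
        intro h
        have := Int.le_of_dvd one_pos h
        have := hp.out.one_lt
        omega) 1
    rw [show 1 + (k + 1) = k + 2 by ring, pow_one] at h
    have h' : ((uu p k : (ZMod (p ^ (k + 2)))ˣ) : ZMod (p ^ (k + 2))) =
        1 + (p : ZMod (p ^ (k + 2))) ^ (k + 1) * ((1 : ℤ) : ZMod (p ^ (k + 2))) := by
      simp [uu]
    rw [← orderOf_units, h']
    exact h
  have hnd : ¬ p ∣ Nat.card H := by
    intro hdiv
    obtain ⟨h, hh⟩ := exists_prime_orderOf_dvd_card' p hdiv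
    apply hH
    classical
    have hh' : orderOf (h : (ZMod (p ^ (k + 2)))ˣ) = p := by
      exact (Subgroup.orderOf_coe h).trans hh
    set S : Finset (ZMod (p ^ (k + 2)))ˣ := Finset.univ.filter (fun g => g ^ p = 1) with hS
    have hScard : S.card ≤ p := IsCyclic.card_pow_eq_one_le hp.out.pos
    set T : Finset (ZMod (p ^ (k + 2)))ˣ :=
      (Finset.range p).image (fun j => (h : (ZMod (p ^ (k + 2)))ˣ) ^ j) with hT
    have hTcard : T.card = p := by
      rw [hT, Finset.card_image_of_injOn, Finset.card_range]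
      intro i hi j hj hij
      have := pow_injOn_Iio_orderOf (x := (h : (ZMod (p ^ (k + 2)))ˣ))
      rw [hh'] at this
      exact this (by simpa using hi) (by simpa using hj) hij
    have hTS : T ⊆ S := by
      intro g hg
      rw [hT, Finset.mem_image] at hg
      obtain ⟨j, -, rfl⟩ := hg
      rw [hS, Finset.mem_filter]
      refine ⟨Finset.mem_univ _, ?_⟩
      rw [← pow_mul, mul_comm, pow_mul]
      rw [pow_eq_one_of_orderOf hh', one_pow]
    have hTS' : T = S := Finset.eq_of_subset_of_card_le hTS (by rw [hTcard]; exact hScard)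
    have huS : uu p k ∈ S := by
      rw [hS, Finset.mem_filter]
      exact ⟨Finset.mem_univ _, pow_eq_one_of_orderOf hu⟩
    rw [← hTS', hT, Finset.mem_image] at huS
    obtain ⟨j, -, hj⟩ := huS
    rw [← hj]
    exact H.pow_mem h.2 j
  have h1 : Nat.card H ∣ p ^ (k + 1) * (p - 1) := hcard ▸ H.card_subgroup_dvd_card
  have h2 : Nat.card H ∣ p - 1 :=
    (Nat.Coprime.dvd_of_dvd_mul_left (((hp.out.coprime_iff_not_dvd).2 hnd).symm.pow_right _) h1)
  exact Nat.le_of_dvd (Nat.sub_pos_of_lt hp.out.one_lt) h2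

lemma card_le_of_two (k : ℕ) (H : Subgroup (ZMod (2 ^ (k + 2)))ˣ)
    (hH : uu 2 k ∉ H) : Nat.card H ≤ 2 := by
  have hdvd : 4 ∣ 2 ^ (k + 2) := by
    rw [pow_add]; exact Dvd.intro_left _ rfl
  set r : (ZMod (2 ^ (k + 2)))ˣ →* (ZMod 4)ˣ := ZMod.unitsMap hdvd with hr
  have hinj : Function.Injective (r.comp H.subtype) := by
    rw [← MonoidHom.ker_eq_bot_iff, Subgroup.eq_bot_iff_forall]
    by_contra hcon
    push Not at hcon
    obtain ⟨g, hg, hg1⟩ := hcon
    -- the kernel is a nontrivial 2-group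
    set K := (r.comp H.subtype).ker with hK
    have hdvd2 : 2 ∣ Nat.card K := by
      have h1 : Nat.card K ∣ 2 ^ (k + 1) := by
        have h2 : Nat.card (ZMod (2 ^ (k + 2)))ˣ = 2 ^ (k + 1) := by
          rw [Nat.card_eq_fintype_card, ZMod.card_units_eq_totient,
            Nat.totient_prime_pow Nat.prime_two (by omega)]
          simp
        rw [← h2]
        exact (K.card_subgroup_dvd_card).trans H.card_subgroup_dvd_card
      obtain ⟨j, -, hj⟩ := (Nat.dvd_prime_pow Nat.prime_two).1 h1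
      rw [hj]
      rcases Nat.eq_zero_or_pos j with rfl | hj0
      · exfalso
        rw [pow_zero] at hj
        have : K = ⊥ := Subgroup.card_eq_one.1 hj
        rw [this, Subgroup.mem_bot] at hg
        exact hg1 hg
      · exact dvd_pow_self 2 hj0.ne'
    obtain ⟨h, hh⟩ := exists_prime_orderOf_dvd_card' 2 hdvd2
    have hh1 : ((h : H) : (ZMod (2 ^ (k + 2)))ˣ) ^ 2 = 1 := by
      have h1 : h ^ 2 = 1 := pow_eq_one_of_orderOf hh
      have h2 := congrArg (fun z : K => ((z : H) : (ZMod (2 ^ (k + 2)))ˣ)) h1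
      simpa using h2
    have hh2 : ((h : H) : (ZMod (2 ^ (k + 2)))ˣ) ≠ 1 := by
      intro h1
      have h2 : h = 1 := by
        ext1; ext1; exact h1
      rw [h2, orderOf_one] at hh
      omega
    have hh3 : r ((h : H) : (ZMod (2 ^ (k + 2)))ˣ) = 1 := by
      exact MonoidHom.mem_ker.1 h.2
    set z : (ZMod (2 ^ (k + 2)))ˣ := ((h : H) : (ZMod (2 ^ (k + 2)))ˣ) with hz
    set v : ℕ := (z : ZMod (2 ^ (k + 2))).val with hv
    have hpos : 0 < 2 ^ (k + 2) := by positivity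
    have : NeZero (2 ^ (k + 2)) := ⟨hpos.ne'⟩
    have hvlt : v < 2 ^ (k + 2) := ZMod.val_lt _
    have hvcast : ((v : ℕ) : ZMod (2 ^ (k + 2))) = z := ZMod.natCast_zmod_val _
    have h4 : v % 4 = 1 := by
      have h5 : ((v : ℕ) : ZMod 4) = 1 := by
        have h6 := congrArg (fun z : (ZMod 4)ˣ => (z : ZMod 4)) hh3
        simp only [hr, ZMod.unitsMap_val, Units.val_one] at h6
        rw [← h6, ← hvcast]
        simp [ZMod.cast_natCast hdvd]
      have h7 := (ZMod.natCast_eq_natCast_iff' v 1 4).1 (by simpa using h5)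
      simpa using h7
    have hv1 : v ≠ 1 := by
      intro h5
      apply hh2
      ext1
      rw [← hvcast, h5]; simp
    have hsq : 2 ^ (k + 2) ∣ v ^ 2 - 1 := by
      have h5 : ((v ^ 2 : ℕ) : ZMod (2 ^ (k + 2))) = ((1 : ℕ) : ZMod (2 ^ (k + 2))) := by
        have h6 := congrArg (fun z : (ZMod (2 ^ (k + 2)))ˣ => (z : ZMod (2 ^ (k + 2)))) hh1
        simp only [Units.val_pow_eq_pow_val, Units.val_one] at h6
        push_cast
        rw [hvcast, h6]
      have h7 := (ZMod.natCast_eq_natCast_iff _ _ _).1 h5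
      exact (Nat.modEq_iff_dvd' (Nat.one_le_pow _ _ (by omega))).1 h7.symm
    obtain ⟨t, ht⟩ : ∃ t, v = 4 * t + 1 := ⟨v / 4, by omega⟩
    have hfac : v ^ 2 - 1 = 2 * ((2 * t + 1) * (v - 1)) := by
      rw [ht]
      have : (4 * t + 1) ^ 2 = 16 * t ^ 2 + 8 * t + 1 := by ring
      rw [this]
      simp only [Nat.add_sub_cancel]
      ring
    rw [hfac, show 2 ^ (k + 2) = 2 * 2 ^ (k + 1) by ring] at hsq
    have h8 : 2 ^ (k + 1) ∣ (2 * t + 1) * (v - 1) := Nat.dvd_of_mul_dvd_mul_left (by omega) hsq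
    have h9 : 2 ^ (k + 1) ∣ v - 1 := by
      refine Nat.Coprime.dvd_of_dvd_mul_left ?_ h8
      refine Nat.Coprime.pow_left _ ?_
      rw [Nat.coprime_two_left]
      exact ⟨t, rfl⟩
    obtain ⟨q, hq⟩ := h9
    have hq1 : q = 1 := by
      have h10 : v - 1 < 2 ^ (k + 1) * 2 := by
        have : 2 ^ (k + 2) = 2 ^ (k + 1) * 2 := by ring
        omega
      rw [hq] at h10
      have h11 : q < 2 := lt_of_mul_lt_mul_left h10 (by positivity)
      have h12 : q ≠ 0 := by
        rintro rfl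
        simp at hq
        omega
      omega
    apply hH
    have hzu : uu 2 k = z := by
      ext1
      rw [← hvcast]
      have : v = 1 + 2 ^ (k + 1) := by rw [hq1] at hq; omega
      rw [this]
      simp [uu]
    rw [hzu]
    exact (h : H).2
  have h1 := Nat.card_le_card_of_injective _ hinj
  refine h1.trans ?_
  rw [Nat.card_eq_fintype_card, ZMod.card_units_eq_totient]
  decide


lemma associated_pow_totient {R : Type*} [CommRing R] [IsDomain R] (p : ℕ) [hp : Fact p.Prime]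
    (n : ℕ) (η : R) (hη : IsPrimitiveRoot η (p ^ (n + 1))) :
    Associated ((1 - η) ^ (Nat.totient (p ^ (n + 1)))) (p : R) := by
  have hpos : 0 < p ^ (n + 1) := pow_pos hp.out.pos _
  have h1 : (p : R) = ∏ μ ∈ primitiveRoots (p ^ (n + 1)) R, (1 - μ) := by
    have h2 := eval_one_cyclotomic_prime_pow (R := R) (p := p) n
    rw [cyclotomic_eq_prod_X_sub_primitiveRoots hη, eval_prod] at h2
    simpa using h2.symm
  have h3 : ∀ μ ∈ primitiveRoots (p ^ (n + 1)) R, Associated (1 - η) (1 - μ) := by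
    intro μ hμ
    have hμ' : IsPrimitiveRoot μ (p ^ (n + 1)) := (mem_primitiveRoots hpos).1 hμ
    have : NeZero (p ^ (n + 1)) := ⟨hpos.ne'⟩
    obtain ⟨i, -, hi⟩ := hη.eq_pow_of_pow_eq_one hμ'.pow_eq_one
    obtain ⟨j, -, hj⟩ := hμ'.eq_pow_of_pow_eq_one hη.pow_eq_one
    refine associated_of_dvd_dvd ?_ ?_
    · rw [← hi]; simpa using sub_dvd_pow_sub_pow 1 η i
    · rw [← hj]; simpa using sub_dvd_pow_sub_pow 1 μ j
  rw [h1, ← hη.card_primitiveRoots, ← Finset.prod_const]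
  exact Associated.prod _ _ _ h3


lemma ramIdx_bound (p : ℕ) [hp : Fact p.Prime]
    {S : Type*} [CommRing S] [IsDedekindDomain S] [Algebra ℤ_[p] S] [Algebra.IsIntegral ℤ_[p] S]
    (hinj : Function.Injective (algebraMap ℤ_[p] S))
    (x : S) (N h : ℕ) (hh : 0 < h)
    (hx : Associated (x ^ N) ((p : S) ^ h)) :
    N ≤ h * (maximalIdeal ℤ_[p]).ramificationIdxIn S := by
  have hex : ∃ P : Ideal S, P.IsPrime ∧ P.LiesOver (maximalIdeal ℤ_[p]) := by
    have : FaithfulSMul ℤ_[p] S := (faithfulSMul_iff_algebraMap_injective _ _).2 hinj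
    obtain ⟨⟨P, hP1, hP2⟩⟩ := (inferInstance : Nonempty ((maximalIdeal ℤ_[p]).primesOver S))
    exact ⟨P, hP1, hP2⟩
  rw [Ideal.ramificationIdxIn, dif_pos hex]
  obtain ⟨hP1, hP2⟩ := hex.choose_spec
  set P := hex.choose
  have hpmap : (maximalIdeal ℤ_[p]).map (algebraMap ℤ_[p] S) = Ideal.span {(p : S)} := by
    rw [PadicInt.maximalIdeal_eq_span_p, Ideal.map_span]
    simp
  have hp0 : (p : S) ≠ 0 := by
    intro h0
    have h1 : algebraMap ℤ_[p] S (p : ℤ_[p]) = algebraMap ℤ_[p] S 0 := by simpa using h0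
    have h2 := hinj h1
    exact (PadicInt.prime_p (p := p)).ne_zero h2
  have hne : (maximalIdeal ℤ_[p]).map (algebraMap ℤ_[p] S) ≠ ⊥ := by
    rw [hpmap, Ne, Ideal.span_singleton_eq_bot]
    exact hp0
  rw [Ideal.IsDedekindDomain.ramificationIdx_eq_multiplicity (maximalIdeal ℤ_[p]) P hne]
  have hPp : (p : S) ∈ P := by
    have h1 : (maximalIdeal ℤ_[p]).map (algebraMap ℤ_[p] S) ≤ P :=
      Ideal.map_le_iff_le_comap.2 (Ideal.over_def P (maximalIdeal ℤ_[p])).le
    rw [hpmap, Ideal.span_singleton_le_iff_mem] at h1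
    exact h1
  have hxP : x ∈ P := by
    have h1 : (p : S) ^ h ∈ P := P.pow_mem_of_mem hPp h hh
    have h2 : x ^ N ∈ P := P.mem_of_dvd hx.symm.dvd h1
    exact hP1.mem_of_pow_mem N h2
  have hPne : P ≠ ⊥ := by
    intro h1
    rw [h1, Ideal.mem_bot] at hPp
    exact hp0 hPp
  have hPprime : Prime P := Ideal.prime_of_isPrime hPne hP1
  have h3 : P ∣ Ideal.span {x} := by
    rw [Ideal.dvd_span_singleton]; exact hxP
  have h4 : P ^ N ∣ Ideal.span {(p : S)} ^ h := by
    have : Ideal.span {(p : S)} ^ h = Ideal.span {x} ^ N := by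
      rw [Ideal.span_singleton_pow, Ideal.span_singleton_pow]
      exact (Ideal.span_singleton_eq_span_singleton.2 hx.symm)
    rw [this]
    exact pow_dvd_pow_of_dvd h3 N
  rw [hpmap]
  have hfin : FiniteMultiplicity P (Ideal.span {(p : S)}) :=
    FiniteMultiplicity.of_prime_left hPprime (by rwa [hpmap] at hne)
  have hfin' : FiniteMultiplicity P (Ideal.span {(p : S)} ^ h) :=
    FiniteMultiplicity.of_prime_left hPprime (pow_ne_zero _ (by rwa [hpmap] at hne))
  have h5 := hfin'.le_multiplicity_of_pow_dvd h4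
  rwa [hfin.multiplicity_pow hPprime] at h5


/-- The ramification index over `ℚ_p` of a field `L` between `ℚ_p` and its algebraic closure:
the ramification index of the prime of the ring of integers of `L` above `p`. -/
noncomputable def ramIdx (p : ℕ) [Fact p.Prime]
    (L : IntermediateField ℚ_[p] (AlgebraicClosure ℚ_[p])) : ℕ :=
  (maximalIdeal ℤ_[p]).ramificationIdxIn (integralClosure ℤ_[p] L)

/-- Divisibility among integral elements can be checked in the big field. -/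
lemma dvd_of_dvd (p : ℕ) [hp : Fact p.Prime]
    (L : IntermediateField ℚ_[p] (AlgebraicClosure ℚ_[p]))
    (a b : integralClosure ℤ_[p] L) (ha : a ≠ 0)
    (c : AlgebraicClosure ℚ_[p]) (hc : IsIntegral ℤ_[p] c)
    (h : ((b : L) : AlgebraicClosure ℚ_[p]) = ((a : L) : AlgebraicClosure ℚ_[p]) * c) :
    a ∣ b := by
  have ha' : ((a : L) : AlgebraicClosure ℚ_[p]) ≠ 0 := by
    intro h0
    apply ha
    ext
    exact h0
  have hcL : c ∈ L := by
    have : c = ((b : L) : AlgebraicClosure ℚ_[p]) / ((a : L) : AlgebraicClosure ℚ_[p]) := by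
      rw [h]; field_simp
    rw [this]
    exact L.div_mem (b : L).2 (a : L).2
  have hcint : IsIntegral ℤ_[p] (⟨c, hcL⟩ : L) := by
    have h1 : Function.Injective (algebraMap L (AlgebraicClosure ℚ_[p])) :=
      (algebraMap L (AlgebraicClosure ℚ_[p])).injective
    have h2 : IsScalarTower ℤ_[p] L (AlgebraicClosure ℚ_[p]) :=
      IsScalarTower.of_algebraMap_eq (fun x => rfl)
    exact (isIntegral_algebraMap_iff h1).1 hc
  refine ⟨⟨⟨c, hcL⟩, hcint⟩, ?_⟩
  ext
  exact h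

/-- Module Q. -/
theorem ramIdx_ge (p : ℕ) [hp : Fact p.Prime] {ι : Type*} [Fintype ι] (m : ι → ℕ)
    (hm : ∀ i, 0 < m i) (n : ℕ) (hn : 2 ≤ n) (y : ι → ℕ)
    (hdist : ∀ i j, y i ≡ y j [MOD p ^ (n - 1)] → y i ≡ y j [MOD p ^ n])
    (i₀ : ι) (hi₀ : ¬ p ∣ y i₀)
    (ζ : AlgebraicClosure ℚ_[p]) (hζ : IsPrimitiveRoot ζ (p ^ n))
    (L : IntermediateField ℚ_[p] (AlgebraicClosure ℚ_[p]))
    [FiniteDimensional ℚ_[p] L] [IsGalois ℚ_[p] L]
    (hL : ∑ i, (m i : AlgebraicClosure ℚ_[p]) * ζ ^ (y i) ∈ L) :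
    p ^ (n - 2) ≤ ramIdx p L := by
  classical
  obtain ⟨k, rfl⟩ : ∃ k, n = k + 2 := ⟨n - 2, by omega⟩
  simp only [Nat.add_sub_cancel] at *
  have hk1 : k + 2 - 1 = k + 1 := by omega
  rw [hk1] at hdist
  have hirr := irreducible_cyclotomic_prime_pow p (k + 1)
  have hpos : 0 < p ^ (k + 2) := pow_pos hp.out.pos _
  have hNZ : NeZero (p ^ (k + 2)) := ⟨hpos.ne'⟩
  have hσ : ∀ a : ℕ, a.Coprime p → ∃ σ : AlgebraicClosure ℚ_[p] ≃ₐ[ℚ_[p]] AlgebraicClosure ℚ_[p],
      σ ζ = ζ ^ a := fun a ha => exists_algEquiv p (k + 1) ζ hζ hirr a ha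
  set F : AlgebraicClosure ℚ_[p] → AlgebraicClosure ℚ_[p] := fun z =>
    ∑ i, (m i : AlgebraicClosure ℚ_[p]) * z ^ (y i) with hF
  have hkey : F (ζ ^ (1 + p ^ (k + 1))) ≠ F ζ :=
    key p m hm k y hdist i₀ hi₀ ζ hζ (fun a ha => by
      obtain ⟨σ, hs⟩ := hσ a ha
      exact ⟨(σ : AlgebraicClosure ℚ_[p] →+* AlgebraicClosure ℚ_[p]), hs⟩)
  have hFσ : ∀ (σ : AlgebraicClosure ℚ_[p] ≃ₐ[ℚ_[p]] AlgebraicClosure ℚ_[p]) z,
      σ (F z) = F (σ z) := by
    intro σ z
    simp [hF, map_sum, map_mul, map_pow]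
  -- powers by units
  set pw : (ZMod (p ^ (k + 2)))ˣ → AlgebraicClosure ℚ_[p] :=
    fun a => ζ ^ (a : ZMod (p ^ (k + 2))).val with hpw
  have hpwmod : ∀ i j : ℕ, ((i : ZMod (p ^ (k + 2))) = j) → ζ ^ i = ζ ^ j := by
    intro i j hij
    have h1 := (ZMod.natCast_eq_natCast_iff _ _ _).1 hij
    rw [← pow_mod_orderOf ζ i, ← pow_mod_orderOf ζ j, ← hζ.eq_orderOf]
    rw [h1]
  have hpwmul : ∀ a b : (ZMod (p ^ (k + 2)))ˣ,
      pw (a * b) = (pw a) ^ (b : ZMod (p ^ (k + 2))).val := by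
    intro a b
    simp only [hpw]
    rw [← pow_mul]
    apply hpwmod
    simp
  have hcop : ∀ a : (ZMod (p ^ (k + 2)))ˣ, (a : ZMod (p ^ (k + 2))).val.Coprime p := by
    intro a
    have h1 := ZMod.val_coe_unit_coprime a
    exact (Nat.coprime_pow_right_iff (by omega) _ _).1 h1
  have hpw1 : pw 1 = ζ := by
    have h1 : ζ ^ ((1 : (ZMod (p ^ (k + 2)))ˣ) : ZMod (p ^ (k + 2))).val = ζ ^ 1 := by
      apply hpwmod; simp
    simpa [hpw] using h1
  -- the subgroup
  let H : Subgroup (ZMod (p ^ (k + 2)))ˣ :=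
    { carrier := {a | F (pw a) = F ζ}
      one_mem' := by
        show F (pw 1) = F ζ
        rw [hpw1]
      mul_mem' := by
        intro a b ha hb
        show F (pw (a * b)) = F ζ
        obtain ⟨σ, hs⟩ := hσ _ (hcop b)
        have h1 : σ (pw a) = pw (a * b) := by
          rw [mul_comm, hpwmul]
          simp only [hpw, map_pow, hs]
        rw [← h1, ← hFσ, show F (pw a) = F ζ from ha, hFσ, hs]
        exact hb
      inv_mem' := by
        intro a ha
        show F (pw a⁻¹) = F ζ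
        obtain ⟨σ, hs⟩ := hσ _ (hcop a⁻¹)
        have h1 : σ (pw a) = ζ := by
          have : pw (a⁻¹ * a) = ζ := by rw [inv_mul_cancel, hpw1]
          rw [← this, hpwmul]
          simp only [hpw, map_pow, hs]
        have h2 := congrArg σ (show F (pw a) = F ζ from ha)
        rw [hFσ, hFσ, h1, hs] at h2
        exact h2.symm }
  have hHmem : ∀ a, a ∈ H ↔ F (pw a) = F ζ := fun a => Iff.rfl
  have huH : uu p k ∉ H := by
    rw [hHmem]
    have h1 : pw (uu p k) = ζ ^ (1 + p ^ (k + 1)) := by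
      simp only [hpw]
      apply hpwmod
      simp [uu]
    rw [h1]
    exact hkey
  -- the element
  set x : AlgebraicClosure ℚ_[p] := ∏ a : H, (1 - pw (a : (ZMod (p ^ (k + 2)))ˣ)) with hx
  have hζint : IsIntegral ℤ_[p] ζ := hζ.isIntegral hpos |>.tower_top
  have hpwint : ∀ a, IsIntegral ℤ_[p] (1 - pw a) := fun a =>
    (isIntegral_one).sub (hζint.pow _)
  have hxint : IsIntegral ℤ_[p] x := IsIntegral.prod _ (fun a _ => hpwint _)
  have hxL : x ∈ L := by
    rw [← InfiniteGalois.fixedField_fixingSubgroup L, IntermediateField.mem_fixedField_iff]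
    intro σ hs
    have hsS : σ (F ζ) = F ζ := (IntermediateField.mem_fixingSubgroup_iff _ _).1 hs _ hL
    -- σ ζ = pw b
    have hσζ : IsPrimitiveRoot (σ ζ) (p ^ (k + 2)) := hζ.map_of_injective σ.injective
    obtain ⟨i, -, hi⟩ := hζ.eq_pow_of_pow_eq_one hσζ.pow_eq_one
    have hicop : i.Coprime (p ^ (k + 2)) := by
      rw [← hi] at hσζ
      exact (hζ.pow_iff_coprime hpos i).1 hσζ
    set b : (ZMod (p ^ (k + 2)))ˣ := ZMod.unitOfCoprime i hicop with hb
    have hb' : pw b = σ ζ := by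
      rw [← hi]
      simp only [hpw]
      apply hpwmod
      simp [hb]
    have hbH : b ∈ H := by
      rw [hHmem, hb', ← hFσ, hsS]
    have hperm : ∀ a : H, σ (1 - pw (a : (ZMod (p ^ (k + 2)))ˣ)) =
        1 - pw (((⟨b, hbH⟩ * a : H)) : (ZMod (p ^ (k + 2)))ˣ) := by
      intro a
      rw [map_sub, map_one]
      congr 1
      rw [Subgroup.coe_mul, hpwmul, hb']
      simp only [hpw, map_pow]
    rw [hx, map_prod, Finset.prod_congr rfl (fun a _ => hperm a)]
    exact Equiv.prod_comp (Equiv.mulLeft (⟨b, hbH⟩ : H))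
      (fun a : H => 1 - pw (a : (ZMod (p ^ (k + 2)))ˣ))
  -- associatedness in the integral closure in the algebraic closure
  set O := integralClosure ℤ_[p] (AlgebraicClosure ℚ_[p]) with hO
  have hassO : ∀ a : (ZMod (p ^ (k + 2)))ˣ,
      ∃ c c' : AlgebraicClosure ℚ_[p], IsIntegral ℤ_[p] c ∧ IsIntegral ℤ_[p] c' ∧
        (1 - pw a) ^ (Nat.totient (p ^ (k + 2))) * c = p ∧ c * c' = 1 := by
    intro a
    let η : O := ⟨pw a, hζint.pow _⟩
    have hη : IsPrimitiveRoot η (p ^ (k + 1 + 1)) := by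
      have h1 : IsPrimitiveRoot (pw a) (p ^ (k + 2)) :=
        hζ.pow_of_coprime _ (ZMod.val_coe_unit_coprime a)
      exact IsPrimitiveRoot.of_map_of_injective (f := algebraMap O (AlgebraicClosure ℚ_[p]))
        (by exact h1) Subtype.val_injective
    obtain ⟨u, hu⟩ := associated_pow_totient (R := O) p (k + 1) η hη
    refine ⟨((u : O) : AlgebraicClosure ℚ_[p]), ((↑(u⁻¹) : O) : AlgebraicClosure ℚ_[p]),
      (u : O).2, (↑(u⁻¹) : O).2, ?_, ?_⟩
    · have h2 := congrArg (fun z : O => (z : AlgebraicClosure ℚ_[p])) hu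
      simpa using h2
    · have h2 : (u : O) * ((u⁻¹ : Oˣ) : O) = 1 := Units.mul_inv u
      have h3 := congrArg (algebraMap O (AlgebraicClosure ℚ_[p])) h2
      rw [map_mul, map_one] at h3
      exact h3
  choose c c' hc hc' hcc hcc' using hassO
  set C : AlgebraicClosure ℚ_[p] := ∏ a : H, c (a : (ZMod (p ^ (k + 2)))ˣ) with hC
  set C' : AlgebraicClosure ℚ_[p] := ∏ a : H, c' (a : (ZMod (p ^ (k + 2)))ˣ) with hC'
  have hxC : x ^ (Nat.totient (p ^ (k + 2))) * C = (p : AlgebraicClosure ℚ_[p]) ^ (Nat.card H) := by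
    rw [hx, hC, ← Finset.prod_pow, ← Finset.prod_mul_distrib,
      Finset.prod_congr rfl (fun a _ => hcc _)]
    simp [Nat.card_eq_fintype_card]
  have hCC : C * C' = 1 := by
    rw [hC, hC', ← Finset.prod_mul_distrib, Finset.prod_congr rfl (fun a _ => hcc' _)]
    simp
  have hCint : IsIntegral ℤ_[p] C := IsIntegral.prod _ (fun a _ => hc _)
  have hC'int : IsIntegral ℤ_[p] C' := IsIntegral.prod _ (fun a _ => hc' _)
  have hinjL : Function.Injective (algebraMap L (AlgebraicClosure ℚ_[p])) :=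
    (algebraMap L (AlgebraicClosure ℚ_[p])).injective
  have hst : IsScalarTower ℤ_[p] L (AlgebraicClosure ℚ_[p]) :=
    IsScalarTower.of_algebraMap_eq (fun x => rfl)
  let xL : integralClosure ℤ_[p] L := ⟨⟨x, hxL⟩, (isIntegral_algebraMap_iff hinjL).1 hxint⟩
  have hD : IsDedekindDomain (integralClosure ℤ_[p] L) :=
    integralClosure.isDedekindDomain ℤ_[p] ℚ_[p] L
  have hinj : Function.Injective (algebraMap ℤ_[p] (integralClosure ℤ_[p] L)) := by
    have h1 : Function.Injective (algebraMap ℤ_[p] L) := by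
      rw [IsScalarTower.algebraMap_eq ℤ_[p] ℚ_[p] L]
      exact (algebraMap ℚ_[p] L).injective.comp (IsFractionRing.injective ℤ_[p] ℚ_[p])
    intro a b hab
    exact h1 (congrArg (fun z : integralClosure ℤ_[p] L => (z : L)) hab)
  have hpne : ((p : integralClosure ℤ_[p] L)) ≠ 0 := by
    intro h0
    have h1 : algebraMap ℤ_[p] (integralClosure ℤ_[p] L) (p : ℤ_[p]) =
      algebraMap ℤ_[p] (integralClosure ℤ_[p] L) 0 := by simpa using h0
    exact (PadicInt.prime_p (p := p)).ne_zero (hinj h1)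
  have hp0 : (p : AlgebraicClosure ℚ_[p]) ≠ 0 := Nat.cast_ne_zero.2 hp.out.ne_zero
  have hx0 : x ≠ 0 := by
    intro h0
    rw [h0, zero_pow (Nat.totient_pos.2 hpos).ne', zero_mul] at hxC
    exact pow_ne_zero _ hp0 hxC.symm
  have hass : Associated (xL ^ (Nat.totient (p ^ (k + 2))))
      ((p : integralClosure ℤ_[p] L) ^ (Nat.card H)) := by
    refine associated_of_dvd_dvd ?_ ?_
    · refine dvd_of_dvd p L _ _ ?_ C hCint ?_
      · refine pow_ne_zero _ ?_
        intro h0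
        apply hx0
        have := congrArg (fun z : integralClosure ℤ_[p] L => ((z : L) : AlgebraicClosure ℚ_[p])) h0
        exact this
      · simpa [xL] using hxC.symm
    · refine dvd_of_dvd p L _ _ (pow_ne_zero _ hpne) C' hC'int ?_
      have : x ^ (Nat.totient (p ^ (k + 2))) = (p : AlgebraicClosure ℚ_[p]) ^ (Nat.card H) * C' := by
        rw [← hxC, mul_assoc, hCC, mul_one]
      simpa [xL] using this
  have hbound := ramIdx_bound p hinj xL _ _ Nat.card_pos hass
  rw [Nat.totient_prime_pow hp.out (by omega)] at hbound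
  have hk2 : k + 2 - 1 = k + 1 := by omega
  rw [hk2] at hbound
  change _ ≤ Nat.card H * ramIdx p L at hbound
  rcases eq_or_ne p 2 with h2 | h2
  · have hH2 : Nat.card H ≤ 2 := by
      subst h2
      exact card_le_of_two k H huH
    have h3 : p ^ (k + 1) * (p - 1) ≤ 2 * ramIdx p L := hbound.trans (Nat.mul_le_mul_right _ hH2)
    have h4 : p ^ (k + 1) * (p - 1) = 2 * p ^ k := by
      rw [h2]; ring
    rw [h4] at h3
    exact Nat.le_of_mul_le_mul_left h3 (by norm_num)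
  · have hH2 := card_le_of_odd p h2 k H huH
    have h3 : p ^ (k + 1) * (p - 1) ≤ (p - 1) * ramIdx p L :=
      hbound.trans (Nat.mul_le_mul_right _ hH2)
    rw [mul_comm] at h3
    have h4 : p ^ (k + 1) ≤ ramIdx p L :=
      Nat.le_of_mul_le_mul_left h3 (Nat.sub_pos_of_lt hp.out.one_lt)
    exact (Nat.pow_le_pow_right hp.out.pos (by omega)).trans h4

end Pool.Agent.Helper6.WanQ
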