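import Pool.Agent.Helper47.Wan.Unram
import Pool.Agent.Helper47.Wan.Poly
import Pool.Agent.Helper47.Wan.RedW
import Pool.Agent.Helper13.WanW

/-!
# Trace one elements and the local Witt vector formula
-/

open scoped WithZero
open WithZero IsLocalRing

namespace Pool.Agent.Helper6.Wan

open Pool.Agent.Helper47.Wan

section

variable (p : ℕ) [hp : Fact p.Prime] {F : Type*} [Field F] [Algebra (ZMod p) F]

/-- There is a place outside any finite nonempty set of places. -/
theorem exists_place_notMem (hF : IsFunctionField (ZMod p) F) (S : Set (Place F)) (hSf : S.Finite)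
    (hS : S.Nonempty) : ∃ v, v ∉ S := by
  classical
  by_contra hcon
  push Not at hcon
  obtain ⟨v₁, hv₁⟩ := hS
  obtain ⟨π, hπ0, hπ⟩ := v₁.exists_uniformizer
  obtain ⟨z, hz⟩ := Place.weak_approx hSf.toFinset (fun v => if v = v₁ then π else 1) 2
  have hπv : v₁.val π = exp (-1 : ℤ) := by rw [v₁.val_eq hπ0, hπ]
  have h1 : v₁.val z = exp (-1 : ℤ) := by
    have h2 := hz v₁ (hSf.mem_toFinset.2 hv₁)
    rw [if_pos rfl] at h2
    have h3 : v₁.val (z - π) < v₁.val π := by
      rw [hπv]
      exact h2.trans_lt (exp_lt_exp.2 (by norm_num))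
    have h4 : z = π + (z - π) := by ring
    rw [h4, Valuation.map_add_eq_of_lt_left _ h3, hπv]
  have h2 : ∀ v : Place F, v.val z ≤ 1 := by
    intro v
    by_cases hv : v = v₁
    · rw [hv, h1, ← exp_zero]; exact exp_le_exp.2 (by norm_num)
    · have h2 := hz v (hSf.mem_toFinset.2 (hcon v))
      rw [if_neg hv] at h2
      have h3 : v.val (z - 1) < v.val 1 := by
        rw [map_one]
        refine h2.trans_lt ?_
        rw [← exp_zero]
        exact exp_lt_exp.2 (by norm_num)
      have h4 : z = 1 + (z - 1) := by ring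
      rw [h4, Valuation.map_add_eq_of_lt_left _ h3, map_one]
  have h3 := isAlgebraic_of_forall p hF h2
  have hz0 : z ≠ 0 := by
    rintro rfl
    rw [map_zero] at h1
    exact exp_ne_zero h1.symm
  have h4 := v₁.val_of_isAlgebraic hz0 h3
  rw [h1, ← exp_zero, exp_inj] at h4
  norm_num at h4

/-- Density: approximate at finitely many places, with poles only at one further place. -/
theorem exists_approx (hF : IsFunctionField (ZMod p) F) (T : Finset (Place F)) (w₀ : Place F)
    (hw₀ : w₀ ∉ T) (a : Place F → F) (ha : ∀ v ∈ T, v.val (a v) ≤ 1) :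
    ∃ z : F, (∀ v, v ≠ w₀ → v.val z ≤ 1) ∧ ∀ v ∈ T, v.val (z - a v) < 1 := by
  classical
  obtain ⟨h, hh⟩ := Place.weak_approx T a 1
  obtain ⟨γ, c, hc⟩ := exists_riemann p hF
  set m : Place F →₀ ℤ := ∑ v ∈ T, Finsupp.single v (1 : ℤ) with hm
  have hmv : ∀ u, m u = if u ∈ T then 1 else 0 := by
    intro u
    rw [hm, Finsupp.finsetSum_apply]
    simp only [Finsupp.single_apply]
    rw [Finset.sum_ite_eq' T u (fun _ => (1 : ℤ))]
  set N : ℕ := (|c| + |degD p m|).toNat with hN
  have hN1 : (N : ℤ) = |c| + |degD p m| := Int.toNat_of_nonneg (by positivity)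
  have hd1 : (1 : ℤ) ≤ w₀.deg p := by
    have := (w₀.card_res p hF).2
    omega
  have hdeg : c + degD p m ≤ degD p (Finsupp.single w₀ (N : ℤ)) := by
    rw [degD_single]
    have h1 : (N : ℤ) ≤ N * w₀.deg p := by nlinarith
    have h2 := le_abs_self c
    have h3 := le_abs_self (degD p m)
    linarith
  obtain ⟨z, hz, hz'⟩ := exists_base p hF hc T m (fun v hv => by rw [hmv, if_neg hv])
    (fun v hv => by rw [hmv, if_pos hv]; norm_num) (Finsupp.single w₀ (N : ℤ))
    (fun v hv => Finsupp.single_eq_of_ne (by rintro rfl; exact hw₀ hv)) hdeg h (fun v hv => by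
      have h1 : h = (h - a v) + a v := by ring
      rw [h1]
      refine (v.val.map_add _ _).trans (max_le ((hh v hv).trans ?_) (ha v hv))
      rw [← exp_zero]
      exact exp_le_exp.2 (by norm_num))
  refine ⟨z, fun v hv => ?_, fun v hv => ?_⟩
  · have h1 := hz v (Set.mem_univ v)
    rw [Finsupp.single_eq_of_ne hv, exp_zero] at h1
    exact h1
  · have h1 := hz' v hv
    rw [hmv, if_pos hv, ← Place.val_lt_one_iff_le] at h1
    have h2 := hh v hv
    rw [← Place.val_lt_one_iff_le] at h2
    have h3 : z - a v = (z - h) + (h - a v) := by ring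
    rw [h3]
    exact (v.val.map_add _ _).trans_lt (max_lt h1 h2)

end

section

variable {K L : Type*} [Field K] [Field L] [Algebra K L]

/-- The functions on the cover regular outside the places over `S`. -/
def intB (S : Set (Place K)) : Subring L where
  carrier := {b | ∀ w : Place L, (∀ v ∈ S, ¬ Over (algebraMap K L) w v) → w.val b ≤ 1}
  mul_mem' := by
    intro a b ha hb w hw
    rw [map_mul]
    exact mul_le_one' (ha w hw) (hb w hw)
  one_mem' := by intro w _; rw [map_one]
  add_mem' := by
    intro a b ha hb w hw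
    exact (w.val.map_add _ _).trans (max_le (ha w hw) (hb w hw))
  zero_mem' := by intro w _; rw [map_zero]; exact zero_le
  neg_mem' := by intro a ha w hw; rw [Valuation.map_neg]; exact ha w hw

theorem mem_intB {S : Set (Place K)} {b : L} : b ∈ intB (L := L) S ↔
    ∀ w : Place L, (∀ v ∈ S, ¬ Over (algebraMap K L) w v) → w.val b ≤ 1 := Iff.rfl

/-- The functions on the base regular outside `S`. -/
def intA (S : Set (Place K)) : Subring K where
  carrier := {b | ∀ v ∉ S, v.val b ≤ 1}
  mul_mem' := by
    intro a b ha hb w hw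
    rw [map_mul]
    exact mul_le_one' (ha w hw) (hb w hw)
  one_mem' := by intro w _; rw [map_one]
  add_mem' := by
    intro a b ha hb w hw
    exact (w.val.map_add _ _).trans (max_le (ha w hw) (hb w hw))
  zero_mem' := by intro w _; rw [map_zero]; exact zero_le
  neg_mem' := by intro a ha w hw; rw [Valuation.map_neg]; exact ha w hw

theorem mem_intA {S : Set (Place K)} {b : K} : b ∈ intA S ↔ ∀ v ∉ S, v.val b ≤ 1 := Iff.rfl

instance invariant_intB (S : Set (Place K)) : IsInvariantSubring (L ≃ₐ[K] L) (intB (L := L) S) where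
  smul_mem := by
    intro σ b hb w hw
    change w.val (σ b) ≤ 1
    rw [val_apply]
    apply hb
    intro v hv h
    apply hw v hv
    have := h.smul σ
    rwa [smul_inv_smul] at this

theorem apply_mem_intB {S : Set (Place K)} (σ : L ≃ₐ[K] L) {b : L} (hb : b ∈ intB (L := L) S) :
    σ b ∈ intB (L := L) S := (invariant_intB S).smul_mem σ hb

theorem val_le_of_mem_intB {S : Set (Place K)} {b : L} (hb : b ∈ intB (L := L) S) {v : Place K}
    (hv : v ∉ S) {w : Place L} (h : Over (algebraMap K L) w v) : w.val b ≤ 1 :=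
  hb w (fun _ hv' h' => hv (h.unique h' ▸ hv'))

end

section
variable (p : ℕ) [hp : Fact p.Prime] {K L : Type*} [Field K] [Field L] [Algebra (ZMod p) K]
  [Algebra (ZMod p) L] [Algebra K L] [IsScalarTower (ZMod p) K L] [FiniteDimensional K L]
  [IsGalois K L]

omit [IsGalois K L] in
include p in
theorem algebraMap_mem_intB (hK : IsFunctionField (ZMod p) K) {S : Set (Place K)} {a : K}
    (ha : a ∈ intA S) : algebraMap K L a ∈ intB (L := L) S := by
  intro w hw
  obtain ⟨v, hv⟩ := exists_under p hK w
  rw [hv a]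
  exact ha v (fun hvS => hw v hvS hv)

omit [IsGalois K L] in
include p in
/-- Approximation by regular functions at the places over a place outside `S`. -/
theorem exists_intB_approx (hK : IsFunctionField (ZMod p) K) {S : Set (Place K)}
    (hS : S.Nonempty) {v : Place K} (hv : v ∉ S) (a : Place L → L)
    (ha : ∀ w, Over (algebraMap K L) w v → w.val (a w) ≤ 1) :
    ∃ b ∈ intB (L := L) S, ∀ w, Over (algebraMap K L) w v → w.val (b - a w) < 1 := by
  obtain ⟨v₀, hv₀⟩ := hS
  obtain ⟨w₀, hw₀⟩ := exists_over (L := L) p hK v₀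
  set T := (finite_fiber (L := L) p hK v).toFinset with hT
  have hTm : ∀ u : Place L, u ∈ T ↔ Over (algebraMap K L) u v := by
    intro u; rw [hT, Set.Finite.mem_toFinset]; rfl
  obtain ⟨z, hz1, hz2⟩ := exists_approx p (hK.of_finite p (L := L)) T w₀ (by
    rw [hTm]
    intro h
    exact hv (h.unique hw₀ ▸ hv₀)) a (fun w hw => ha w ((hTm w).1 hw))
  refine ⟨z, fun w hw => hz1 w ?_, fun w hw => hz2 w ((hTm w).2 hw)⟩
  rintro rfl
  exact hw v₀ hv₀ hw₀

include p in
/-- The reductions of the conjugates are different. -/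
theorem eq_of_residue_eq (hK : IsFunctionField (ZMod p) K) {S : Set (Place K)}
    (hS : S.Nonempty) {v : Place K} (hv : v ∉ S) {w : Place L} (h : Over (algebraMap K L) w v)
    (he : ∀ w : Place L, Over (algebraMap K L) w v → ramE (algebraMap K L) w v = 1)
    {g g' : L ≃ₐ[K] L} (hgg : ∀ b ∈ intB (L := L) S, w.val (g b - g' b) < 1) : g = g' := by
  classical
  set τ := g⁻¹ * g' with hτ
  set w₁ := g⁻¹ • w with hw₁
  have hov₁ : Over (algebraMap K L) w₁ v := h.smul _
  have h1 : ∀ b ∈ intB (L := L) S, w₁.val (b - τ b) < 1 := by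
    intro b hb
    rw [hw₁, smul_val, inv_inv, map_sub]
    have h2 : g (τ b) = g' b := by
      rw [hτ]
      change g (g.symm (g' b)) = g' b
      rw [AlgEquiv.apply_symm_apply]
    rw [h2]
    exact hgg b hb
  have hτw : τ⁻¹ • w₁ = w₁ := by
    by_contra hne
    obtain ⟨b, hb, hb'⟩ := exists_intB_approx p hK hS hv (fun u => if u = w₁ then (1 : L) else 0)
      (fun u _ => by
        by_cases hu : u = w₁
        · rw [if_pos hu, map_one]
        · rw [if_neg hu, map_zero]; exact zero_le)
    have h2 := hb' w₁ hov₁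
    rw [if_pos rfl] at h2
    have h3 := hb' (τ⁻¹ • w₁) (hov₁.smul _)
    rw [if_neg hne, sub_zero, ← val_apply] at h3
    have h4 : (1 : L) = -(b - 1) + ((b - τ b) + τ b) := by ring
    have h5 : w₁.val (1 : L) < 1 := by
      rw [h4]
      refine (w₁.val.map_add _ _).trans_lt (max_lt ?_ ((w₁.val.map_add _ _).trans_lt
        (max_lt (h1 b hb) h3)))
      rw [Valuation.map_neg]
      exact h2
    rw [map_one] at h5
    exact lt_irrefl _ h5
  have hτ1 : τ = 1 := by
    apply inertia_eq_one p hK hov₁ (he w₁ hov₁)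
    intro z hz
    obtain ⟨b, hb, hb'⟩ := exists_intB_approx p hK hS hv (fun u => if u = w₁ then z else 0)
      (fun u _ => by
        by_cases hu : u = w₁
        · rw [if_pos hu, hu]; exact hz
        · rw [if_neg hu, map_zero]; exact zero_le)
    have h2 := hb' w₁ hov₁
    rw [if_pos rfl] at h2
    have h3 : w₁.val (τ (b - z)) < 1 := by
      rw [val_apply, hτw]; exact h2
    have h4 : τ z - z = (b - z) - (b - τ b) - τ (b - z) := by rw [map_sub]; ring
    rw [h4]
    exact (w₁.val.map_sub _ _).trans_lt (max_lt ((w₁.val.map_sub _ _).trans_lt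
      (max_lt h2 (h1 b hb))) h3)
  rw [hτ, inv_mul_eq_one] at hτ1
  exact hτ1

include p in
/-- Local surjectivity of the trace. -/
theorem exists_trace_unit (hK : IsFunctionField (ZMod p) K) {S : Set (Place K)}
    (hS : S.Nonempty) {v : Place K} (hv : v ∉ S)
    (he : ∀ w : Place L, Over (algebraMap K L) w v → ramE (algebraMap K L) w v = 1) :
    ∃ b ∈ intB (L := L) S, ∃ c : K, algebraMap K L c = ∑ σ : L ≃ₐ[K] L, σ b ∧ v.val c = 1 := by
  classical
  obtain ⟨w, hw⟩ := exists_over (L := L) p hK v
  let χ : (L ≃ₐ[K] L) → (intB (L := L) S →* w.Res) := fun σ =>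
    { toFun := fun b => IsLocalRing.residue w.ring
        ⟨σ b, val_le_of_mem_intB (apply_mem_intB σ b.2) hv hw⟩
      map_one' := by
        rw [← map_one (IsLocalRing.residue w.ring)]
        congr 1
        ext
        simp
      map_mul' := fun a b => by
        rw [← map_mul]
        congr 1
        ext
        simp }
  have hχ : Function.Injective χ := by
    intro g g' hgg
    apply eq_of_residue_eq p hK hS hv hw he
    intro b hb
    have h1 := DFunLike.congr_fun hgg (⟨b, hb⟩ : intB (L := L) S)
    have h2 : IsLocalRing.residue w.ring (⟨g b, val_le_of_mem_intB (apply_mem_intB g hb) hv hw⟩ -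
        ⟨g' b, val_le_of_mem_intB (apply_mem_intB g' hb) hv hw⟩) = 0 := by
      rw [map_sub, sub_eq_zero]
      exact h1
    rw [IsLocalRing.residue_eq_zero_iff, Valuation.mem_maximalIdeal_iff] at h2
    exact h2
  have hli := (linearIndependent_monoidHom (intB (L := L) S) w.Res).comp χ hχ
  rw [Fintype.linearIndependent_iff] at hli
  obtain ⟨b, hb⟩ : ∃ b : intB (L := L) S, ∑ σ : L ≃ₐ[K] L, χ σ b ≠ 0 := by
    by_contra hcon
    push Not at hcon
    have := hli (fun _ => 1) (by
      funext b
      simp only [Function.comp, one_smul, Finset.sum_apply, Pi.zero_apply]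
      exact hcon b) 1
    exact one_ne_zero this
  have hfix : ∑ σ : L ≃ₐ[K] L, σ (b : L) ∈ Set.range (algebraMap K L) := by
    rw [IsGalois.mem_range_algebraMap_iff_fixed]
    intro τ
    rw [map_sum]
    exact Fintype.sum_equiv (Equiv.mulLeft τ) _ _ (fun σ => rfl)
  obtain ⟨c, hc⟩ := hfix
  refine ⟨b, b.2, c, hc, ?_⟩
  have hmem : ∀ σ : L ≃ₐ[K] L, w.val (σ (b : L)) ≤ 1 := fun σ =>
    val_le_of_mem_intB (apply_mem_intB σ b.2) hv hw
  have hle : w.val (∑ σ : L ≃ₐ[K] L, σ (b : L)) ≤ 1 :=
    Valuation.map_sum_le _ (fun σ _ => hmem σ)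
  have h1 : ¬ w.val (∑ σ : L ≃ₐ[K] L, σ (b : L)) < 1 := by
    intro hlt
    apply hb
    have h2 : ∑ σ : L ≃ₐ[K] L, χ σ b = IsLocalRing.residue w.ring
        (∑ σ : L ≃ₐ[K] L, ⟨σ (b : L), hmem σ⟩) := by
      rw [map_sum]; rfl
    rw [h2, IsLocalRing.residue_eq_zero_iff, Valuation.mem_maximalIdeal_iff]
    have h3 : ((∑ σ : L ≃ₐ[K] L, (⟨σ (b : L), hmem σ⟩ : w.ring) : w.ring) : L) =
        ∑ σ : L ≃ₐ[K] L, σ (b : L) := by
      rw [AddSubmonoidClass.coe_finsetSum]
    change w.val ((∑ σ : L ≃ₐ[K] L, (⟨σ (b : L), hmem σ⟩ : w.ring) : w.ring) : L) < 1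
    rw [h3]
    exact hlt
  have h2 : w.val (∑ σ : L ≃ₐ[K] L, σ (b : L)) = 1 := le_antisymm hle (not_lt.1 h1)
  rw [← hc, hw.val_eq_one_iff] at h2
  exact h2

/-- Module T. -/
theorem exists_trace_one (hK : IsFunctionField (ZMod p) K) (S : Set (Place K)) (hSf : S.Finite)
    (hS : S.Nonempty)
    (hunr : ∀ v ∉ S, ∀ w : Place L, Over (algebraMap K L) w v → ramE (algebraMap K L) w v = 1) :
    ∃ b : L, (∀ w : Place L, (∀ v ∈ S, ¬ Over (algebraMap K L) w v) → w.val b ≤ 1) ∧
      ∑ σ : L ≃ₐ[K] L, σ b = 1 := by
  classical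
  let I : Ideal (intA S) :=
    { carrier := {a | ∃ b ∈ intB (L := L) S, algebraMap K L (a : K) = ∑ σ : L ≃ₐ[K] L, σ b}
      add_mem' := by
        rintro a a' ⟨b, hb, h⟩ ⟨b', hb', h'⟩
        refine ⟨b + b', add_mem hb hb', ?_⟩
        rw [Subring.coe_add, map_add, h, h', ← Finset.sum_add_distrib]
        exact Finset.sum_congr rfl (fun σ _ => (map_add σ b b').symm)
      zero_mem' := ⟨0, zero_mem _, by simp⟩
      smul_mem' := by
        rintro c a ⟨b, hb, h⟩
        refine ⟨algebraMap K L c * b, mul_mem (algebraMap_mem_intB p hK c.2) hb, ?_⟩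
        rw [smul_eq_mul, Subring.coe_mul, map_mul, h, Finset.mul_sum]
        refine Finset.sum_congr rfl (fun σ _ => ?_)
        rw [map_mul, AlgEquiv.commutes] }
  by_cases hI : I = ⊤
  · have h1 : (1 : intA S) ∈ I := by rw [hI]; trivial
    obtain ⟨b, hb, h⟩ := h1
    refine ⟨b, hb, ?_⟩
    rw [← h, Subring.coe_one, map_one]
  · exfalso
    obtain ⟨V, hAV, hV⟩ := Ideal.image_subset_nonunits_valuationSubring (A := intA S) I hI
    -- elements of I
    have hunit : ∀ v ∉ S, ∃ c : K, v.val c = 1 ∧ c ∈ V.nonunits := by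
      intro v hv
      obtain ⟨b, hb, c, hc, hvc⟩ := exists_trace_unit (L := L) p hK hS hv (hunr v hv)
      have hcA : c ∈ intA S := by
        intro u hu
        obtain ⟨w, hw⟩ := exists_over (L := L) p hK u
        rw [← hw c, hc]
        exact Valuation.map_sum_le _
          (fun σ _ => val_le_of_mem_intB (apply_mem_intB σ hb) hu hw)
      refine ⟨c, hvc, hV ⟨⟨c, hcA⟩, ⟨b, hb, hc⟩, rfl⟩⟩
    obtain ⟨v₁, hv₁⟩ := exists_place_notMem p hK S hSf hS
    obtain ⟨c₁, hc₁, hc₁V⟩ := hunit v₁ hv₁
    have hc₁0 : c₁ ≠ 0 := by rintro rfl; rw [map_zero] at hc₁; exact zero_ne_one hc₁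
    have hVtop : V ≠ ⊤ := by
      rintro rfl
      rw [ValuationSubring.mem_nonunits_iff_or] at hc₁V
      rcases hc₁V with h | h
      · exact hc₁0 h
      · exact h (ValuationSubring.mem_top _)
    obtain ⟨v, hv⟩ := exists_place_of_ne_top p hK V hVtop
    have hvS : v ∉ S := by
      intro hvS
      obtain ⟨x, hx, hx1, hx2⟩ := exists_only_zero p hK v
      have hx0 : x ≠ 0 := by rintro rfl; exact hx isAlgebraic_zero
      have h1 : x⁻¹ ∈ intA S := by
        intro u hu
        rw [u.val_le_one_iff (inv_ne_zero hx0), u.ord_inv]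
        have := hx2 u (by rintro rfl; exact hu hvS)
        omega
      have h2 : x⁻¹ ∈ V := hAV h1
      rw [← hv, v.mem_ring, v.val_le_one_iff (inv_ne_zero hx0), v.ord_inv] at h2
      omega
    obtain ⟨c, hc, hcV⟩ := hunit v hvS
    have hc0 : c ≠ 0 := by rintro rfl; rw [map_zero] at hc; exact zero_ne_one hc
    rw [ValuationSubring.mem_nonunits_iff_or] at hcV
    have h1 : c⁻¹ ∉ V := hcV.resolve_left hc0
    apply h1
    rw [← hv, v.mem_ring, map_inv₀, hc, inv_one]

end

section Frob

variable {p : ℕ} [hp : Fact p.Prime]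

/-- In characteristic `p` the truncation of the Frobenius depends only on the truncation. -/
theorem truncate_frobenius_congr {B : Type*} [CommRing B] [CharP B p] {n : ℕ}
    {x y : WittVector p B} (h : WittVector.truncate n x = WittVector.truncate n y) :
    WittVector.truncate n (WittVector.frobenius x) =
      WittVector.truncate n (WittVector.frobenius y) := by
  rw [Pool.Agent.Helper13.Wan.truncate_eq_iff] at h ⊢
  intro i hi
  rw [WittVector.coeff_frobenius_charP, WittVector.coeff_frobenius_charP, h i hi]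

theorem truncate_map_congr {B C : Type*} [CommRing B] [CommRing C] (ρ : B →+* C) {n : ℕ}
    {x y : WittVector p B} (h : WittVector.truncate n x = WittVector.truncate n y) :
    WittVector.truncate n (WittVector.map ρ x) = WittVector.truncate n (WittVector.map ρ y) := by
  rw [Pool.Agent.Helper13.Wan.truncate_eq_iff] at h ⊢
  intro i hi
  rw [WittVector.map_coeff, WittVector.map_coeff, h i hi]

theorem map_frobenius_charP {B C : Type*} [CommRing B] [CommRing C] [CharP B p] [CharP C p]
    (ρ : B →+* C) (x : WittVector p B) :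
    WittVector.map ρ (WittVector.frobenius x) = WittVector.frobenius (WittVector.map ρ x) := by
  ext i
  rw [WittVector.map_coeff, WittVector.coeff_frobenius_charP, WittVector.coeff_frobenius_charP,
    WittVector.map_coeff, map_pow]

theorem map_iterate_frobenius_charP {B C : Type*} [CommRing B] [CommRing C] [CharP B p]
    [CharP C p] (ρ : B →+* C) (x : WittVector p B) (j : ℕ) :
    WittVector.map ρ ((WittVector.frobenius^[j]) x) =
      (WittVector.frobenius^[j]) (WittVector.map ρ x) := by
  induction j with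
  | zero => rfl
  | succ j ih =>
    rw [Function.iterate_succ_apply', Function.iterate_succ_apply', map_frobenius_charP, ih]

end Frob

section
variable (p : ℕ) [hp : Fact p.Prime] {K L : Type*} [Field K] [Field L] [Algebra (ZMod p) K]
  [Algebra (ZMod p) L] [Algebra K L] [IsScalarTower (ZMod p) K L] [FiniteDimensional K L]
  [IsGalois K L]

/-- Module B. -/
theorem exists_witt_local (hK : IsFunctionField (ZMod p) K) (n : ℕ)
    (e : (L ≃ₐ[K] L) ≃* Multiplicative (ZMod (p ^ n))) (S : Set (Place K)) (hSf : S.Finite)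
    (hS : S.Nonempty)
    (hunr : ∀ v ∉ S, ∀ w : Place L, Over (algebraMap K L) w v → ramE (algebraMap K L) w v = 1)
    (f : Place K → ℕ)
    (hf : ∀ v ∉ S, ∀ w : Place L, Over (algebraMap K L) w v → ∀ σ : L ≃ₐ[K] L, IsFrob σ w v →
      Multiplicative.toAdd (e σ) = (f v : ZMod (p ^ n))) :
    ∃ a : WittVector p K, (∀ v ∉ S, ∀ i, v.val (a.coeff i) ≤ 1) ∧
      ∀ v ∉ S, haveI := v.charP_res p; ∀ i < n,
        (∑ j ∈ Finset.range (v.deg p), (WittVector.frobenius^[j]) (redW v a)).coeff i =
          ((f v : ℕ) : WittVector p v.Res).coeff i := by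
  classical
  have hcharL : CharP L p := charP_of_injective_algebraMap (algebraMap (ZMod p) L).injective p
  have hcharB : CharP (intB (K := K) (L := L) S) p := by
    exact RingHom.charP (intB (K := K) (L := L) S).subtype Subtype.val_injective p
  obtain ⟨b, hb, hb1⟩ := exists_trace_one (L := L) p hK S hSf hS hunr
  obtain ⟨y, hy⟩ := Pool.Agent.Helper13.Wan.exists_witt p n e
    (⟨b, hb⟩ : intB (K := K) (L := L) S) (by
      ext
      rw [AddSubmonoidClass.coe_finsetSum]
      exact hb1)
  set a := WittVector.frobenius y - y with ha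
  -- invariance
  have hinv : ∀ g : L ≃ₐ[K] L, ∀ i < n, g • (a.coeff i) = a.coeff i := by
    intro g
    have h1 : WittVector.truncate n (WittVector.map
        (MulSemiringAction.toRingHom (L ≃ₐ[K] L) (intB (K := K) (L := L) S) g) a) =
        WittVector.truncate n a := by
      have h2 : WittVector.truncate n (WittVector.map
        (MulSemiringAction.toRingHom (L ≃ₐ[K] L) (intB (K := K) (L := L) S) g) y) =
          WittVector.truncate n (y + (((Multiplicative.toAdd (e g)).val : ℕ) :
            WittVector p (intB (K := K) (L := L) S))) := by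
        rw [hy, map_add, map_natCast]
      have h3 := truncate_frobenius_congr h2
      rw [ha, map_sub, map_frobenius_charP, map_sub, h3, h2, map_add (WittVector.frobenius),
        map_natCast, map_sub, map_add, map_add]
      ring
    rw [Pool.Agent.Helper13.Wan.truncate_eq_iff] at h1
    intro i hi
    exact h1 i hi
  have hex : ∀ i, ∃ c : K, i < n → algebraMap K L c = (a.coeff i : L) := by
    intro i
    by_cases hi : i < n
    · have h1 : ((a.coeff i : intB (K := K) (L := L) S) : L) ∈ Set.range (algebraMap K L) := by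
        rw [IsGalois.mem_range_algebraMap_iff_fixed]
        intro g
        exact congrArg Subtype.val (hinv g i hi)
      obtain ⟨c, hc⟩ := h1
      exact ⟨c, fun _ => hc⟩
    · exact ⟨0, fun h => absurd h hi⟩
  choose c hc using hex
  set a' : WittVector p K := WittVector.mk p (fun i => if i < n then c i else 0) with ha'
  have hint : ∀ v ∉ S, ∀ i, v.val (a'.coeff i) ≤ 1 := by
    intro v hv i
    rw [ha', WittVector.coeff_mk]
    split_ifs with hi
    · obtain ⟨w, hw⟩ := exists_over (L := L) p hK v
      rw [← hw (c i), hc i hi]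
      exact val_le_of_mem_intB (a.coeff i).2 hv hw
    · rw [map_zero]; exact zero_le
  refine ⟨a', hint, fun v hv => ?_⟩
  have hcharv := v.charP_res p
  intro i hi
  obtain ⟨w, hw⟩ := exists_over (L := L) p hK v
  have hcharw := w.charP_res p
  obtain ⟨σ, hσ⟩ := exists_isFrob p hK hw
  obtain ⟨hcv, hdv⟩ := v.card_res p hK
  -- reduction
  let ρ : intB (K := K) (L := L) S →+* w.Res := (IsLocalRing.residue w.ring).comp
    (Subring.inclusion (show intB (K := K) (L := L) S ≤ w.ring.toSubring from
      fun b hb => val_le_of_mem_intB hb hv hw))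
  set ybar := WittVector.map ρ y with hybar
  have hσy : WittVector.map ρ (WittVector.map
      (MulSemiringAction.toRingHom (L ≃ₐ[K] L) (intB (K := K) (L := L) S) σ) y) =
      (WittVector.frobenius^[v.deg p]) ybar := by
    ext k
    rw [WittVector.iterate_frobenius_coeff, WittVector.map_coeff, WittVector.map_coeff, hybar,
      WittVector.map_coeff, ← hcv, ← map_pow, ← sub_eq_zero, ← map_sub]
    change IsLocalRing.residue w.ring _ = 0
    rw [IsLocalRing.residue_eq_zero_iff, Valuation.mem_maximalIdeal_iff]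
    exact hσ (y.coeff k : L) (val_le_of_mem_intB (y.coeff k).2 hv hw)
  have htr : WittVector.truncate n ((WittVector.frobenius^[v.deg p]) ybar) =
      WittVector.truncate n (ybar + ((f v : ℕ) : WittVector p w.Res)) := by
    rw [← hσy]
    have h2 : WittVector.truncate n (WittVector.map
        (MulSemiringAction.toRingHom (L ≃ₐ[K] L) (intB (K := K) (L := L) S) σ) y) =
          WittVector.truncate n (y + ((f v : ℕ) :
            WittVector p (intB (K := K) (L := L) S))) := by
      rw [hy, map_add, map_natCast]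
      congr 1
      apply Pool.Agent.Helper13.Wan.natCast_truncated_eq_of_modEq
      have : NeZero (p ^ n) := ⟨pow_ne_zero _ hp.out.ne_zero⟩
      rw [← ZMod.natCast_eq_natCast_iff, ZMod.natCast_zmod_val]
      exact hf v hv w hw σ hσ
    rw [truncate_map_congr ρ h2, map_add, map_natCast]
  -- telescoping
  have h4 := Pool.Agent.Helper13.Wan.frobenius_iterate_sub p ybar (v.deg p)
  have h5 : WittVector.frobenius ybar - ybar = WittVector.map ρ a := by
    rw [hybar, ha, map_sub, map_frobenius_charP]
  have h6 : WittVector.truncate n (∑ j ∈ Finset.range (v.deg p),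
      (WittVector.frobenius^[j]) (WittVector.map ρ a)) =
      WittVector.truncate n ((f v : ℕ) : WittVector p w.Res) := by
    rw [← h5, ← h4, map_sub, htr, map_add, add_sub_cancel_left]
  -- comparison with the base
  have h7 : ∀ k < n, (WittVector.map ρ a).coeff k = (WittVector.map hw.res (redW v a')).coeff k := by
    intro k hk
    rw [WittVector.map_coeff, WittVector.map_coeff, redW_coeff v a' k (hint v hv k),
      Over.res_residue]
    change IsLocalRing.residue w.ring _ = _
    congr 1
    ext
    rw [Over.coe_ringMap]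
    change (a.coeff k : L) = algebraMap K L (a'.coeff k)
    rw [ha', WittVector.coeff_mk, if_pos hk, hc k hk]
  have h8 := Pool.Agent.Helper13.Wan.coeff_sum_congr p n (Finset.range (v.deg p))
    (fun j => (WittVector.frobenius^[j]) (WittVector.map ρ a))
    (fun j => (WittVector.frobenius^[j]) (WittVector.map hw.res (redW v a'))) (by
      intro j _ k hk
      rw [WittVector.iterate_frobenius_coeff, WittVector.iterate_frobenius_coeff, h7 k hk]) i hi
  have h9 : ∑ j ∈ Finset.range (v.deg p), (WittVector.frobenius^[j])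
      (WittVector.map hw.res (redW v a')) = WittVector.map hw.res
      (∑ j ∈ Finset.range (v.deg p), (WittVector.frobenius^[j]) (redW v a')) := by
    rw [map_sum]
    exact Finset.sum_congr rfl (fun j _ => (map_iterate_frobenius_charP _ _ _).symm)
  rw [h9] at h8
  rw [Pool.Agent.Helper13.Wan.truncate_eq_iff] at h6
  have h10 := h6 i hi
  rw [h8, ← map_natCast (WittVector.map hw.res), WittVector.map_coeff, WittVector.map_coeff] at h10
  exact hw.res.injective h10

end

end Pool.Agent.Helper6.Wan
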