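import Mathlib

set_option autoImplicit false
open MeasureTheory Filter

namespace Pool.Agent.Helper6.KG

/-- An injective linear map `ℝ^d → ℝ^n` has `d` coordinates on which it is bijective. -/
theorem exists_coords (n d : ℕ) (A : (Fin d → ℝ) →ₗ[ℝ] (Fin n → ℝ))
    (hA : Function.Injective A) :
    ∃ (σ : Fin d → Fin n) (B : (Fin d → ℝ) ≃ₗ[ℝ] (Fin d → ℝ)),
      Function.Injective σ ∧ ∀ t i, B t i = A t (σ i) := by
  classical
  set N : Matrix (Fin n) (Fin d) ℝ := LinearMap.toMatrix' A with hN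
  have hNA : ∀ t, N.mulVec t = A t := by
    intro t
    rw [hN, LinearMap.toMatrix'_mulVec]
  have hrank : N.rank = d := by
    rw [Matrix.rank]
    have h1 : N.mulVecLin = A := by
      apply LinearMap.ext
      intro t
      rw [Matrix.mulVecLin_apply, hNA]
    rw [h1, LinearMap.finrank_range_of_inj hA]
    simp
  have hspan : Module.finrank ℝ (Submodule.span ℝ (Set.range N.row)) = d := by
    rw [← Matrix.rank_eq_finrank_span_row, hrank]
  obtain ⟨f, hfmem, -, hfli⟩ :=
    Submodule.exists_fun_fin_finrank_span_eq ℝ (Set.range N.row)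
  let e : Fin d ≃ Fin (Module.finrank ℝ (Submodule.span ℝ (Set.range N.row))) :=
    finCongr hspan.symm
  choose τ hτ using hfmem
  let σ : Fin d → Fin n := fun i => τ (e i)
  have hσ : ∀ i, N.row (σ i) = f (e i) := fun i => hτ (e i)
  have hli : LinearIndependent ℝ (fun i => N.row (σ i)) := by
    have : (fun i => N.row (σ i)) = f ∘ e := by
      funext i
      exact hσ i
    rw [this]
    exact hfli.comp e e.injective
  have hli' : LinearIndependent ℝ (N.submatrix σ id).row := hli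
  have hunit : IsUnit (N.submatrix σ id) :=
    Matrix.linearIndependent_rows_iff_isUnit.1 hli'
  have hinj : Function.Injective (Matrix.toLin' (N.submatrix σ id)) := by
    have := Matrix.mulVec_injective_of_isUnit hunit
    intro x y hxy
    apply this
    simpa only [Matrix.toLin'_apply] using hxy
  let B : (Fin d → ℝ) ≃ₗ[ℝ] (Fin d → ℝ) :=
    LinearEquiv.ofInjectiveEndo (Matrix.toLin' (N.submatrix σ id)) hinj
  refine ⟨σ, B, ?_, ?_⟩
  · intro i j hij
    have : (fun i => N.row (σ i)) i = (fun i => N.row (σ i)) j := by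
      simp only [hij]
    exact hli.injective this
  · intro t i
    have : B t = (N.submatrix σ id).mulVec t := by
      simp only [B, LinearEquiv.coe_ofInjectiveEndo, Matrix.toLin'_apply]
    rw [this, ← hNA]
    rfl

theorem result_of_graph
    (hG : ∀ (d : ℕ), 1 ≤ d → ∀ (κ : Type) [Fintype κ] (M : (Fin d → ℝ) →ₗ[ℝ] (κ → ℝ))
      (c : κ → ℝ) (ψ : ℕ → ℝ), (∀ q, 0 ≤ ψ q) → Antitone ψ →
      ¬ Summable (fun q : ℕ => ψ q ^ (d + Fintype.card κ)) →
      ∀ᵐ x ∂(volume : Measure (Fin d → ℝ)), ∃ᶠ q : ℕ in atTop,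
        (∀ i : Fin d, |(q : ℝ) * x i - (round ((q : ℝ) * x i) : ℝ)| < ψ q) ∧
        (∀ i : κ, |(q : ℝ) * (M x i + c i) - (round ((q : ℝ) * (M x i + c i)) : ℝ)| < ψ q)) :
    ∀ (n d : ℕ), 1 ≤ d →
      ∀ (a : Fin n → ℝ) (A : (Fin d → ℝ) →ₗ[ℝ] (Fin n → ℝ)),
        Function.Injective A →
        ∀ ψ : ℕ → ℝ, (∀ q, 0 ≤ ψ q) → Antitone ψ →
          ¬ Summable (fun q : ℕ => ψ q ^ n) →
          ∀ᵐ t ∂(volume : Measure (Fin d → ℝ)),
            ∃ᶠ q : ℕ in atTop, ∀ i : Fin n,
              |(q : ℝ) * (a i + A t i) - (round ((q : ℝ) * (a i + A t i)) : ℝ)| < ψ q := by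
  classical
  intro n d hd a A hA ψ h0 hψ hdiv
  obtain ⟨σ, B, hσ, hB⟩ := exists_coords n d A hA
  let κ : Type := {i : Fin n // i ∉ Set.range σ}
  let res : (Fin n → ℝ) →ₗ[ℝ] (κ → ℝ) :=
    { toFun := fun v i => v i.1
      map_add' := fun _ _ => rfl
      map_smul' := fun _ _ => rfl }
  let M : (Fin d → ℝ) →ₗ[ℝ] (κ → ℝ) := (res.comp A).comp (B.symm : (Fin d → ℝ) →ₗ[ℝ] (Fin d → ℝ))
  have hM : ∀ x i, M x i = A (B.symm x) i.1 := fun _ _ => rfl
  let aσ : Fin d → ℝ := fun i => a (σ i)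
  let c : κ → ℝ := fun i => a i.1 - M aσ i
  have hcard : d + Fintype.card κ = n := by
    have h1 : Fintype.card κ = Fintype.card (Fin n) - Fintype.card {i : Fin n // i ∈ Set.range σ} :=
      Fintype.card_subtype_compl _
    have h2 : Fintype.card {i : Fin n // i ∈ Set.range σ} = d := by
      have := Set.card_range_of_injective hσ
      rw [Fintype.card_fin] at this
      convert this
    have h3 : d ≤ n := by
      have := Fintype.card_le_of_injective σ hσ
      simpa using this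
    rw [h1, h2, Fintype.card_fin]
    omega
  have hx := hG d hd κ M c ψ h0 hψ (by rw [hcard]; exact hdiv)
  have hdetB : LinearMap.det (B : (Fin d → ℝ) →ₗ[ℝ] (Fin d → ℝ)) ≠ 0 :=
    (LinearEquiv.isUnit_det' B).ne_zero
  have hq1 := MeasureTheory.Measure.LinearMap.quasiMeasurePreserving (volume : Measure (Fin d → ℝ))
    (B : (Fin d → ℝ) →ₗ[ℝ] (Fin d → ℝ)) hdetB
  have hq2 := (measurePreserving_add_left (volume : Measure (Fin d → ℝ)) aσ).quasiMeasurePreserving
  have hq := hq2.comp hq1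
  have ht := hq.ae hx
  filter_upwards [ht] with t htt
  refine htt.mono ?_
  intro q hqt i
  by_cases hi : i ∈ Set.range σ
  · obtain ⟨j, rfl⟩ := hi
    have := hqt.1 j
    simp only [Function.comp_apply, Pi.add_apply, LinearEquiv.coe_coe, hB] at this
    exact this
  · have := hqt.2 ⟨i, hi⟩
    have hval : M (((fun x => aσ + x) ∘ ⇑(B : (Fin d → ℝ) →ₗ[ℝ] (Fin d → ℝ))) t) ⟨i, hi⟩ + c ⟨i, hi⟩
        = a i + A t i := by
      simp only [Function.comp_apply, c, LinearEquiv.coe_coe]
      rw [map_add, Pi.add_apply, hM (B t), LinearEquiv.symm_apply_apply]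
      ring
    rw [hval] at this
    exact this

end Pool.Agent.Helper6.KG
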