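import Mathlib

/-!
# Generalised absolute values (arch and non-arch treated together)
-/

namespace Pool.Agent.Helper6

open Polynomial

/-- A generalised absolute value on a field `F` with values in a linearly ordered commutative group
with zero: multiplicative, and satisfying `v (x + y) ≤ c * max (v x) (v y)` for some constant `c`. -/
structure QVal (F Γ : Type*) [Field F] [LinearOrderedCommGroupWithZero Γ] where
  v : F →*₀ Γ
  c : Γ
  one_le_c : 1 ≤ c
  add_le : ∀ x y, v (x + y) ≤ c * max (v x) (v y)

namespace QVal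

variable {F Γ : Type*} [Field F] [LinearOrderedCommGroupWithZero Γ] (w : QVal F Γ)

lemma v_neg_one : w.v (-1) = 1 := by
  have h : w.v (-1) ^ 2 = 1 := by
    rw [← map_pow]; simp
  exact (pow_eq_one_iff_left (by norm_num : (2 : ℕ) ≠ 0)).1 h

lemma v_neg (x : F) : w.v (-x) = w.v x := by
  rw [← neg_one_mul, map_mul, v_neg_one, one_mul]

lemma v_sub_le (x y : F) : w.v (x - y) ≤ w.c * max (w.v x) (w.v y) := by
  rw [sub_eq_add_neg]
  simpa [v_neg] using w.add_le x (-y)

lemma exists_bound_mv {K σ : Type*} [Field K] (ι : K →+* F) (P : MvPolynomial σ K) :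
    ∃ B : Γ, ∀ y : σ → F, (∀ i, w.v (y i) ≤ 1) → w.v (MvPolynomial.eval₂ ι y P) ≤ B := by
  induction P using MvPolynomial.induction_on with
  | C a => exact ⟨w.v (ι a), fun y _ => by simp⟩
  | add p q hp hq =>
    obtain ⟨B, hB⟩ := hp
    obtain ⟨B', hB'⟩ := hq
    refine ⟨w.c * max B B', fun y hy => ?_⟩
    rw [MvPolynomial.eval₂_add]
    refine (w.add_le _ _).trans ?_
    exact mul_le_mul_right (max_le_max (hB y hy) (hB' y hy)) _
  | mul_X p i hp =>
    obtain ⟨B, hB⟩ := hp
    refine ⟨B, fun y hy => ?_⟩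
    rw [MvPolynomial.eval₂_mul, MvPolynomial.eval₂_X, map_mul]
    calc w.v (MvPolynomial.eval₂ ι y p) * w.v (y i) ≤ B * 1 :=
          mul_le_mul' (hB y hy) (hy i)
      _ = B := mul_one B

lemma sum_le {ι : Type*} (s : Finset ι) (f : ι → F) {B : Γ} (h : ∀ i ∈ s, w.v (f i) ≤ B) :
    w.v (∑ i ∈ s, f i) ≤ w.c ^ s.card * B := by
  classical
  induction s using Finset.induction_on with
  | empty => simp
  | insert a s ha ih =>
    rw [Finset.sum_insert ha, Finset.card_insert_of_notMem ha]
    refine (w.add_le _ _).trans ?_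
    have h1 : w.v (f a) ≤ w.c ^ s.card * B := by
      refine (h a (Finset.mem_insert_self _ _)).trans ?_
      calc B = 1 * B := (one_mul B).symm
        _ ≤ w.c ^ s.card * B := mul_le_mul' (one_le_pow_of_one_le' w.one_le_c _) le_rfl
    have h2 := ih (fun i hi => h i (Finset.mem_insert_of_mem hi))
    calc w.c * max (w.v (f a)) (w.v (∑ i ∈ s, f i)) ≤ w.c * (w.c ^ s.card * B) :=
          mul_le_mul' le_rfl (max_le h1 h2)
      _ = w.c ^ (s.card + 1) * B := by rw [pow_succ, ← mul_assoc, mul_comm w.c]

/-- Coefficients of a product of linear factors with bounded roots are bounded. -/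
lemma coeff_prod_le (s : Multiset F) {B : Γ} (hB : 1 ≤ B) (h : ∀ r ∈ s, w.v r ≤ B) (k : ℕ) :
    w.v (((s.map (fun r => X - C r)).prod).coeff k) ≤ (w.c * B) ^ (Multiset.card s) := by
  induction s using Multiset.induction_on generalizing k with
  | empty =>
    simp only [Multiset.map_zero, Multiset.prod_zero, Multiset.card_zero, pow_zero]
    rw [Polynomial.coeff_one]
    split_ifs <;> simp
  | cons a s ih =>
    have hs : ∀ r ∈ s, w.v r ≤ B := fun r hr => h r (Multiset.mem_cons_of_mem hr)
    have ha : w.v a ≤ B := h a (Multiset.mem_cons_self _ _)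
    simp only [Multiset.map_cons, Multiset.prod_cons, Multiset.card_cons]
    set q := (s.map (fun r => X - C r)).prod with hq
    rw [sub_mul, Polynomial.coeff_sub, Polynomial.coeff_C_mul]
    refine (w.v_sub_le _ _).trans ?_
    have hx : w.v ((X * q).coeff k) ≤ B * (w.c * B) ^ (Multiset.card s) := by
      cases k with
      | zero => simp
      | succ k =>
        rw [Polynomial.coeff_X_mul]
        calc w.v (q.coeff k) ≤ (w.c * B) ^ (Multiset.card s) := ih hs k
          _ = 1 * (w.c * B) ^ (Multiset.card s) := (one_mul _).symm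
          _ ≤ B * (w.c * B) ^ (Multiset.card s) := mul_le_mul' hB le_rfl
    have hy : w.v (a * q.coeff k) ≤ B * (w.c * B) ^ (Multiset.card s) := by
      rw [map_mul]
      exact mul_le_mul' ha (ih hs k)
    calc w.c * max (w.v ((X * q).coeff k)) (w.v (a * q.coeff k))
        ≤ w.c * (B * (w.c * B) ^ (Multiset.card s)) := mul_le_mul' le_rfl (max_le hx hy)
      _ = (w.c * B) ^ (Multiset.card s + 1) := by rw [pow_succ, ← mul_assoc, mul_comm]

end QVal

end Pool.Agent.Helper6
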