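import Mathlib
import Pool.Agent.Helper6.QVal

/-!
# Runge's method over finitely generated rings: the valuation-theoretic core
-/

namespace Pool.Agent.Helper6

open Polynomial

/-- The tuple of all ratios attached to a family of tuples with chosen denominators. -/
noncomputable def ratios {J L : Type*} [Field L] {n : J → ℕ} (x : J → L)
    (y : ∀ i, Fin (n i) → L) : (Σ i : J, Option (Fin (n i))) → L
  | ⟨i, none⟩ => (x i)⁻¹
  | ⟨i, some l⟩ => y i l / x i

/-- Extraction of an algebraic relation from a condition on valuation rings. -/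
lemma exists_relation {K L J : Type*} [Field K] [Field L] [Fintype J] (κ : K →+* L)
    {n : J → ℕ} (x : J → L) (y : ∀ i, Fin (n i) → L) (hx : ∀ i, x i ≠ 0)
    (hO : ∀ O : ValuationSubring L, (∀ a, κ a ∈ O) → ∃ i, x i ∈ O) :
    ∃ P : J → MvPolynomial (Σ i : J, Option (Fin (n i))) K,
      (1 : L) = ∑ i, (x i)⁻¹ * MvPolynomial.eval₂ κ (ratios x y) (P i) := by
  classical
  let _ : Algebra K L := κ.toAlgebra
  set Y : (Σ i : J, Option (Fin (n i))) → L := ratios x y with hY
  set C : Subalgebra K L := Algebra.adjoin K (Set.range Y) with hC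
  have hYC : ∀ t, Y t ∈ C := fun t => Algebra.subset_adjoin ⟨t, rfl⟩
  set a : J → C := fun i => ⟨(x i)⁻¹, hYC ⟨i, none⟩⟩ with ha
  by_cases htop : Ideal.span (Set.range a) = ⊤
  · have h1 : (1 : C) ∈ Ideal.span (Set.range a) := by rw [htop]; trivial
    rw [Ideal.mem_span_range_iff_exists_fun] at h1
    obtain ⟨c, hc⟩ := h1
    have h2 : ∀ i, ∃ P : MvPolynomial (Σ i : J, Option (Fin (n i))) K,
        MvPolynomial.aeval Y P = (c i : L) := by
      intro i
      have h3 : (c i : L) ∈ Algebra.adjoin K (Set.range Y) := (c i).2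
      rw [Algebra.adjoin_range_eq_range_aeval] at h3
      obtain ⟨P, hP⟩ := h3
      exact ⟨P, hP⟩
    choose P hP using h2
    refine ⟨P, ?_⟩
    have h4 := congrArg (fun z : C => (z : L)) hc
    simp only [AddSubmonoidClass.coe_finsetSum, MulMemClass.coe_mul, OneMemClass.coe_one] at h4
    rw [← h4]
    refine Finset.sum_congr rfl fun i _ => ?_
    rw [← hP i, mul_comm]
    rfl
  · exfalso
    obtain ⟨M, hM, hle⟩ := Ideal.exists_le_maximal _ htop
    let M' : Ideal C.toSubring := M
    have hM' : M'.IsPrime := hM.isPrime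
    obtain ⟨O, hO'⟩ := (LocalSubring.ofPrime C.toSubring M').exists_le_valuationSubring
    have hCO : C.toSubring ≤ O.toSubring := (LocalSubring.le_ofPrime C.toSubring M').trans hO'.1
    obtain ⟨i, hi⟩ := hO O (fun b => hCO (C.algebraMap_mem b))
    have haM : a i ∈ M' := hle (Ideal.subset_span ⟨i, rfl⟩)
    obtain ⟨hsub, hloc⟩ := hO'
    -- the image of `a i` in the local ring
    have hnu : ¬ IsUnit (algebraMap C.toSubring (LocalSubring.ofPrime C.toSubring M').toSubring (a i)) := by
      rw [IsLocalization.AtPrime.isUnit_to_map_iff (LocalSubring.ofPrime C.toSubring M').toSubring M' (a i)]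
      exact fun h => h haM
    apply hnu
    have hu : IsUnit (Subring.inclusion hsub
        (algebraMap C.toSubring (LocalSubring.ofPrime C.toSubring M').toSubring (a i))) := by
      refine isUnit_iff_exists_inv.2 ⟨⟨x i, hi⟩, ?_⟩
      ext
      exact inv_mul_cancel₀ (hx i)
    exact hloc.map_nonunit _ hu

lemma map_mk'_eq_div {D T F : Type*} [CommRing D] [CommRing T] [Algebra D T] (M : Submonoid D)
    [IsLocalization M T] [Field F] (h : T →+* F) (a : D) (s : M)
    (hs : h (algebraMap D T s) ≠ 0) :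
    h (IsLocalization.mk' T a s) = h (algebraMap D T a) / h (algebraMap D T s) := by
  rw [eq_div_iff hs, ← map_mul, IsLocalization.mk'_spec]

/-- The canonical map from the fraction field of `R` to the fraction field of the domain `D`. -/
noncomputable def kappa (R K D : Type*) [CommRing R] [IsDomain R] [Field K] [Algebra R K]
    [IsFractionRing R K] [CommRing D] [IsDomain D] [Algebra R D]
    (hRD : Function.Injective (algebraMap R D)) : K →+* FractionRing D :=
  IsFractionRing.lift (A := R) (K := K) (g := (algebraMap D (FractionRing D)).comp (algebraMap R D))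
    ((IsFractionRing.injective D (FractionRing D)).comp hRD)

lemma kappa_algebraMap {R K D : Type*} [CommRing R] [IsDomain R] [Field K] [Algebra R K]
    [IsFractionRing R K] [CommRing D] [IsDomain D] [Algebra R D]
    (hRD : Function.Injective (algebraMap R D)) (c : R) :
    kappa R K D hRD (algebraMap R K c) = algebraMap D (FractionRing D) (algebraMap R D c) := by
  simp [kappa, IsFractionRing.lift_algebraMap]

/-- Relations in the function field hold at points where the denominators do not vanish. -/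
lemma transfer {R K D L F J : Type*} [CommRing R] [IsDomain R] [Field K] [Algebra R K]
    [IsFractionRing R K] [CommRing D] [IsDomain D] [Algebra R D] [Fintype J]
    [Field L] [Algebra D L] [IsFractionRing D L] (κ : K →+* L)
    (hκ : ∀ c : R, κ (algebraMap R K c) = algebraMap D L (algebraMap R D c))
    [Field F] (ι : K →+* F) (ψ : D →+* F)
    (hψ : ∀ c : R, ψ (algebraMap R D c) = ι (algebraMap R K c))
    {n : J → ℕ} (x : J → D) (y : ∀ i, Fin (n i) → D) (hx : ∀ i, ψ (x i) ≠ 0)
    (P : J → MvPolynomial (Σ i : J, Option (Fin (n i))) K)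
    (hP : (1 : L) = ∑ i, (algebraMap D L (x i))⁻¹ *
      MvPolynomial.eval₂ κ
        (ratios (fun i => algebraMap D L (x i)) (fun i l => algebraMap D L (y i l))) (P i)) :
    (1 : F) = ∑ i, (ψ (x i))⁻¹ * MvPolynomial.eval₂ ι
        (ratios (fun i => ψ (x i)) (fun i l => ψ (y i l))) (P i) := by
  have hprime : (RingHom.ker ψ).IsPrime := RingHom.ker_isPrime ψ
  obtain ⟨T, hT1, hT2, hT3⟩ : ∃ (T : Type _) (_ : CommRing T) (_ : Algebra D T),
      IsLocalization (RingHom.ker ψ).primeCompl T :=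
    ⟨Localization.AtPrime (RingHom.ker ψ), inferInstance, inferInstance, inferInstance⟩
  have hMne : ∀ s : (RingHom.ker ψ).primeCompl, (s : D) ≠ 0 := by
    rintro ⟨s, hs⟩ rfl
    exact hs (Ideal.zero_mem _)
  have hMmem : ∀ s : D, s ∈ (RingHom.ker ψ).primeCompl ↔ ψ s ≠ 0 := fun s => by
    rw [Ideal.mem_primeCompl_iff, RingHom.mem_ker]
  generalize (RingHom.ker ψ).primeCompl = M at *
  have hDL : ∀ s : D, s ≠ 0 → algebraMap D L s ≠ 0 := fun s hs h =>
    hs ((IsFractionRing.injective D L) (by rw [h, map_zero]))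
  have hgu : ∀ s : M, IsUnit (ψ s) := fun s => ((hMmem s).1 s.2).isUnit
  have hju : ∀ s : M, IsUnit (algebraMap D L s) := fun s => (hDL _ (hMne s)).isUnit
  have hcu : ∀ c : nonZeroDivisors R, IsUnit (((algebraMap D T).comp (algebraMap R D)) c) := by
    intro c
    have hc : (algebraMap R D c : D) ∈ M := by
      rw [hMmem, hψ]
      intro h
      rw [map_eq_zero_iff _ ι.injective] at h
      have : (c : R) = 0 := (IsFractionRing.injective R K) (by rw [h, map_zero])
      exact nonZeroDivisors.coe_ne_zero c this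
    exact IsLocalization.map_units T (⟨_, hc⟩ : M)
  obtain ⟨g, hg⟩ : ∃ g : T →+* F, ∀ a, g (algebraMap D T a) = ψ a :=
    ⟨IsLocalization.lift (M := M) (S := T) (g := ψ) hgu, fun a => IsLocalization.lift_eq _ a⟩
  obtain ⟨jj, hj⟩ : ∃ g : T →+* L, ∀ a, g (algebraMap D T a) = algebraMap D L a :=
    ⟨IsLocalization.lift (M := M) (S := T) (g := algebraMap D L) hju,
      fun a => IsLocalization.lift_eq _ a⟩
  obtain ⟨kT, hk⟩ : ∃ g : K →+* T, ∀ a, g (algebraMap R K a) = algebraMap D T (algebraMap R D a) :=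
    ⟨IsLocalization.lift (M := nonZeroDivisors R) (S := K)
      (g := (algebraMap D T).comp (algebraMap R D)) hcu, fun a => IsLocalization.lift_eq _ a⟩
  have hjinj : Function.Injective jj := by
    rw [injective_iff_map_eq_zero]
    intro z hz
    obtain ⟨a, s, rfl⟩ := IsLocalization.exists_mk'_eq M z
    have h1 : jj (algebraMap D T s) ≠ 0 := by
      rw [hj]; exact hDL _ (hMne s)
    rw [map_mk'_eq_div M jj a s h1, div_eq_zero_iff, or_iff_left h1, hj] at hz
    have : a = 0 := by
      by_contra h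
      exact hDL a h hz
    rw [this, IsLocalization.mk'_zero]
  have hgk : g.comp kT = ι := by
    apply IsLocalization.ringHom_ext (nonZeroDivisors R)
    ext c
    simp [hk, hg, hψ]
  have hjk : jj.comp kT = κ := by
    apply IsLocalization.ringHom_ext (nonZeroDivisors R)
    ext c
    simp [hk, hj, hκ]
  have hxM : ∀ i, x i ∈ M := fun i => (hMmem _).2 (hx i)
  obtain ⟨YT, hYT⟩ : ∃ YT : (Σ i : J, Option (Fin (n i))) → T,
      (∀ i, YT ⟨i, none⟩ = IsLocalization.mk' T (1 : D) (⟨x i, hxM i⟩ : M)) ∧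
      (∀ i l, YT ⟨i, some l⟩ = IsLocalization.mk' T (y i l) (⟨x i, hxM i⟩ : M)) :=
    ⟨fun t => match t with
          | ⟨i, none⟩ => IsLocalization.mk' T (1 : D) (⟨x i, hxM i⟩ : M)
          | ⟨i, some l⟩ => IsLocalization.mk' T (y i l) (⟨x i, hxM i⟩ : M),
      fun _ => rfl, fun _ _ => rfl⟩
  have hgx : ∀ i, g (algebraMap D T ((⟨x i, hxM i⟩ : M) : D)) ≠ 0 := fun i => by
    rw [hg]; exact hx i
  have hjx : ∀ i, jj (algebraMap D T ((⟨x i, hxM i⟩ : M) : D)) ≠ 0 := fun i => by
    rw [hj]; exact hDL _ (hMne ⟨x i, hxM i⟩)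
  have hgY : ∀ t, g (YT t) = ratios (fun i => ψ (x i)) (fun i l => ψ (y i l)) t := by
    rintro ⟨i, _ | l⟩
    · rw [hYT.1, map_mk'_eq_div M g _ _ (hgx i), hg, hg, map_one, one_div]
      rfl
    · rw [hYT.2, map_mk'_eq_div M g _ _ (hgx i), hg, hg]
      rfl
  have hjY : ∀ t, jj (YT t) =
      ratios (fun i => algebraMap D L (x i)) (fun i l => algebraMap D L (y i l)) t := by
    rintro ⟨i, _ | l⟩
    · rw [hYT.1, map_mk'_eq_div M jj _ _ (hjx i), hj, hj, map_one, one_div]
      rfl
    · rw [hYT.2, map_mk'_eq_div M jj _ _ (hjx i), hj, hj]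
      rfl
  -- relation in T
  have hT : (1 : T) = ∑ i, YT ⟨i, none⟩ * MvPolynomial.eval₂ kT YT (P i) := by
    apply hjinj
    rw [map_one, map_sum, hP]
    refine Finset.sum_congr rfl fun i _ => ?_
    rw [map_mul, hjY ⟨i, none⟩, MvPolynomial.hom_eval₂, hjk, funext hjY]
    rfl
  have h2 := congrArg g hT
  rw [map_one, map_sum] at h2
  rw [h2]
  refine Finset.sum_congr rfl fun i _ => ?_
  rw [map_mul, hgY ⟨i, none⟩, MvPolynomial.hom_eval₂, hgk, funext hgY]
  rfl

/-- One choice of indices: a relation forces one of the chosen functions to be bounded. -/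
lemma star_aux {R K D F Γ J : Type*} [CommRing R] [IsDomain R] [Field K] [Algebra R K]
    [IsFractionRing R K] [CommRing D] [IsDomain D] [Algebra R D] [Fintype J] [Nonempty J]
    (hRD : Function.Injective (algebraMap R D))
    [Field F] [LinearOrderedCommGroupWithZero Γ] (w : QVal F Γ) (ι : K →+* F)
    {n : J → ℕ} (x : J → D) (y : ∀ i, Fin (n i) → D) (hx0 : ∀ i, x i ≠ 0)
    (hO : ∀ O : ValuationSubring (FractionRing D),
      (∀ a : R, a ≠ 0 → algebraMap R (FractionRing D) a ∈ O ∧
        (algebraMap R (FractionRing D) a)⁻¹ ∈ O) →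
      ∃ i, algebraMap D (FractionRing D) (x i) ∈ O) :
    ∃ B : Γ, ∀ ψ : D →+* F, (∀ c : R, ψ (algebraMap R D c) = ι (algebraMap R K c)) →
      (∀ i, 1 ≤ w.v (ψ (x i))) → (∀ i l, w.v (ψ (y i l)) ≤ w.v (ψ (x i))) →
      ∃ i, w.v (ψ (x i)) ≤ B := by
  classical
  set L := FractionRing D with hL
  have hDL : ∀ s : D, s ≠ 0 → algebraMap D L s ≠ 0 := fun s hs h =>
    hs ((IsFractionRing.injective D L) (by rw [h, map_zero]))
  have hκ := kappa_algebraMap (R := R) (K := K) (D := D) hRD
  obtain ⟨P, hP⟩ := exists_relation (kappa R K D hRD) (fun i => algebraMap D L (x i))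
    (fun i l => algebraMap D L (y i l)) (fun i => hDL _ (hx0 i)) (by
      intro O hO'
      apply hO O
      intro a ha
      have h1 : algebraMap R L a = kappa R K D hRD (algebraMap R K a) := by
        rw [hκ]; exact IsScalarTower.algebraMap_apply R D L a
      rw [h1, ← map_inv₀]
      exact ⟨hO' _, hO' _⟩)
  -- bounds
  choose Bi hBi using fun i => w.exists_bound_mv ι (P i)
  obtain ⟨B', hB'⟩ : ∃ B' : Γ, ∀ i, Bi i ≤ B' :=
    ⟨Finset.univ.sup' Finset.univ_nonempty Bi, fun i => Finset.le_sup' Bi (Finset.mem_univ i)⟩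
  refine ⟨w.c ^ (Fintype.card J) * B', fun ψ hψ h1 hle => ?_⟩
  have hpos : ∀ i, 0 < w.v (ψ (x i)) := fun i => lt_of_lt_of_le zero_lt_one (h1 i)
  have hne : ∀ i, ψ (x i) ≠ 0 := fun i h => by
    have := hpos i
    rw [h, map_zero] at this
    exact lt_irrefl _ this
  have hrel := transfer (R := R) (K := K) (kappa R K D hRD) hκ ι ψ hψ x y hne P hP
  obtain ⟨i₀, hi₀⟩ := Finite.exists_min (fun i => w.v (ψ (x i)))
  refine ⟨i₀, ?_⟩
  have hY : ∀ t, w.v (ratios (fun i => ψ (x i)) (fun i l => ψ (y i l)) t) ≤ 1 := by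
    rintro ⟨i, _ | l⟩
    · show w.v ((ψ (x i))⁻¹) ≤ 1
      rw [map_inv₀]
      exact inv_le_one_of_one_le₀ (h1 i)
    · show w.v (ψ (y i l) / ψ (x i)) ≤ 1
      rw [map_div₀]
      exact div_le_one_of_le₀ (hle i l) zero_le
  have hterm : ∀ i ∈ (Finset.univ : Finset J), w.v ((ψ (x i))⁻¹ * MvPolynomial.eval₂ ι
        (ratios (fun i => ψ (x i)) (fun i l => ψ (y i l))) (P i)) ≤
        (w.v (ψ (x i₀)))⁻¹ * B' := by
    intro i _
    rw [map_mul, map_inv₀]
    refine mul_le_mul' ?_ ((hBi i _ hY).trans (hB' i))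
    exact inv_anti₀ (hpos i₀) (hi₀ i)
  have hsum := w.sum_le Finset.univ _ hterm
  rw [← hrel, map_one, Finset.card_univ] at hsum
  have := mul_le_mul' (le_refl (w.v (ψ (x i₀)))) hsum
  rw [mul_one] at this
  refine this.trans (le_of_eq ?_)
  rw [mul_comm (w.v (ψ (x i₀))), mul_assoc, mul_comm ((w.v (ψ (x i₀)))⁻¹), mul_assoc,
    inv_mul_cancel₀ (hpos i₀).ne', mul_one]

/-- At every place, at most `m` of the tuples are unbounded. -/
lemma star {R K D F Γ : Type*} [CommRing R] [IsDomain R] [Field K] [Algebra R K]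
    [IsFractionRing R K] [CommRing D] [IsDomain D] [Algebra R D]
    (hRD : Function.Injective (algebraMap R D))
    [Field F] [LinearOrderedCommGroupWithZero Γ] (w : QVal F Γ) (ι : K →+* F)
    {m r : ℕ} {n : Fin r → ℕ} (f : ∀ i, Fin (n i) → D)
    (hO : ∀ O : ValuationSubring (FractionRing D),
      (∀ a : R, a ≠ 0 → algebraMap R (FractionRing D) a ∈ O ∧
        (algebraMap R (FractionRing D) a)⁻¹ ∈ O) →
      {i | ∃ j, algebraMap D (FractionRing D) (f i j) ∉ O}.ncard ≤ m) :
    ∃ B : Γ, 1 ≤ B ∧ ∀ ψ : D →+* F, (∀ c : R, ψ (algebraMap R D c) = ι (algebraMap R K c)) →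
      {i | ∃ j, B < w.v (ψ (f i j))}.ncard ≤ m := by
  classical
  -- for each finset of m+1 indices and each choice, a bound
  have key : ∀ (I : {I : Finset (Fin r) // I.card = m + 1}) (jj : ∀ i : I.1, Fin (n i.1)),
      ∃ B : Γ, ∀ ψ : D →+* F, (∀ c : R, ψ (algebraMap R D c) = ι (algebraMap R K c)) →
        (∀ i : I.1, 1 ≤ w.v (ψ (f i.1 (jj i)))) →
        (∀ (i : I.1) l, w.v (ψ (f i.1 l)) ≤ w.v (ψ (f i.1 (jj i)))) →
        ∃ i : I.1, w.v (ψ (f i.1 (jj i))) ≤ B := by
    intro I jj
    have hne : Nonempty I.1 := by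
      have : I.1.Nonempty := by
        rw [← Finset.card_pos, I.2]; omega
      exact this.to_subtype
    by_cases h0 : ∀ i : I.1, f i.1 (jj i) ≠ 0
    · refine star_aux (J := I.1) (n := fun i => n i.1) hRD w ι (fun i => f i.1 (jj i))
        (fun i l => f i.1 l) h0 ?_
      intro O hO'
      by_contra hcon
      push Not at hcon
      have h1 := hO O hO'
      have h2 : (I.1 : Set (Fin r)) ⊆ {i | ∃ j, algebraMap D (FractionRing D) (f i j) ∉ O} := by
        intro i hi
        exact ⟨jj ⟨i, hi⟩, hcon ⟨i, hi⟩⟩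
      have h3 := Set.ncard_le_ncard h2 (Set.toFinite _)
      rw [Set.ncard_coe_finset, I.2] at h3
      omega
    · push Not at h0
      obtain ⟨i, hi⟩ := h0
      refine ⟨1, fun ψ _ h1 _ => ?_⟩
      exfalso
      have := h1 i
      rw [hi, map_zero, map_zero] at this
      exact absurd this (not_le.2 zero_lt_one)
  choose Bf hBf using key
  obtain ⟨B, hB1, hB⟩ : ∃ B : Γ, 1 ≤ B ∧ ∀ I jj, Bf I jj ≤ B := by
    have hfin : (Set.range (fun z : (Σ I : {I : Finset (Fin r) // I.card = m + 1},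
        ∀ i : I.1, Fin (n i.1)) => Bf z.1 z.2)).Finite := Set.finite_range _
    obtain ⟨B, hB⟩ := hfin.bddAbove
    exact ⟨max 1 B, le_max_left _ _, fun I jj =>
      (hB ⟨⟨I, jj⟩, rfl⟩).trans (le_max_right _ _)⟩
  refine ⟨B, hB1, fun ψ hψ => ?_⟩
  by_contra hcon
  push Not at hcon
  obtain ⟨I, hI1, hI2⟩ := Set.exists_subset_card_eq (s := {i | ∃ j, B < w.v (ψ (f i j))})
    (Nat.succ_le_of_lt hcon)
  have hIfin : I.Finite := Set.toFinite _
  set I' : Finset (Fin r) := hIfin.toFinset with hI'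
  have hI'card : I'.card = m + 1 := by
    rw [hI', ← Set.ncard_eq_toFinset_card I hIfin, hI2]
  have hmem : ∀ i : I', ∃ j, B < w.v (ψ (f i.1 j)) := fun i => by
    have : i.1 ∈ I := hIfin.mem_toFinset.1 i.2
    exact hI1 this
  -- choose the maximising index
  have hmax : ∀ i : I', ∃ j, ∀ l, w.v (ψ (f i.1 l)) ≤ w.v (ψ (f i.1 j)) := fun i => by
    obtain ⟨j, -⟩ := hmem i
    have : Nonempty (Fin (n i.1)) := ⟨j⟩
    exact Finite.exists_max (fun l => w.v (ψ (f i.1 l)))
  choose jj hjj using hmax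
  have hgt : ∀ i : I', B < w.v (ψ (f i.1 (jj i))) := fun i => by
    obtain ⟨j, hj⟩ := hmem i
    exact hj.trans_le (hjj i j)
  obtain ⟨i, hi⟩ := hBf ⟨I', hI'card⟩ jj ψ hψ (fun i => hB1.trans (hgt i).le) hjj
  exact absurd (hgt i) (not_lt.2 (hi.trans (hB _ _)))

end Pool.Agent.Helper6
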