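import Mathlib
import Pool.Agent.Helper6.RungeCore

/-!
# Runge's method over finitely generated rings: conjugates and counting
-/

namespace Pool.Agent.Helper6

open Polynomial

/-- Integral points of degree at most `δ` with values in `Ω`. -/
def IsPt {R D Ω : Type*} (K : Type*) [CommRing R] [Field K] [CommRing D] [Algebra R D]
    [Field Ω] [Algebra R Ω] [Algebra K Ω] (δ : ℕ) (φ : D →ₐ[R] Ω) : Prop :=
  (∀ a, IsIntegral R (φ a)) ∧
    Module.finrank K (IntermediateField.adjoin K (Set.range φ)) ≤ δ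

section

variable {R K D Ω : Type*} [CommRing R] [IsDomain R] [Field K] [Algebra R K]
    [IsFractionRing R K] [CommRing D] [Algebra R D] [Algebra.FiniteType R D]
    [Field Ω] [Algebra R Ω] [Algebra K Ω] [IsScalarTower R K Ω] [Algebra.IsAlgebraic K Ω]

lemma finiteDimensional_adjoin_range (φ : D →ₐ[R] Ω) :
    FiniteDimensional K (IntermediateField.adjoin K (Set.range φ)) := by
  obtain ⟨s, hs⟩ := (inferInstance : Algebra.FiniteType R D).out
  have h1 : IntermediateField.adjoin K (Set.range φ) =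
      IntermediateField.adjoin K (φ '' (s : Set D)) := by
    apply le_antisymm
    · rw [IntermediateField.adjoin_le_iff]
      rintro _ ⟨a, rfl⟩
      have ha : a ∈ Algebra.adjoin R (s : Set D) := by rw [hs]; trivial
      induction ha using Algebra.adjoin_induction with
      | mem x hx => exact IntermediateField.subset_adjoin _ _ ⟨x, hx, rfl⟩
      | algebraMap c =>
        rw [AlgHom.commutes, IsScalarTower.algebraMap_apply R K Ω]
        exact (IntermediateField.adjoin K (φ '' (s : Set D))).algebraMap_mem _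
      | add x y _ _ hx hy => rw [map_add]; exact add_mem hx hy
      | mul x y _ _ hx hy => rw [map_mul]; exact mul_mem hx hy
    · apply IntermediateField.adjoin.mono
      rintro _ ⟨x, _, rfl⟩
      exact ⟨x, rfl⟩
  rw [h1]
  have : Finite (φ '' (s : Set D)) := (s.finite_toSet.image φ).to_subtype
  exact IntermediateField.finiteDimensional_adjoin
    (fun x _ => (Algebra.IsAlgebraic.isAlgebraic x).isIntegral)

/-- Every root of a conjugate polynomial comes from an embedding. -/
lemma exists_embedding {F : Type*} [Field F] [IsAlgClosed F] (ι : K →+* F)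
    (E : IntermediateField K Ω) (x : E) (y : F)
    (hy : ((minpoly K (x : Ω)).map ι).IsRoot y) :
    ∃ τ : E →+* F, (∀ c : K, τ (algebraMap K E c) = ι c) ∧ τ x = y := by
  let _ : Algebra K F := ι.toAlgebra
  have hne : minpoly K (x : Ω) ≠ 0 :=
    minpoly.ne_zero (Algebra.IsAlgebraic.isAlgebraic (x : Ω)).isIntegral
  have halg : Algebra.IsAlgebraic K E := inferInstance
  have h1 : y ∈ (minpoly K x).rootSet F := by
    rw [← IntermediateField.minpoly_eq x] at hy hne
    rw [mem_rootSet']
    refine ⟨(Polynomial.map_ne_zero hne), ?_⟩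
    rw [aeval_def, ← eval_map]
    exact hy
  rw [← Algebra.IsAlgebraic.range_eval_eq_rootSet_minpoly F x] at h1
  obtain ⟨τ, hτ⟩ := h1
  exact ⟨τ.toRingHom, fun c => τ.commutes c, hτ⟩

/-- The points obtained from `φ` by applying embeddings. -/
lemma finite_embeddings {F : Type*} [Field F] (ι : K →+* F)
    (E : IntermediateField K Ω) [FiniteDimensional K E] :
    {τ : E →+* F | ∀ c : K, τ (algebraMap K E c) = ι c}.Finite ∧
    {τ : E →+* F | ∀ c : K, τ (algebraMap K E c) = ι c}.ncard ≤ Module.finrank K E := by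
  let _ : Algebra K F := ι.toAlgebra
  let e : (E →ₐ[K] F) ≃ {τ : E →+* F | ∀ c : K, τ (algebraMap K E c) = ι c} :=
    { toFun := fun τ => ⟨τ.toRingHom, fun c => τ.commutes c⟩
      invFun := fun τ => { τ.1 with commutes' := τ.2 }
      left_inv := fun τ => rfl
      right_inv := fun τ => rfl }
  have hfin : Finite (E →ₐ[K] F) := inferInstance
  have hfin' : Finite {τ : E →+* F | ∀ c : K, τ (algebraMap K E c) = ι c} := Finite.of_equiv _ e
  refine ⟨Set.toFinite _, ?_⟩
  rw [← Nat.card_coe_set_eq, ← Nat.card_congr e]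
  exact card_algHom_le_finrank K E F

/-- At every place at most `m * δ` tuples have an unbounded conjugate. -/
lemma count [IsDomain D] {F Γ : Type*} (hRD : Function.Injective (algebraMap R D))
    [Field F] [IsAlgClosed F] [LinearOrderedCommGroupWithZero Γ] (w : QVal F Γ) (ι : K →+* F)
    {m r : ℕ} {n : Fin r → ℕ} (f : ∀ i, Fin (n i) → D)
    (hO : ∀ O : ValuationSubring (FractionRing D),
      (∀ a : R, a ≠ 0 → algebraMap R (FractionRing D) a ∈ O ∧
        (algebraMap R (FractionRing D) a)⁻¹ ∈ O) →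
      {i | ∃ j, algebraMap D (FractionRing D) (f i j) ∉ O}.ncard ≤ m) (δ : ℕ) :
    ∃ B : Γ, 1 ≤ B ∧ ∀ φ : D →ₐ[R] Ω, IsPt K δ φ →
      {i | ∃ j, ∃ y, ((minpoly K (φ (f i j))).map ι).IsRoot y ∧ B < w.v y}.ncard ≤ m * δ := by
  obtain ⟨B, hB1, hB⟩ := star (R := R) (K := K) hRD w ι f hO
  refine ⟨B, hB1, fun φ hφ => ?_⟩
  set E := IntermediateField.adjoin K (Set.range φ) with hE
  have hfd : FiniteDimensional K E := finiteDimensional_adjoin_range φ
  have hmem : ∀ a, φ a ∈ E := fun a => IntermediateField.subset_adjoin _ _ ⟨a, rfl⟩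
  obtain ⟨hfin, hcard⟩ := finite_embeddings ι E
  set T := {τ : E →+* F | ∀ c : K, τ (algebraMap K E c) = ι c} with hT
  let φE : D →+* E := φ.toRingHom.codRestrict E.toSubring (fun a => hmem a)
  have hsub : {i | ∃ j, ∃ y, ((minpoly K (φ (f i j))).map ι).IsRoot y ∧ B < w.v y} ⊆
      ⋃ τ ∈ T, {i | ∃ j, B < w.v ((τ.comp φE) (f i j))} := by
    rintro i ⟨j, y, hy, hlt⟩
    obtain ⟨τ, hτ, hτy⟩ := exists_embedding ι E ⟨φ (f i j), hmem _⟩ y hy
    rw [Set.mem_iUnion₂]
    refine ⟨τ, hτ, j, ?_⟩
    have : (τ.comp φE) (f i j) = y := hτy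
    rw [this]
    exact hlt
  calc {i | ∃ j, ∃ y, ((minpoly K (φ (f i j))).map ι).IsRoot y ∧ B < w.v y}.ncard
      ≤ (⋃ τ ∈ T, {i | ∃ j, B < w.v ((τ.comp φE) (f i j))}).ncard :=
        Set.ncard_le_ncard hsub (Set.toFinite _)
    _ ≤ ∑ τ ∈ hfin.toFinset, {i | ∃ j, B < w.v ((τ.comp φE) (f i j))}.ncard := by
        have h1 : (⋃ τ ∈ T, {i | ∃ j, B < w.v ((τ.comp φE) (f i j))}) =
            (⋃ τ ∈ hfin.toFinset, {i | ∃ j, B < w.v ((τ.comp φE) (f i j))}) := by
          simp
        rw [h1]
        exact hfin.toFinset.set_ncard_biUnion_le _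
    _ ≤ ∑ τ ∈ hfin.toFinset, m := by
        refine Finset.sum_le_sum fun τ hτ => ?_
        apply hB
        intro c
        have h1 : φE (algebraMap R D c) = algebraMap K E (algebraMap R K c) := by
          ext
          show φ (algebraMap R D c) = algebraMap K Ω (algebraMap R K c)
          rw [AlgHom.commutes, IsScalarTower.algebraMap_apply R K Ω]
        rw [RingHom.comp_apply, h1]
        exact (hfin.mem_toFinset.1 hτ) _
    _ = T.ncard * m := by
        rw [Finset.sum_const, smul_eq_mul, Set.ncard_eq_toFinset_card T hfin]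
    _ ≤ m * δ := by
        rw [mul_comm]
        exact Nat.mul_le_mul_left _ (hcard.trans hφ.2)

end

end Pool.Agent.Helper6
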