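import Mathlib
import Pool.Agent.Helper6.QVal

/-!
# Root bounds and extension of valuation rings
-/

namespace Pool.Agent.Helper6

open Polynomial

namespace QVal

variable {F Γ : Type*} [Field F] [LinearOrderedCommGroupWithZero Γ] (w : QVal F Γ)

lemma root_bound (p : F[X]) (y : F) (hy : p.eval y = 0) {A η : Γ} (hη : 0 < η)
    (hlc : η ≤ w.v p.leadingCoeff) (hA : ∀ l < p.natDegree, w.v (p.coeff l) ≤ A) :
    w.v y ≤ max 1 (w.c ^ p.natDegree * A * η⁻¹) := by
  by_cases h1 : w.v y ≤ 1
  · exact h1.trans (le_max_left _ _)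
  rw [not_le] at h1
  refine le_max_of_le_right ?_
  have hpos : 0 < w.v y := zero_lt_one.trans h1
  have hlc0 : p.leadingCoeff ≠ 0 := by
    intro h
    rw [h, map_zero] at hlc
    exact absurd hlc (not_le.2 hη)
  obtain ⟨d, hd⟩ : ∃ d, p.natDegree = d + 1 := by
    rcases Nat.eq_zero_or_pos p.natDegree with h0 | h0
    · exfalso
      rw [eq_C_of_natDegree_eq_zero h0, eval_C] at hy
      rw [leadingCoeff, h0] at hlc0
      exact hlc0 hy
    · exact ⟨p.natDegree - 1, by omega⟩
  rw [eval_eq_sum_range, Finset.sum_range_succ] at hy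
  have h2 : p.coeff p.natDegree * y ^ p.natDegree =
      -∑ i ∈ Finset.range p.natDegree, p.coeff i * y ^ i := by
    rw [eq_neg_iff_add_eq_zero, add_comm]; exact hy
  have h3 : w.v (p.coeff p.natDegree * y ^ p.natDegree) ≤
      w.c ^ p.natDegree * (A * w.v y ^ d) := by
    rw [h2, v_neg]
    have := w.sum_le (Finset.range p.natDegree) (fun i => p.coeff i * y ^ i)
      (B := A * w.v y ^ d) (fun i hi => by
        rw [Finset.mem_range] at hi
        rw [map_mul, map_pow]
        exact mul_le_mul' (hA i hi) (pow_le_pow_right' h1.le (by omega)))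
    rwa [Finset.card_range] at this
  rw [map_mul, map_pow] at h3
  have h4 : η * w.v y ^ (d + 1) ≤ w.c ^ p.natDegree * (A * w.v y ^ d) := by
    rw [hd] at h3 ⊢
    rw [leadingCoeff, hd] at hlc
    exact (mul_le_mul' hlc le_rfl).trans h3
  have h5 : η * w.v y ≤ w.c ^ p.natDegree * A := by
    have h6 : 0 < w.v y ^ d := pow_pos hpos d
    rw [pow_succ, mul_comm (w.v y ^ d), ← mul_assoc, ← mul_assoc] at h4
    exact le_of_mul_le_mul_right h4 h6
  rw [← div_eq_mul_inv, le_div_iff₀ hη, mul_comm]
  exact h5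

/-- Coefficients of a monic polynomial with bounded roots are bounded. -/
lemma coeff_le_of_roots [IsAlgClosed F] (p : F[X]) (hp : p.Monic) {B : Γ} (hB : 1 ≤ B)
    (h : ∀ y, p.IsRoot y → w.v y ≤ B) (k : ℕ) :
    w.v (p.coeff k) ≤ (w.c * B) ^ p.natDegree := by
  have hs : p.Splits := IsAlgClosed.splits p
  have h1 : p = (p.roots.map (fun r => X - C r)).prod := by
    have := hs.eq_prod_roots
    rw [hp.leadingCoeff, map_one, one_mul] at this
    exact this
  have h2 := w.coeff_prod_le p.roots hB (fun r hr => h r (isRoot_of_mem_roots hr)) k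
  rw [← h1, ← hs.natDegree_eq_card_roots] at h2
  exact h2

/-- If all roots of a monic polynomial are at most `B` and the constant coefficient is at least
one, then every root is at least `B^(-deg)`. -/
lemma root_lower [IsAlgClosed F] (p : F[X]) (hp : p.Monic) {B : Γ} (hB : 1 ≤ B)
    (h : ∀ y, p.IsRoot y → w.v y ≤ B) (h0 : 1 ≤ w.v (p.coeff 0)) (y : F) (hy : p.IsRoot y) :
    1 ≤ w.v y * B ^ p.natDegree := by
  have hs : p.Splits := IsAlgClosed.splits p
  have hp0 : p ≠ 0 := hp.ne_zero
  have h1 : w.v (p.coeff 0) = (p.roots.map w.v).prod := by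
    rw [hs.coeff_zero_eq_leadingCoeff_mul_prod_roots, hp.leadingCoeff, mul_one, map_mul, map_pow,
      v_neg_one, one_pow, one_mul, map_multiset_prod]
  have hmem : y ∈ p.roots := (mem_roots hp0).2 hy
  obtain ⟨t, ht⟩ := Multiset.exists_cons_of_mem hmem
  rw [h1, ht, Multiset.map_cons, Multiset.prod_cons] at h0
  have h2 : (t.map w.v).prod ≤ B ^ (Multiset.card t) := by
    have h3 : ∀ x ∈ t.map w.v, x ≤ B := by
      intro x hx
      obtain ⟨z, hz, rfl⟩ := Multiset.mem_map.1 hx
      exact h z (isRoot_of_mem_roots (by rw [ht]; exact Multiset.mem_cons_of_mem hz))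
    have := Multiset.prod_le_pow_card (t.map w.v) B h3
    rwa [Multiset.card_map] at this
  have h4 : Multiset.card t ≤ p.natDegree := by
    rw [hs.natDegree_eq_card_roots, ht, Multiset.card_cons]; omega
  calc (1 : Γ) ≤ w.v y * (t.map w.v).prod := h0
    _ ≤ w.v y * B ^ p.natDegree := mul_le_mul' le_rfl (h2.trans (pow_le_pow_right' hB h4))

end QVal

/-- The generalised absolute value attached to a valuation subring. -/
noncomputable def qvalOf {F : Type*} [Field F] (O : ValuationSubring F) : QVal F O.ValueGroup where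
  v := O.valuation.toMonoidWithZeroHom
  c := 1
  one_le_c := le_rfl
  add_le := fun x y => by
    rw [one_mul]
    exact O.valuation.map_add x y

lemma qvalOf_v {F : Type*} [Field F] (O : ValuationSubring F) (x : F) :
    (qvalOf O).v x = O.valuation x := rfl

/-- Valuation subrings extend to every extension field. -/
lemma exists_extension {K Ω : Type*} [Field K] [Field Ω] [Algebra K Ω] (O : ValuationSubring K) :
    ∃ O' : ValuationSubring Ω, ∀ x : K, algebraMap K Ω x ∈ O' ↔ x ∈ O := by
  obtain ⟨O', hO'⟩ := (O.toLocalSubring.map (algebraMap K Ω)).exists_le_valuationSubring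
  obtain ⟨hsub, hloc⟩ := hO'
  have h1 : ∀ x ∈ O, algebraMap K Ω x ∈ O' := fun x hx => hsub ⟨x, hx, rfl⟩
  refine ⟨O', fun x => ⟨fun hx => ?_, h1 x⟩⟩
  by_contra hxO
  have hx0 : x ≠ 0 := by
    rintro rfl
    exact hxO O.zero_mem
  have hinv : x⁻¹ ∈ O := (O.mem_or_inv_mem x).resolve_left hxO
  -- x⁻¹ is a unit in O'
  let z : (O.toLocalSubring.map (algebraMap K Ω)).toSubring := ⟨algebraMap K Ω x⁻¹, ⟨x⁻¹, hinv, rfl⟩⟩
  have hu : IsUnit (Subring.inclusion hsub z) := by
    refine isUnit_iff_exists_inv.2 ⟨⟨algebraMap K Ω x, hx⟩, ?_⟩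
    ext
    show algebraMap K Ω x⁻¹ * algebraMap K Ω x = 1
    rw [← map_mul, inv_mul_cancel₀ hx0, map_one]
  have hz := hloc.map_nonunit z hu
  obtain ⟨⟨u, hu'⟩, hzu⟩ := isUnit_iff_exists_inv.1 hz
  obtain ⟨u', hu'O, rfl⟩ := hu'
  have h2 : algebraMap K Ω x⁻¹ * algebraMap K Ω u' = 1 := congrArg Subtype.val hzu
  rw [← map_mul, ← map_one (algebraMap K Ω)] at h2
  have h3 := (algebraMap K Ω).injective h2
  have h4 : u' = x := by
    field_simp at h3
    exact h3
  rw [← h4] at hxO
  exact hxO hu'O

/-- The value group of an algebraic extension is cofinal. -/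
lemma exists_dominate {K Ω : Type*} [Field K] [Field Ω] [Algebra K Ω] [Algebra.IsAlgebraic K Ω]
    (O' : ValuationSubring Ω) (B : O'.ValueGroup) :
    ∃ b : K, b ≠ 0 ∧ B ≤ O'.valuation (algebraMap K Ω b) := by
  obtain ⟨y, rfl⟩ := O'.valuation_surjective B
  set p := (minpoly K y).map (algebraMap K Ω) with hp
  have hyint : IsIntegral K y := (Algebra.IsAlgebraic.isAlgebraic y).isIntegral
  have hmon : (minpoly K y).Monic := minpoly.monic hyint
  have hpm : p.Monic := hmon.map _
  have hy : p.eval y = 0 := by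
    rw [hp, eval_map, ← aeval_def, minpoly.aeval]
  obtain ⟨b, hb1, hb⟩ : ∃ b : K, 1 ≤ O'.valuation (algebraMap K Ω b) ∧
      ∀ l < p.natDegree, O'.valuation (p.coeff l) ≤ O'.valuation (algebraMap K Ω b) := by
    have : ∀ N : ℕ, ∃ b : K, 1 ≤ O'.valuation (algebraMap K Ω b) ∧
        ∀ l < N, O'.valuation (p.coeff l) ≤ O'.valuation (algebraMap K Ω b) := by
      intro N
      induction N with
      | zero => exact ⟨1, by simp, by simp⟩
      | succ N ih =>
        obtain ⟨b, hb1, hb⟩ := ih
        rcases le_total (O'.valuation (p.coeff N)) (O'.valuation (algebraMap K Ω b)) with h | h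
        · refine ⟨b, hb1, fun l hl => ?_⟩
          rcases Nat.lt_succ_iff_lt_or_eq.1 hl with h' | h'
          · exact hb l h'
          · rw [h']; exact h
        · refine ⟨(minpoly K y).coeff N, ?_, fun l hl => ?_⟩
          · rw [hp, coeff_map] at h
            exact hb1.trans h
          · rcases Nat.lt_succ_iff_lt_or_eq.1 hl with h' | h'
            · rw [hp, coeff_map (n := N)] at h
              exact (hb l h').trans h
            · rw [h', hp, coeff_map]
    exact this _
  have hmain := (qvalOf O').root_bound p y hy (A := O'.valuation (algebraMap K Ω b)) (η := 1)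
    zero_lt_one (by rw [hpm.leadingCoeff, map_one]) hb
  have hc : (qvalOf O').c = 1 := rfl
  rw [hc, one_pow, one_mul, inv_one, mul_one, max_eq_right hb1] at hmain
  refine ⟨b, ?_, hmain⟩
  rintro rfl
  rw [map_zero, map_zero] at hb1
  exact absurd hb1 (not_le.2 zero_lt_one)

end Pool.Agent.Helper6
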