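import Mathlib
import Pool.Agent.Helper6.RungeCount
import Pool.Agent.Helper6.RungeVal

/-!
# Cross bounds
-/

namespace Pool.Agent.Helper6

open Polynomial

section

variable {R K D Ω F Γ : Type*} [CommRing R] [IsDomain R] [IsIntegrallyClosed R] [Field K]
    [Algebra R K] [IsFractionRing R K] [CommRing D] [IsDomain D] [Algebra R D]
    [Field F] [LinearOrderedCommGroupWithZero Γ]

lemma adjoin_bound (w : QVal F Γ) (ι : K →+* F) {n : ℕ} (f₀ : Fin n → D) (B : Γ) (c : D)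
    (hc : c ∈ Algebra.adjoin R (Set.range f₀)) :
    ∃ B' : Γ, 1 ≤ B' ∧ ∀ ψ : D →+* F,
      (∀ a : R, ψ (algebraMap R D a) = ι (algebraMap R K a)) →
      (∀ j, w.v (ψ (f₀ j)) ≤ B) → w.v (ψ c) ≤ B' := by
  induction hc using Algebra.adjoin_induction with
  | mem x hx =>
    obtain ⟨j, rfl⟩ := hx
    exact ⟨max 1 B, le_max_left _ _, fun ψ _ h => (h j).trans (le_max_right _ _)⟩
  | algebraMap a =>
    exact ⟨max 1 (w.v (ι (algebraMap R K a))), le_max_left _ _, fun ψ hψ _ => by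
      rw [hψ]; exact le_max_right _ _⟩
  | add x y _ _ hx hy =>
    obtain ⟨B₁, h1, hB₁⟩ := hx
    obtain ⟨B₂, h2, hB₂⟩ := hy
    refine ⟨w.c * max B₁ B₂, one_le_mul w.one_le_c (h1.trans (le_max_left _ _)),
      fun ψ hψ h => ?_⟩
    rw [map_add]
    exact (w.add_le _ _).trans (mul_le_mul' le_rfl (max_le_max (hB₁ ψ hψ h) (hB₂ ψ hψ h)))
  | mul x y _ _ hx hy =>
    obtain ⟨B₁, h1, hB₁⟩ := hx
    obtain ⟨B₂, h2, hB₂⟩ := hy
    refine ⟨B₁ * B₂, one_le_mul h1 h2, fun ψ hψ h => ?_⟩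
    rw [map_mul, map_mul]
    exact mul_le_mul' (hB₁ ψ hψ h) (hB₂ ψ hψ h)

variable [Algebra.FiniteType R D]
    [Field Ω] [Algebra R Ω] [Algebra K Ω] [IsScalarTower R K Ω] [Algebra.IsAlgebraic K Ω]

/-- Conjugates of a point, as ring homomorphisms. -/
lemma exists_conj [IsAlgClosed F] (ι : K →+* F) (φ : D →ₐ[R] Ω) (x : D) (y : F)
    (hy : ((minpoly K (φ x)).map ι).IsRoot y) :
    ∃ ψ : D →+* F, (∀ a : R, ψ (algebraMap R D a) = ι (algebraMap R K a)) ∧ ψ x = y ∧
      ∀ z, ((minpoly K (φ z)).map ι).IsRoot (ψ z) := by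
  set E := IntermediateField.adjoin K (Set.range φ) with hE
  have hmem : ∀ a, φ a ∈ E := fun a => IntermediateField.subset_adjoin _ _ ⟨a, rfl⟩
  let φE : D →+* E := φ.toRingHom.codRestrict E.toSubring (fun a => hmem a)
  have hφE : ∀ a, ((φE a : E) : Ω) = φ a := fun a => rfl
  obtain ⟨τ, hτ, hτy⟩ := exists_embedding ι E ⟨φ x, hmem _⟩ y hy
  refine ⟨τ.comp φE, fun a => ?_, hτy, fun z => ?_⟩
  · have h1 : φE (algebraMap R D a) = algebraMap K E (algebraMap R K a) := by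
      ext
      show φ (algebraMap R D a) = algebraMap K Ω (algebraMap R K a)
      rw [AlgHom.commutes, IsScalarTower.algebraMap_apply R K Ω]
    rw [RingHom.comp_apply, h1]
    exact hτ _
  · have h1 : minpoly K (φ z) = minpoly K (φE z) := by
      rw [← hφE z, IntermediateField.minpoly_eq]
    rw [h1, IsRoot.def, eval_map]
    have h2 : τ.comp (algebraMap K E) = ι := RingHom.ext hτ
    rw [← h2, RingHom.comp_apply, ← hom_eval₂, ← aeval_def, minpoly.aeval, map_zero]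

lemma natDegree_minpoly_le {δ : ℕ} (φ : D →ₐ[R] Ω) (hφ : IsPt K δ φ) (x : D) :
    (minpoly K (φ x)).natDegree ≤ δ := by
  have hfd : FiniteDimensional K (IntermediateField.adjoin K (Set.range φ)) :=
    finiteDimensional_adjoin_range φ
  refine le_trans ?_ hφ.2
  have h1 : minpoly K (φ x) = minpoly K (⟨φ x, IntermediateField.subset_adjoin _ _ ⟨x, rfl⟩⟩ :
      IntermediateField.adjoin K (Set.range φ)) := by
    rw [IntermediateField.minpoly_eq]
  rw [h1]
  exact minpoly.natDegree_le _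

/-- Cross bounds: if the functions of one tuple are bounded at a place where nonzero elements of
`R` are at least one, then so is every other function, outside the zero set of a fixed nonzero
function. -/
lemma cross [IsAlgClosed F] (w : QVal F Γ) (ι : K →+* F)
    (hw : ∀ c : R, c ≠ 0 → 1 ≤ w.v (ι (algebraMap R K c)))
    {n : ℕ} (f₀ : Fin n → D)
    (halg : Algebra.IsAlgebraic (Algebra.adjoin R (Set.range f₀)) D) (x : D) (δ : ℕ) (B : Γ) :
    ∃ g₁ : D, g₁ ≠ 0 ∧ ∃ B' : Γ, 1 ≤ B' ∧ ∀ φ : D →ₐ[R] Ω, IsPt K δ φ → φ g₁ ≠ 0 →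
      (∀ j y, ((minpoly K (φ (f₀ j))).map ι).IsRoot y → w.v y ≤ B) →
      ∀ y, ((minpoly K (φ x)).map ι).IsRoot y → w.v y ≤ B' := by
  classical
  obtain ⟨P, hP0, hP⟩ := halg.isAlgebraic x
  -- bounds for coefficients
  choose Bc hBc1 hBc using fun l => adjoin_bound (R := R) (K := K) w ι f₀ B (P.coeff l : D)
    (P.coeff l).2
  obtain ⟨A, hA1, hA⟩ : ∃ A : Γ, 1 ≤ A ∧ ∀ l ≤ P.natDegree, Bc l ≤ A := by
    have : ∀ N : ℕ, ∃ A : Γ, 1 ≤ A ∧ ∀ l ≤ N, Bc l ≤ A := by
      intro N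
      induction N with
      | zero => exact ⟨Bc 0, hBc1 0, fun l hl => by rw [Nat.le_zero.1 hl]⟩
      | succ N ih =>
        obtain ⟨A, hA1, hA⟩ := ih
        refine ⟨max A (Bc (N + 1)), hA1.trans (le_max_left _ _), fun l hl => ?_⟩
        rcases Nat.lt_succ_iff_lt_or_eq.1 (Nat.lt_succ_of_le hl) with h | h
        · exact (hA l (Nat.lt_succ_iff.1 h)).trans (le_max_left _ _)
        · rw [h]; exact le_max_right _ _
    exact this _
  have hlc : ((P.leadingCoeff : Algebra.adjoin R (Set.range f₀)) : D) ≠ 0 := by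
    intro h
    exact hP0 (leadingCoeff_eq_zero.1 (Subtype.ext h))
  refine ⟨(P.leadingCoeff : D), hlc,
    max 1 (w.c ^ P.natDegree * A * ((A ^ δ)⁻¹)⁻¹), le_max_left _ _,
    fun φ hφ hg₁ hB y hy => ?_⟩
  obtain ⟨ψ, hψ, hψx, hψroot⟩ := exists_conj ι φ x y hy
  have hψf : ∀ j, w.v (ψ (f₀ j)) ≤ B := fun j => hB j _ (hψroot _)
  set g₁ : D := (P.leadingCoeff : D) with hg₁def
  -- lower bound
  have hint : IsIntegral R (φ g₁) := hφ.1 _
  have hintK : IsIntegral K (φ g₁) := (Algebra.IsAlgebraic.isAlgebraic (φ g₁)).isIntegral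
  have hmin : minpoly K (φ g₁) = (minpoly R (φ g₁)).map (algebraMap R K) :=
    minpoly.isIntegrallyClosed_eq_field_fractions' K hint
  have hA0 : 0 < A := zero_lt_one.trans_le hA1
  have hlow : (A ^ δ)⁻¹ ≤ w.v (ψ g₁) := by
    have h1 : ∀ z, ((minpoly K (φ g₁)).map ι).IsRoot z → w.v z ≤ A := by
      intro z hz
      obtain ⟨ψ', hψ', hψ'x, hψ'root⟩ := exists_conj ι φ g₁ z hz
      rw [← hψ'x]
      exact (hBc P.natDegree ψ' hψ' (fun j => hB j _ (hψ'root _))).trans (hA _ le_rfl)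
    have h2 : 1 ≤ w.v (((minpoly K (φ g₁)).map ι).coeff 0) := by
      rw [coeff_map, hmin, coeff_map]
      apply hw
      intro h0
      apply minpoly.coeff_zero_ne_zero hintK hg₁
      rw [hmin, coeff_map, h0, map_zero]
    have h3 := w.root_lower _ ((minpoly.monic hintK).map ι) hA1 h1 h2 (ψ g₁) (hψroot _)
    rw [(minpoly.monic hintK).natDegree_map] at h3
    have h4 : 1 ≤ w.v (ψ g₁) * A ^ δ :=
      h3.trans (mul_le_mul' le_rfl (pow_le_pow_right' hA1 (natDegree_minpoly_le φ hφ g₁)))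
    rw [inv_le_iff_one_le_mul₀' (pow_pos hA0 _), mul_comm]
    exact h4
  have hA0' : (0 : Γ) < (A ^ δ)⁻¹ := inv_pos.2 (pow_pos hA0 _)
  have hψg : ψ g₁ ≠ 0 := by
    intro h
    rw [h, map_zero] at hlow
    exact absurd hlow (not_le.2 hA0')
  set p : F[X] := P.map (ψ.comp (Algebra.adjoin R (Set.range f₀)).val.toRingHom) with hp
  have hnd : p.natDegree = P.natDegree :=
    natDegree_map_of_leadingCoeff_ne_zero _ hψg
  have hplc : p.leadingCoeff = ψ g₁ := by
    rw [leadingCoeff, hnd, hp, coeff_map]; rfl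
  have hpy : p.eval y = 0 := by
    rw [hp, eval_map, ← hψx]
    have h5 : (eval₂ (ψ.comp (Algebra.adjoin R (Set.range f₀)).val.toRingHom) (ψ x) P) =
        ψ (eval₂ (Algebra.adjoin R (Set.range f₀)).val.toRingHom x P) := by
      rw [hom_eval₂]
    rw [h5]
    have h6 : eval₂ (Algebra.adjoin R (Set.range f₀)).val.toRingHom x P = 0 := hP
    rw [h6, map_zero]
  have := w.root_bound p y hpy (A := A) (η := (A ^ δ)⁻¹) hA0' (by rw [hplc]; exact hlow)
    (fun l hl => by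
      rw [hnd] at hl
      rw [hp, coeff_map]
      exact (hBc l ψ hψ hψf).trans (hA l hl.le))
  rwa [hnd] at this

end

end Pool.Agent.Helper6
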