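import Mathlib
import Pool.Agent.Helper6.RungeVal

/-!
# Generic archimedean places and interpolation
-/

namespace Pool.Agent.Helper6

section Generic

open MvPolynomial Cardinal

lemma countable_numberField (k : Type*) [Field k] [NumberField k] : Countable k :=
  (Module.finBasis ℚ k).equivFun.toEquiv.injective.countable

/-- There are arbitrarily large finite families of complex numbers which are algebraically
independent over the image of a number field. -/
lemma exists_generic {k : Type*} [Field k] [NumberField k] (σ : k →+* ℂ) (ι : Type*) [Finite ι] :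
    ∃ t : ι → ℂ, Function.Injective (MvPolynomial.eval₂Hom σ t : MvPolynomial ι k →+* ℂ) := by
  let _ : Algebra k ℂ := σ.toAlgebra
  obtain ⟨s, hs⟩ := exists_isTranscendenceBasis k ℂ
  have hk : Countable k := countable_numberField k
  have hinf : Infinite s := by
    by_contra hfin
    rw [not_infinite_iff_finite] at hfin
    have h1 := IsAlgClosed.cardinal_le_max_transcendence_basis (R := k) (K := ℂ) _ hs
    have h2 : Cardinal.lift #k ≤ ℵ₀ := by simp
    have h3 : Cardinal.lift #s ≤ ℵ₀ := by simp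
    have h4 := h1.trans (max_le (max_le h2 h3) le_rfl)
    rw [Cardinal.mk_complex] at h4
    simp at h4
    exact absurd h4 (not_le.2 Cardinal.aleph0_lt_continuum)
  obtain ⟨f⟩ : Nonempty (ι ↪ s) := by
    have := Fintype.ofFinite ι
    exact ⟨(Fintype.equivFin ι).toEmbedding.trans
      (Fin.valEmbedding.trans (Infinite.natEmbedding s))⟩
  refine ⟨fun i => (f i : ℂ), ?_⟩
  have h5 := hs.1.comp f f.injective
  rw [algebraicIndependent_iff_injective_aeval] at h5
  exact h5

end Generic

section Interpolation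

open MvPolynomial Finset

/-- Schwartz–Zippel in the form used here. -/
lemma card_zeros_le {e M D₀ : ℕ} (t : Fin e → Fin M → ℂ) (ht : ∀ i, Function.Injective (t i))
    (p : MvPolynomial (Fin e) ℂ) (hp : p ≠ 0) (hdeg : p.totalDegree ≤ D₀)
    (T : Finset (Fin e → Fin M)) (hT : ∀ s ∈ T, eval (fun i => t i (s i)) p = 0) :
    T.card * M ≤ D₀ * M ^ e := by
  classical
  rcases Nat.eq_zero_or_pos M with hM | hM
  · subst hM
    simp
  have hcard : ∀ i, (Finset.univ.image (t i)).card = M := fun i => by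
    rw [Finset.card_image_of_injective _ (ht i), Finset.card_univ, Fintype.card_fin]
  have h1 := schwartz_zippel_sup_sum hp (fun i => Finset.univ.image (t i))
  simp only [hcard, Finset.prod_const, Finset.card_univ, Fintype.card_fin] at h1
  have h2 : T.card ≤ (Finset.filter (fun x => eval x p = 0)
      (Fintype.piFinset fun i => Finset.univ.image (t i))).card := by
    apply Finset.card_le_card_of_injOn (fun s i => t i (s i))
    · intro s hs
      simp only [Finset.coe_filter, Set.mem_ofPred_eq, Fintype.mem_piFinset, Finset.mem_image,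
        Finset.mem_univ, true_and]
      exact ⟨fun i => ⟨s i, rfl⟩, hT s hs⟩
    · intro s _ s' _ h
      funext i
      exact ht i (congrFun h i)
  have h3 : (p.support.sup fun s ↦ ∑ i, ((s i : NNRat) / (M : NNRat))) ≤ (D₀ : NNRat) / M := by
    apply Finset.sup_le
    intro s hs
    rw [← Finset.sum_div, ← Nat.cast_sum]
    gcongr
    have h4 := le_totalDegree hs
    rw [Finsupp.sum_fintype _ _ (fun _ => rfl)] at h4
    exact h4.trans hdeg
  have hM' : (0 : NNRat) < M := by exact_mod_cast hM
  have h5 := h1.trans h3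
  rw [div_le_div_iff₀ (by positivity) hM'] at h5
  have h6 : (T.card : NNRat) * M ≤ D₀ * (M : NNRat) ^ e := by
    refine le_trans ?_ h5
    gcongr
  exact_mod_cast h6

/-- Interpolation bound. -/
lemma interpolation {e M D₀ : ℕ} (t : Fin e → Fin M → ℂ) (ht : ∀ i, Function.Injective (t i))
    (T : Finset (Fin e → Fin M)) (hT : D₀ * M ^ e < T.card * M) :
    ∃ C : ℝ, 0 ≤ C ∧ ∀ g : MvPolynomial (Fin e) ℂ, g.totalDegree ≤ D₀ → ∀ B : ℝ, 0 ≤ B →
      (∀ s ∈ T, ‖eval (fun i => t i (s i)) g‖ ≤ B) → ∀ u, ‖g.coeff u‖ ≤ C * B := by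
  classical
  obtain ⟨U, hU⟩ : ∃ U : Finset (Fin e →₀ ℕ), ∀ u, u ∈ U ↔ u.degree ≤ D₀ :=
    ⟨(Finsupp.finite_of_degree_le D₀).toFinset, fun u => Set.Finite.mem_toFinset _⟩
  let toPoly : (U → ℂ) →ₗ[ℂ] MvPolynomial (Fin e) ℂ :=
    ∑ u : U, (MvPolynomial.monomial (u : Fin e →₀ ℕ)).comp (LinearMap.proj u)
  have htoPoly : ∀ c, toPoly c = ∑ u : U, MvPolynomial.monomial (u : Fin e →₀ ℕ) (c u) := by
    intro c
    simp [toPoly, LinearMap.sum_apply]
  have hcoeff : ∀ c (u : U), (toPoly c).coeff u = c u := by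
    intro c u
    rw [htoPoly, coeff_sum, Finset.sum_eq_single u]
    · simp
    · intro v _ hv
      rw [coeff_monomial, if_neg]
      exact fun h => hv (Subtype.ext h)
    · simp
  have hdegP : ∀ c, (toPoly c).totalDegree ≤ D₀ := by
    intro c
    rw [htoPoly]
    refine (totalDegree_finsetSum _ _).trans (Finset.sup_le fun u _ => ?_)
    refine (totalDegree_monomial_le _ _).trans ?_
    exact (hU _).1 u.2
  let Λ : (U → ℂ) →ₗ[ℂ] (T → ℂ) :=
    LinearMap.pi fun s : T => (MvPolynomial.aeval (R := ℂ) (fun i => t i (s.1 i))).toLinearMap.comp toPoly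
  have hΛ : ∀ c (s : T), Λ c s = eval (fun i => t i (s.1 i)) (toPoly c) := by
    intro c s
    simp only [Λ, LinearMap.pi_apply, LinearMap.comp_apply, AlgHom.toLinearMap_apply]
    rw [MvPolynomial.aeval_eq_eval]
  have hinj : LinearMap.ker Λ = ⊥ := by
    rw [LinearMap.ker_eq_bot']
    intro c hc
    by_contra hne
    have hp : toPoly c ≠ 0 := by
      intro h
      apply hne
      funext u
      rw [← hcoeff c u, h, coeff_zero]; rfl
    have := card_zeros_le t ht (toPoly c) hp (hdegP c) T (fun s hs => by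
      rw [← hΛ c ⟨s, hs⟩, hc]; rfl)
    omega
  obtain ⟨Λ', hΛ'⟩ := Λ.exists_leftInverse_of_injective hinj
  obtain ⟨C, hC0, hC⟩ : ∃ C : ℝ, 0 ≤ C ∧ ∀ y : T → ℂ, ‖Λ' y‖ ≤ C * ‖y‖ :=
    ⟨‖LinearMap.toContinuousLinearMap Λ'‖, norm_nonneg _,
      fun y => (LinearMap.toContinuousLinearMap Λ').le_opNorm y⟩
  clear_value Λ toPoly
  refine ⟨C, hC0, fun g hg B hB hs u => ?_⟩
  by_cases hu : u ∈ U
  · have hg2 : toPoly (fun u : U => g.coeff u) = g := by
      rw [htoPoly]
      conv_rhs => rw [g.as_sum]
      rw [Finset.sum_coe_sort U (fun u => MvPolynomial.monomial u (g.coeff u))]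
      symm
      apply Finset.sum_subset
      · intro v hv
        rw [hU]
        exact (le_totalDegree hv).trans hg
      · intro v _ hv
        rw [notMem_support_iff.1 hv, monomial_zero]
    have h1 : Λ' (Λ (fun u : U => g.coeff u)) = fun u : U => g.coeff u := by
      have := LinearMap.congr_fun hΛ' (fun u : U => g.coeff u)
      simpa using this
    have h2 : ‖(fun u : U => g.coeff u)‖ ≤ C * B := by
      have h4 := hC (Λ (fun u : U => g.coeff u))
      rw [h1] at h4
      refine h4.trans (mul_le_mul_of_nonneg_left ?_ hC0)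
      rw [pi_norm_le_iff_of_nonneg hB]
      intro s
      rw [hΛ, hg2]
      exact hs s.1 s.2
    have h3 := norm_le_pi_norm (fun u : U => g.coeff u) (⟨u, hu⟩ : U)
    exact le_trans h3 h2
  · have h1 : g.coeff u = 0 := by
      by_contra h
      apply hu
      rw [hU]
      exact (le_totalDegree (mem_support_iff.2 h)).trans hg
    rw [h1, norm_zero]
    positivity

end Interpolation

open scoped NNReal
open Polynomial

/-- The usual absolute value on the complex numbers as a generalised absolute value. -/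
noncomputable def qvalC : QVal ℂ ℝ≥0 where
  v := nnnormHom
  c := 2
  one_le_c := one_le_two
  add_le := fun x y => by
    refine (nnnorm_add_le x y).trans ?_
    rw [two_mul]
    exact add_le_add (le_max_left _ _) (le_max_right _ _)

lemma qvalC_v (x : ℂ) : qvalC.v x = ‖x‖₊ := rfl

lemma totalDegree_map_le' {A B τ : Type*} [CommRing A] [CommRing B] (σ : A →+* B)
    (g : MvPolynomial τ A) : (MvPolynomial.map σ g).totalDegree ≤ g.totalDegree :=
  Finset.sup_mono (MvPolynomial.support_map_subset σ g)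

/-- Counting at the generic archimedean places. -/
lemma arch_count {A K P : Type*} [CommRing A] [IsDomain A] [Field K] {e : ℕ}
    [Algebra (MvPolynomial (Fin e) A) K] [IsFractionRing (MvPolynomial (Fin e) A) K]
    (σ : A →+* ℂ)
    (hgen : ∀ M : ℕ, ∃ t : Fin e × Fin M → ℂ,
      Function.Injective (MvPolynomial.eval₂Hom σ t : MvPolynomial (Fin e × Fin M) A →+* ℂ))
    {r N δ D₀ : ℕ} {J : Fin r → Type*} (Q : P → ∀ i, J i → (MvPolynomial (Fin e) A)[X])
    (hmon : ∀ φ i j, (Q φ i j).Monic) (hnat : ∀ φ i j, (Q φ i j).natDegree ≤ δ)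
    (hdeg : ∀ φ i j l, ((Q φ i j).coeff l).totalDegree ≤ D₀)
    (hcount : ∀ ι : K →+* ℂ, ∃ B : ℝ≥0, 1 ≤ B ∧ ∀ φ,
      {i | ∃ j, ∃ y, ((Q φ i j).map (ι.comp (algebraMap _ K))).IsRoot y ∧
        B < qvalC.v y}.ncard ≤ N) :
    ∃ C : ℝ, ∀ φ, {i | ∃ j l u, C < ‖σ (((Q φ i j).coeff l).coeff u)‖}.ncard ≤ N := by
  classical
  set M := (N + 1) * D₀ + 1 with hM
  obtain ⟨t, ht⟩ := hgen M
  -- the embeddings
  have hinj : ∀ s : Fin e → Fin M, Function.Injective
      (MvPolynomial.eval₂Hom σ (fun i => t (i, s i)) : MvPolynomial (Fin e) A →+* ℂ) := by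
    intro s
    have h1 : (MvPolynomial.eval₂Hom σ (fun i => t (i, s i)) : MvPolynomial (Fin e) A →+* ℂ) =
        (MvPolynomial.eval₂Hom σ t).comp
          (MvPolynomial.rename (fun i => (i, s i)) : MvPolynomial (Fin e) A →ₐ[A] _).toRingHom := by
      apply MvPolynomial.ringHom_ext
      · intro a; simp
      · intro i; simp
    rw [h1]
    exact ht.comp (MvPolynomial.rename_injective _ (fun i j h => (Prod.ext_iff.1 h).1))
  let ι : (Fin e → Fin M) → K →+* ℂ := fun s => IsFractionRing.lift (hinj s)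
  have hι : ∀ s g, ι s (algebraMap _ K g) =
      MvPolynomial.eval (fun i => t (i, s i)) (MvPolynomial.map σ g) := by
    intro s g
    simp only [ι, IsFractionRing.lift_algebraMap]
    rw [MvPolynomial.eval_map]
    rfl
  choose B hB1 hB using fun s => hcount (ι s)
  obtain ⟨B₀, hB₀⟩ : ∃ B₀ : ℝ≥0, ∀ s, B s ≤ B₀ :=
    ⟨Finset.univ.sup B, fun s => Finset.le_sup (Finset.mem_univ s)⟩
  have htinj : ∀ i, Function.Injective (fun l : Fin M => t (i, l)) := by
    intro i l l' h
    have h2 : (MvPolynomial.X (i, l) : MvPolynomial (Fin e × Fin M) A) = MvPolynomial.X (i, l') := by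
      apply ht
      simpa using h
    have h3 := MvPolynomial.X_injective h2
    exact (Prod.ext_iff.1 h3).2
  have hCT : ∀ T : Finset (Fin e → Fin M), ∃ C : ℝ, 0 ≤ C ∧ (D₀ * M ^ e < T.card * M →
      ∀ g : MvPolynomial (Fin e) ℂ, g.totalDegree ≤ D₀ → ∀ B : ℝ, 0 ≤ B →
      (∀ s ∈ T, ‖MvPolynomial.eval (fun i => t (i, s i)) g‖ ≤ B) → ∀ u, ‖g.coeff u‖ ≤ C * B) := by
    intro T
    by_cases hT : D₀ * M ^ e < T.card * M
    · obtain ⟨C, hC0, hC⟩ := interpolation (fun i l => t (i, l)) htinj T hT
      exact ⟨C, hC0, fun _ => hC⟩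
    · exact ⟨0, le_rfl, fun h => absurd h hT⟩
  choose CT hCT0 hCT using hCT
  set B' : ℝ≥0 := (2 * max 1 B₀) ^ δ with hB'
  set C : ℝ := (∑ T : Finset (Fin e → Fin M), CT T) * B' with hC
  refine ⟨C, fun φ => ?_⟩
  set X := {i | ∃ j l u, C < ‖σ (((Q φ i j).coeff l).coeff u)‖} with hX
  by_contra hcon
  rw [not_le] at hcon
  let bad : (Fin e → Fin M) → Set (Fin r) := fun s =>
    {i | ∃ j, ∃ y, ((Q φ i j).map ((ι s).comp (algebraMap _ K))).IsRoot y ∧ B s < qvalC.v y}
  have hbad : ∀ s, (bad s).ncard ≤ N := fun s => hB s φ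
  have hkey : ∀ i ∈ X, (Finset.univ.filter (fun s => i ∉ bad s)).card * M ≤ D₀ * M ^ e := by
    intro i hi
    by_contra hlt
    rw [not_le] at hlt
    obtain ⟨j, l, u, hu⟩ := hi
    apply absurd hu
    rw [not_lt]
    have h1 := hCT _ hlt (MvPolynomial.map σ ((Q φ i j).coeff l))
      ((totalDegree_map_le' σ _).trans (hdeg φ i j l)) B' (by positivity) (by
        intro s hs
        rw [Finset.mem_filter] at hs
        rw [← hι]
        have h2 : ∀ y, ((Q φ i j).map ((ι s).comp (algebraMap _ K))).IsRoot y →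
            qvalC.v y ≤ max 1 B₀ := by
          intro y hy
          by_contra hy2
          rw [not_le] at hy2
          exact hs.2 ⟨j, y, hy, lt_of_le_of_lt ((hB₀ s).trans (le_max_right _ _)) hy2⟩
        have h3 := qvalC.coeff_le_of_roots _ ((hmon φ i j).map ((ι s).comp (algebraMap _ K)))
          (le_max_left 1 B₀) h2 l
        rw [Polynomial.coeff_map, RingHom.comp_apply, (hmon φ i j).natDegree_map] at h3
        have h4 : qvalC.c = 2 := rfl
        have h5 : (2 * max 1 B₀) ^ (Q φ i j).natDegree ≤ B' :=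
          pow_le_pow_right₀ (one_le_mul one_le_two (le_max_left _ _)) (hnat φ i j)
        rw [h4] at h3
        exact_mod_cast h3.trans h5) u
    rw [MvPolynomial.coeff_map] at h1
    refine h1.trans ?_
    rw [hC]
    refine mul_le_mul_of_nonneg_right ?_ (by positivity)
    exact Finset.single_le_sum (f := CT) (fun T _ => hCT0 T) (Finset.mem_univ _)
  -- double counting
  have hXfin : X.Finite := Set.toFinite X
  have h1 : ∑ i ∈ hXfin.toFinset, (Finset.univ.filter (fun s => i ∈ bad s)).card ≤
      N * M ^ e := by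
    calc ∑ i ∈ hXfin.toFinset, (Finset.univ.filter (fun s => i ∈ bad s)).card
        ≤ ∑ i : Fin r, (Finset.univ.filter (fun s => i ∈ bad s)).card :=
          Finset.sum_le_sum_of_subset (Finset.subset_univ _)
      _ = ∑ s : Fin e → Fin M, (Finset.univ.filter (fun i => i ∈ bad s)).card := by
          simp_rw [Finset.card_filter]
          exact Finset.sum_comm
      _ ≤ ∑ s : Fin e → Fin M, N := by
          refine Finset.sum_le_sum fun s _ => ?_
          refine le_trans (le_of_eq ?_) (hbad s)
          rw [Set.ncard_eq_toFinset_card' (bad s)]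
          congr 1
          ext i
          simp
      _ = N * M ^ e := by
          rw [Finset.sum_const, smul_eq_mul, mul_comm]
          simp
  have h2 : ∀ i ∈ hXfin.toFinset, M ^ e * M ≤
      (Finset.univ.filter (fun s => i ∈ bad s)).card * M + D₀ * M ^ e := by
    intro i hi
    have h3 := hkey i (hXfin.mem_toFinset.1 hi)
    have h4 : (Finset.univ.filter (fun s => i ∈ bad s)).card +
        (Finset.univ.filter (fun s => i ∉ bad s)).card = M ^ e := by
      rw [Finset.card_filter_add_card_filter_not]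
      simp
    calc M ^ e * M = ((Finset.univ.filter (fun s => i ∈ bad s)).card +
          (Finset.univ.filter (fun s => i ∉ bad s)).card) * M := by rw [h4]
      _ = (Finset.univ.filter (fun s => i ∈ bad s)).card * M +
          (Finset.univ.filter (fun s => i ∉ bad s)).card * M := add_mul _ _ _
      _ ≤ _ := Nat.add_le_add_left h3 _
  have h3 : hXfin.toFinset.card * (M ^ e * M) ≤ N * M ^ e * M +
      hXfin.toFinset.card * (D₀ * M ^ e) := by
    calc hXfin.toFinset.card * (M ^ e * M) = ∑ i ∈ hXfin.toFinset, M ^ e * M := by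
          rw [Finset.sum_const, smul_eq_mul]
      _ ≤ ∑ i ∈ hXfin.toFinset, ((Finset.univ.filter (fun s => i ∈ bad s)).card * M +
            D₀ * M ^ e) := Finset.sum_le_sum h2
      _ = (∑ i ∈ hXfin.toFinset, (Finset.univ.filter (fun s => i ∈ bad s)).card) * M +
            hXfin.toFinset.card * (D₀ * M ^ e) := by
          rw [Finset.sum_add_distrib, ← Finset.sum_mul, Finset.sum_const, smul_eq_mul]
      _ ≤ _ := by
          gcongr
  have h4 : X.ncard = hXfin.toFinset.card := Set.ncard_eq_toFinset_card X hXfin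
  rw [← h4] at h3
  have hMpos : 0 < M ^ e := pow_pos (by omega) _
  have h5 : X.ncard * M ≤ N * M + X.ncard * D₀ := by
    have : (X.ncard * M) * M ^ e ≤ (N * M + X.ncard * D₀) * M ^ e := by nlinarith [h3]
    exact Nat.le_of_mul_le_mul_right this hMpos
  obtain ⟨x, hx⟩ := Nat.exists_eq_add_of_lt hcon
  rw [hx, hM] at h5
  have h6 : 0 ≤ x * (N * D₀) := Nat.zero_le _
  nlinarith [h5, h6]

end Pool.Agent.Helper6
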