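import Mathlib
import Pool.Agent.Helper6.RungeVal

/-!
# Gauss and degree valuations on rational function fields
-/

namespace Pool.Agent.Helper6

open MvPolynomial

/-- Existence of a valuation ring of Gauss type. -/
lemma exists_gauss {σ k K : Type*} [Field k] [Field K] (Ov : ValuationSubring k)
    (j : MvPolynomial σ k →+* K) (hj : Function.Injective j) :
    ∃ O : ValuationSubring K,
      (∀ (g : MvPolynomial σ k) (a : k), a ≠ 0 → j g / j (C a) ∈ O → ∀ s, g.coeff s / a ∈ Ov) ∧
      (∀ b : MvPolynomial σ k, b ≠ 0 → ∃ a : k, a ≠ 0 ∧ j b / j (C a) ∈ O ∧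
        j (C a) / j b ∈ O) := by
  classical
  set θ : MvPolynomial σ Ov →+* K := j.comp (MvPolynomial.map Ov.subtype) with hθ
  have hθinj : Function.Injective θ :=
    hj.comp (MvPolynomial.map_injective _ Subtype.val_injective)
  let e : MvPolynomial σ Ov ≃+* θ.range :=
    RingEquiv.ofBijective θ.rangeRestrict ⟨fun a b h => hθinj (congrArg Subtype.val h),
      θ.rangeRestrict_surjective⟩
  let ρ : MvPolynomial σ Ov →+* MvPolynomial σ (IsLocalRing.ResidueField Ov) :=
    MvPolynomial.map (IsLocalRing.residue Ov)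
  let P : Ideal θ.range := (RingHom.ker ρ).comap (e.symm : θ.range →+* MvPolynomial σ Ov)
  have hker : (RingHom.ker ρ).IsPrime := RingHom.ker_isPrime ρ
  have hP : P.IsPrime := Ideal.comap_isPrime _ _
  have heP : ∀ g : MvPolynomial σ Ov, e g ∈ P ↔ ρ g = 0 := by
    intro g
    rw [Ideal.mem_comap]
    simp [RingHom.mem_ker]
  have heθ : ∀ g : MvPolynomial σ Ov, ((e g : θ.range) : K) = θ g := fun g => rfl
  obtain ⟨O, hO⟩ := (LocalSubring.ofPrime θ.range P).exists_le_valuationSubring
  obtain ⟨hsub, hloc⟩ := hO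
  have hle : θ.range ≤ O.toSubring := (LocalSubring.le_ofPrime θ.range P).trans hsub
  have hθO : ∀ g, θ g ∈ O := fun g => hle ⟨g, rfl⟩
  -- Fact 1
  have fact1 : ∀ g : MvPolynomial σ Ov, ρ g ≠ 0 → (θ g)⁻¹ ∈ O := by
    intro g hg
    have h1 : IsUnit (algebraMap θ.range (LocalSubring.ofPrime θ.range P).toSubring (e g)) := by
      rw [IsLocalization.AtPrime.isUnit_to_map_iff (LocalSubring.ofPrime θ.range P).toSubring P
        (e g), Ideal.mem_primeCompl_iff, heP]
      exact hg
    obtain ⟨u, hu⟩ := isUnit_iff_exists_inv.1 h1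
    have h2 : θ g * (u : K) = 1 := congrArg Subtype.val hu
    have h3 : (θ g)⁻¹ = (u : K) := inv_eq_of_mul_eq_one_right h2
    rw [h3]
    exact hsub u.2
  -- Fact 2
  have fact2 : ∀ c : k, j (C c) ∈ O → c ∈ Ov := by
    intro c hc
    by_contra hcO
    have hc0 : c ≠ 0 := by
      rintro rfl
      exact hcO Ov.zero_mem
    have hinv : c⁻¹ ∈ Ov := (Ov.mem_or_inv_mem c).resolve_left hcO
    set ci : Ov := ⟨c⁻¹, hinv⟩ with hci
    have hnu : ¬ IsUnit ci := by
      intro h
      obtain ⟨u, hu⟩ := isUnit_iff_exists_inv.1 h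
      have h2 : c⁻¹ * (u : k) = 1 := congrArg Subtype.val hu
      have h3 : (u : k) = c := by
        field_simp at h2
        exact h2
      rw [← h3] at hcO
      exact hcO u.2
    have h1 : ρ (C ci) = 0 := by
      simp only [ρ, map_C]
      have : IsLocalRing.residue Ov ci = 0 := by
        rw [IsLocalRing.residue_eq_zero_iff]
        exact (IsLocalRing.mem_maximalIdeal _).2 hnu
      rw [this, map_zero]
    have h2 : e (C ci) ∈ P := (heP _).2 h1
    have hnu2 : ¬ IsUnit (algebraMap θ.range (LocalSubring.ofPrime θ.range P).toSubring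
        (e (C ci))) := by
      rw [IsLocalization.AtPrime.isUnit_to_map_iff (LocalSubring.ofPrime θ.range P).toSubring P
        (e (C ci)), Ideal.mem_primeCompl_iff]
      exact fun h => h h2
    apply hnu2
    apply hloc.map_nonunit
    refine isUnit_iff_exists_inv.2 ⟨⟨j (C c), hc⟩, ?_⟩
    ext
    show θ (C ci) * j (C c) = 1
    rw [hθ, RingHom.comp_apply, map_C, ← map_mul, ← C_mul]
    show j (C (c⁻¹ * c)) = 1
    rw [inv_mul_cancel₀ hc0, C_1, map_one]
  -- Fact 3
  have fact3 : ∀ b : MvPolynomial σ k, b ≠ 0 → ∃ s₀, b.coeff s₀ ≠ 0 ∧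
      (∀ s, b.coeff s / b.coeff s₀ ∈ Ov) ∧ ∃ g : MvPolynomial σ Ov, ρ g ≠ 0 ∧
        j b = j (C (b.coeff s₀)) * θ g := by
    intro b hb
    obtain ⟨s₀, hs₀, hmax⟩ := Finset.exists_max_image b.support
      (fun s => Ov.valuation (b.coeff s)) (MvPolynomial.support_nonempty.2 hb)
    have hc0 : b.coeff s₀ ≠ 0 := mem_support_iff.1 hs₀
    have hall : ∀ s, b.coeff s / b.coeff s₀ ∈ Ov := by
      intro s
      rw [← Ov.valuation_le_one_iff, map_div₀]
      by_cases hs : s ∈ b.support
      · exact div_le_one_of_le₀ (hmax s hs) zero_le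
      · rw [notMem_support_iff.1 hs, map_zero, zero_div]
        exact zero_le
    refine ⟨s₀, hc0, hall, ?_⟩
    have h1 : C (b.coeff s₀)⁻¹ * b ∈ Set.range (MvPolynomial.map (σ := σ) Ov.subtype) := by
      rw [mem_range_map_iff_coeffs_subset]
      intro x hx
      rw [Finset.mem_coe, mem_coeffs_iff] at hx
      obtain ⟨s, -, rfl⟩ := hx
      rw [coeff_C_mul, mul_comm, ← div_eq_mul_inv]
      exact ⟨⟨_, hall s⟩, rfl⟩
    obtain ⟨g, hg⟩ := h1
    refine ⟨g, ?_, ?_⟩
    · intro h0
      have h2 : (ρ g).coeff s₀ = 0 := by rw [h0, coeff_zero]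
      simp only [ρ, coeff_map] at h2
      have h3 : ((g.coeff s₀ : Ov) : k) = 1 := by
        have := congrArg (fun q => coeff s₀ q) hg
        simp only [coeff_map, coeff_C_mul] at this
        rw [inv_mul_cancel₀ hc0] at this
        exact this
      have h4 : g.coeff s₀ = 1 := Subtype.ext h3
      rw [h4, map_one] at h2
      exact one_ne_zero h2
    · rw [hθ, RingHom.comp_apply, hg, ← map_mul, ← mul_assoc, ← C_mul, mul_inv_cancel₀ hc0, C_1,
        one_mul]
  have hjC : ∀ a : k, a ≠ 0 → j (C a) ≠ 0 := fun a ha h => by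
    have := hj (h.trans (map_zero j).symm)
    exact ha (C_eq_zero.1 this)
  refine ⟨O, ?_, ?_⟩
  · intro g a ha hg s
    by_cases hg0 : g = 0
    · rw [hg0, coeff_zero, zero_div]; exact Ov.zero_mem
    obtain ⟨s₀, hc0, hall, g', hg', hfac⟩ := fact3 g hg0
    have h1 : j (C (g.coeff s₀ / a)) ∈ O := by
      have h2 : j (C (g.coeff s₀ / a)) = (j g / j (C a)) * (θ g')⁻¹ := by
        have h3 : θ g' ≠ 0 := by
          intro h
          have : g' = 0 := hθinj (h.trans (map_zero θ).symm)
          rw [this, map_zero] at hg'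
          exact hg' rfl
        rw [hfac, div_eq_mul_inv (g.coeff s₀), C_mul, map_mul]
        have h4 : j (C a⁻¹) = (j (C a))⁻¹ := by
          rw [eq_comm, inv_eq_iff_eq_inv, eq_comm]
          exact inv_eq_of_mul_eq_one_right (by
            rw [← map_mul, ← C_mul, inv_mul_cancel₀ ha, C_1, map_one])
        rw [h4]
        field_simp
      rw [h2]
      exact O.mul_mem _ _ hg (fact1 g' hg')
    have h2 := fact2 _ h1
    have h3 : g.coeff s / a = (g.coeff s / g.coeff s₀) * (g.coeff s₀ / a) := by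
      field_simp
    rw [h3]
    exact Ov.mul_mem _ _ (hall s) h2
  · intro b hb
    obtain ⟨s₀, hc0, -, g', hg', hfac⟩ := fact3 b hb
    have h3 : θ g' ≠ 0 := by
      intro h
      have : g' = 0 := hθinj (h.trans (map_zero θ).symm)
      rw [this, map_zero] at hg'
      exact hg' rfl
    have h4 := hjC _ hc0
    refine ⟨b.coeff s₀, hc0, ?_, ?_⟩
    · rw [hfac, mul_div_cancel_left₀ _ h4]; exact hθO g'
    · rw [hfac, div_mul_cancel_left₀ h4]; exact fact1 g' hg'

end Pool.Agent.Helper6
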