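import Mathlib
import Pool.Agent.Helper6.RungeVal

/-!
# The base ring: polynomial rings over rings of S-integers
-/

namespace Pool.Agent.Helper6

open MvPolynomial IsDedekindDomain NumberField

/-- Polynomial rings in finitely many variables over integrally closed domains are integrally
closed. -/
lemma isIntegrallyClosed_mvPolynomial (A : Type*) [CommRing A] [IsDomain A]
    [IsIntegrallyClosed A] (e : ℕ) : IsIntegrallyClosed (MvPolynomial (Fin e) A) := by
  induction e with
  | zero =>
    exact IsIntegrallyClosed.of_equiv (MvPolynomial.isEmptyRingEquiv A (Fin 0)).symm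
  | succ e ih =>
    exact IsIntegrallyClosed.of_equiv (MvPolynomial.finSuccEquiv A e).symm.toRingEquiv

section SInt

variable (k : Type*) [Field k] [NumberField k] (S : Set (HeightOneSpectrum (𝓞 k)))

instance isFractionRing_sInteger : IsFractionRing (S.integer k) k := by
  refine IsFractionRing.of_field (S.integer k) k fun z => ?_
  obtain ⟨x, y, -, rfl⟩ := IsFractionRing.div_surjective (A := 𝓞 k) z
  exact ⟨algebraMap (𝓞 k) (S.integer k) x, algebraMap (𝓞 k) (S.integer k) y, rfl⟩

instance isIntegrallyClosed_sInteger : IsIntegrallyClosed (S.integer k) := by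
  rw [isIntegrallyClosed_iff k]
  intro x hx
  refine ⟨⟨x, fun v hv => ?_⟩, rfl⟩
  obtain ⟨p, hp, hpx⟩ := hx
  let j : S.integer k →+* (v.valuation k).valuationSubring :=
    { toFun := fun a => ⟨a, a.2 v hv⟩
      map_one' := rfl
      map_mul' := fun _ _ => rfl
      map_zero' := rfl
      map_add' := fun _ _ => rfl }
  have h1 : IsIntegral (v.valuation k).valuationSubring x := by
    refine ⟨p.map j, hp.map j, ?_⟩
    rw [Polynomial.eval₂_map]
    exact hpx
  obtain ⟨y, hy⟩ := IsIntegrallyClosed.isIntegral_iff.1 h1
  rw [← hy]
  exact y.2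

end SInt

/-- The degree valuation. -/
noncomputable def degVal (A : Type*) [CommRing A] [IsDomain A] (σ : Type*) :
    Valuation (MvPolynomial σ A) (WithZero (Multiplicative ℤ)) := by
  classical
  exact
  { toFun := fun g => if g = 0 then 0 else WithZero.exp (g.totalDegree : ℤ)
    map_zero' := by simp
    map_one' := by simp
    map_mul' := fun x y => by
      by_cases hx : x = 0
      · simp [hx]
      by_cases hy : y = 0
      · simp [hy]
      rw [if_neg hx, if_neg hy, if_neg (mul_ne_zero hx hy), totalDegree_mul_of_isDomain hx hy,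
        Nat.cast_add, WithZero.exp_add]
    map_add_le_max' := fun x y => by
      by_cases hx : x = 0
      · simp [hx]
      by_cases hy : y = 0
      · simp [hy]
      by_cases hxy : x + y = 0
      · simp [hxy]
      rw [if_neg hx, if_neg hy, if_neg hxy, le_max_iff, WithZero.exp_le_exp, WithZero.exp_le_exp,
        Nat.cast_le, Nat.cast_le, ← le_max_iff]
      exact totalDegree_add x y }

lemma degVal_apply {A : Type*} [CommRing A] [IsDomain A] {σ : Type*} {g : MvPolynomial σ A}
    (hg : g ≠ 0) : degVal A σ g = WithZero.exp (g.totalDegree : ℤ) := by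
  classical
  show (if g = 0 then 0 else WithZero.exp (g.totalDegree : ℤ)) = _
  rw [if_neg hg]

/-- The place at infinity of a rational function field over a domain. -/
lemma exists_degree_place (A : Type*) [CommRing A] [IsDomain A] (σ K : Type*) [Field K]
    [Algebra (MvPolynomial σ A) K] [IsFractionRing (MvPolynomial σ A) K] :
    ∃ O : ValuationSubring K, ∀ g b : MvPolynomial σ A, g ≠ 0 → b ≠ 0 →
      (algebraMap _ K g / algebraMap _ K b ∈ O ↔ g.totalDegree ≤ b.totalDegree) := by
  have hS : nonZeroDivisors (MvPolynomial σ A) ≤ (degVal A σ).supp.primeCompl := by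
    intro x hx h
    have hx0 : x ≠ 0 := nonZeroDivisors.ne_zero hx
    have h' : degVal A σ x = 0 := h
    rw [degVal_apply hx0] at h'
    exact WithZero.coe_ne_zero h'
  refine ⟨((degVal A σ).extendToLocalization hS K).valuationSubring, fun g b hg hb => ?_⟩
  rw [Valuation.mem_valuationSubring_iff, map_div₀, Valuation.extendToLocalization_apply_map_apply,
    Valuation.extendToLocalization_apply_map_apply, degVal_apply hg, degVal_apply hb,
    div_le_one₀ (WithZero.exp_pos), WithZero.exp_le_exp, Nat.cast_le]

end Pool.Agent.Helper6
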