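import Mathlib
import Pool.Agent.Helper6.RungeRing
import Pool.Agent.Helper6.RungeGauss

/-!
# Northcott finiteness, counting at Gauss places, degree bound
-/

namespace Pool.Agent.Helper6

open IsDedekindDomain NumberField

section North

variable {k : Type*} [Field k] [NumberField k]

lemma northcott_aux (S : Set (HeightOneSpectrum (𝓞 k))) (hS : S.Finite)
    (a : HeightOneSpectrum (𝓞 k) → k) :
    ∃ b : 𝓞 k, b ≠ 0 ∧ ∀ v ∈ S, v.valuation k ((b : k) * a v) ≤ 1 := by
  classical
  have h1 : ∀ v : HeightOneSpectrum (𝓞 k), ∃ d : 𝓞 k, d ≠ 0 ∧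
      v.valuation k ((d : k) * a v) ≤ 1 := by
    intro v
    obtain ⟨x, y, hy, hxy⟩ := IsFractionRing.div_surjective (A := 𝓞 k) (a v)
    have hy0 : y ≠ 0 := nonZeroDivisors.ne_zero hy
    refine ⟨y, hy0, ?_⟩
    have hy1 : (algebraMap (𝓞 k) k y) ≠ 0 := by
      simpa using hy0
    rw [← hxy, mul_div_cancel₀ _ hy1]
    exact v.valuation_le_one x
  choose d hd0 hd using h1
  refine ⟨∏ v ∈ hS.toFinset, d v, Finset.prod_ne_zero_iff.2 fun v _ => hd0 v, fun v hv => ?_⟩
  rw [← Finset.mul_prod_erase hS.toFinset d (hS.mem_toFinset.2 hv)]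
  have h2 : ((d v * ∏ x ∈ hS.toFinset.erase v, d x : 𝓞 k) : k) * a v =
      ((d v : k) * a v) * algebraMap (𝓞 k) k (∏ x ∈ hS.toFinset.erase v, d x) := by
    have h3 : ((d v * ∏ x ∈ hS.toFinset.erase v, d x : 𝓞 k) : k) =
        (d v : k) * algebraMap (𝓞 k) k (∏ x ∈ hS.toFinset.erase v, d x) :=
      map_mul (algebraMap (𝓞 k) k) _ _
    rw [h3]
    ring
  rw [h2, map_mul]
  exact mul_le_one' (hd v) (v.valuation_le_one _)

lemma northcott (S : Set (HeightOneSpectrum (𝓞 k))) (hS : S.Finite) (C : InfinitePlace k → ℝ)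
    (a : HeightOneSpectrum (𝓞 k) → k) (ha : ∀ v ∈ S, a v ≠ 0) :
    {x : k | x ∈ S.integer k ∧ (∀ v : InfinitePlace k, v x ≤ C v) ∧
      ∀ v ∈ S, v.valuation k (x / a v) ≤ 1}.Finite := by
  classical
  obtain ⟨b, hb0, hb⟩ := northcott_aux S hS a
  have hbk : (b : k) ≠ 0 := by simpa using hb0
  set C' : ℝ := ∑ v : InfinitePlace k, v b * |C v| with hC'
  have hfin := NumberField.Embeddings.finite_of_norm_le k ℂ C'
  refine (hfin.preimage (f := fun x : k => (b : k) * x)
    (fun x _ y _ h => mul_left_cancel₀ hbk h)).subset ?_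
  rintro x ⟨hxS, hxC, hxa⟩
  refine ⟨?_, ?_⟩
  · have h1 : (b : k) * x ∈ (algebraMap (𝓞 k) k).range := by
      apply HeightOneSpectrum.mem_integers_of_valuation_le_one
      intro v
      by_cases hv : v ∈ S
      · have h2 : (b : k) * x = ((b : k) * a v) * (x / a v) := by
          field_simp [ha v hv]
        rw [h2, map_mul]
        exact mul_le_one' (hb v hv) (hxa v hv)
      · rw [map_mul]
        exact mul_le_one' (v.valuation_le_one b) (hxS v hv)
    obtain ⟨z, hz⟩ := h1
    show IsIntegral ℤ ((b : k) * x)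
    rw [← hz]
    exact z.2
  · intro φ
    show ‖φ ((b : k) * x)‖ ≤ C'
    have h1 : ‖φ ((b : k) * x)‖ = (InfinitePlace.mk φ) ((b : k) * x) := rfl
    rw [h1, map_mul, hC']
    refine le_trans ?_ (Finset.single_le_sum (f := fun v : InfinitePlace k => v b * |C v|)
      (fun v _ => by positivity) (Finset.mem_univ (InfinitePlace.mk φ)))
    exact mul_le_mul_of_nonneg_left ((hxC _).trans (le_abs_self _)) (apply_nonneg _ _)

end North

lemma finite_mvPolynomial {A : Type*} [CommRing A] (e D₀ : ℕ) (X : Set A) (hX : X.Finite) :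
    {g : MvPolynomial (Fin e) A | g.totalDegree ≤ D₀ ∧ ∀ u, g.coeff u ∈ X}.Finite := by
  classical
  have hU : {u : Fin e →₀ ℕ | u.degree ≤ D₀}.Finite := Finsupp.finite_of_degree_le D₀
  have : Finite {u : Fin e →₀ ℕ | u.degree ≤ D₀} := hU.to_subtype
  have hpi : (Set.pi Set.univ
      (fun _ : {u : Fin e →₀ ℕ | u.degree ≤ D₀} => X)).Finite := Set.Finite.pi fun _ => hX
  have hinj : Set.InjOn (fun (g : MvPolynomial (Fin e) A) (u : {u : Fin e →₀ ℕ | u.degree ≤ D₀}) =>
      g.coeff (u : Fin e →₀ ℕ)) {g | g.totalDegree ≤ D₀} := by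
    intro g hg g' hg' h
    ext u
    by_cases hu : u.degree ≤ D₀
    · exact congrFun h ⟨u, hu⟩
    · have h1 : ∀ p : MvPolynomial (Fin e) A, p.totalDegree ≤ D₀ → p.coeff u = 0 := by
        intro p hp
        by_contra hne
        exact hu ((MvPolynomial.le_totalDegree (MvPolynomial.mem_support_iff.2 hne)).trans hp)
      rw [h1 g hg, h1 g' hg']
  refine Set.Finite.of_finite_image (hpi.subset ?_) (hinj.mono fun g hg => hg.1)
  rintro _ ⟨g, hg, rfl⟩
  exact fun u _ => hg.2 u

lemma finite_polynomial {R : Type*} [CommRing R] (δ : ℕ) (G : Set R) (hG : G.Finite) :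
    {Q : Polynomial R | Q.natDegree ≤ δ ∧ ∀ l, Q.coeff l ∈ G}.Finite := by
  classical
  have hpi : (Set.pi Set.univ (fun _ : Fin (δ + 1) => G)).Finite := Set.Finite.pi fun _ => hG
  have hinj : Set.InjOn (fun (Q : Polynomial R) (l : Fin (δ + 1)) => Q.coeff l)
      {Q | Q.natDegree ≤ δ} := by
    intro g hg g' hg' h
    ext l
    by_cases hl : l ≤ δ
    · exact congrFun h ⟨l, by omega⟩
    · rw [Polynomial.coeff_eq_zero_of_natDegree_lt (lt_of_le_of_lt hg (not_le.1 hl)),
        Polynomial.coeff_eq_zero_of_natDegree_lt (lt_of_le_of_lt hg' (not_le.1 hl))]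
  refine Set.Finite.of_finite_image (hpi.subset ?_) (hinj.mono fun g hg => hg.1)
  rintro _ ⟨g, hg, rfl⟩
  exact fun u _ => hg.2 u

section Places

open Polynomial

attribute [local instance] MvPolynomial.algebraMvPolynomial in
/-- The polynomial ring over the fraction field of the constants inside the fraction field. -/
lemma exists_constants (A k K : Type*) [CommRing A] [IsDomain A] [Field k] [Algebra A k]
    [IsFractionRing A k] [Field K] (e : ℕ) [Algebra (MvPolynomial (Fin e) A) K]
    [IsFractionRing (MvPolynomial (Fin e) A) K] :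
    ∃ j : MvPolynomial (Fin e) k →+* K, Function.Injective j ∧
      ∀ g : MvPolynomial (Fin e) A, j (MvPolynomial.map (algebraMap A k) g) = algebraMap _ K g := by
  have hinj : Function.Injective
      ((algebraMap (MvPolynomial (Fin e) A) K).comp
        (MvPolynomial.C : A →+* MvPolynomial (Fin e) A)) :=
    (IsFractionRing.injective _ K).comp (MvPolynomial.C_injective _ _)
  set κ₀ : k →+* K := IsFractionRing.lift hinj with hκ₀
  have hκ : ∀ a : A, κ₀ (algebraMap A k a) =
      algebraMap (MvPolynomial (Fin e) A) K (MvPolynomial.C a) := fun a => by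
    rw [hκ₀, IsFractionRing.lift_algebraMap]; rfl
  set j : MvPolynomial (Fin e) k →+* K :=
    MvPolynomial.eval₂Hom κ₀ (fun i => algebraMap (MvPolynomial (Fin e) A) K (MvPolynomial.X i))
    with hj
  have hjmap : ∀ g : MvPolynomial (Fin e) A,
      j (MvPolynomial.map (algebraMap A k) g) = algebraMap _ K g := by
    have h1 : j.comp (MvPolynomial.map (algebraMap A k)) =
        algebraMap (MvPolynomial (Fin e) A) K := by
      apply MvPolynomial.ringHom_ext
      · intro a
        rw [RingHom.comp_apply, MvPolynomial.map_C, hj, MvPolynomial.eval₂Hom_C, hκ]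
      · intro i
        rw [RingHom.comp_apply, MvPolynomial.map_X, hj, MvPolynomial.eval₂Hom_X']
    intro g
    rw [← h1]; rfl
  refine ⟨j, ?_, hjmap⟩
  rw [injective_iff_map_eq_zero]
  intro g hg
  obtain ⟨⟨x, y⟩, hxy⟩ := IsLocalization.surj
    ((nonZeroDivisors A).map (MvPolynomial.C (σ := Fin e))) g
  change g * MvPolynomial.map (algebraMap A k) (y : MvPolynomial (Fin e) A) =
    MvPolynomial.map (algebraMap A k) x at hxy
  have h1 : algebraMap (MvPolynomial (Fin e) A) K x = 0 := by
    rw [← hjmap, ← hxy, map_mul, hg, zero_mul]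
  have h2 : x = 0 := by
    apply IsFractionRing.injective (MvPolynomial (Fin e) A) K
    rw [h1, map_zero]
  rw [h2, map_zero] at hxy
  obtain ⟨c, hc, hcy⟩ := y.2
  have hc0 : c ≠ 0 := nonZeroDivisors.ne_zero hc
  rcases mul_eq_zero.1 hxy with h | h
  · exact h
  · exfalso
    rw [← hcy, MvPolynomial.map_C, MvPolynomial.C_eq_zero] at h
    exact hc0 (IsFractionRing.injective A k (h.trans (map_zero _).symm))

end Places

end Pool.Agent.Helper6
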