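import Mathlib
import Pool.Agent.Helper6.RungeNorth
import Pool.Agent.Helper6.RungeArch

/-!
# Degree bound and counting at Gauss places
-/

namespace Pool.Agent.Helper6

open Polynomial

section Places

variable {K Ω : Type*} [Field K] [Field Ω] [IsAlgClosed Ω] [Algebra K Ω]
  [Algebra.IsAlgebraic K Ω]

/-- Bounded roots at an extended valuation ring bound the coefficients. -/
lemma coeff_bound_of_place (O : ValuationSubring K) (O' : ValuationSubring Ω)
    (hO' : ∀ x, algebraMap K Ω x ∈ O' ↔ x ∈ O) (B : O'.ValueGroup) (hB : 1 ≤ B) (δ : ℕ) :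
    ∃ b : K, b ≠ 0 ∧ ∀ p : K[X], p.Monic → p.natDegree ≤ δ →
      (∀ y, (p.map (algebraMap K Ω)).IsRoot y → (qvalOf O').v y ≤ B) →
      ∀ l, p.coeff l / b ∈ O := by
  obtain ⟨b, hb0, hb⟩ := exists_dominate (K := K) O' (B ^ δ)
  refine ⟨b, hb0, fun p hp hdeg hroots l => ?_⟩
  have h1 := (qvalOf O').coeff_le_of_roots _ (hp.map (algebraMap K Ω)) hB hroots l
  have hc : (qvalOf O').c = 1 := rfl
  rw [hc, one_mul, hp.natDegree_map, coeff_map, qvalOf_v] at h1
  have h2 : O'.valuation (algebraMap K Ω (p.coeff l)) ≤ O'.valuation (algebraMap K Ω b) :=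
    (h1.trans (pow_le_pow_right' hB hdeg)).trans hb
  rw [← hO', ← O'.valuation_le_one_iff, map_div₀, map_div₀]
  exact div_le_one_of_le₀ h2 zero_le

/-- Bounded roots at the degree place bound the degrees of the coefficients. -/
lemma degree_bound {A : Type*} [CommRing A] [IsDomain A] {e : ℕ}
    [Algebra (MvPolynomial (Fin e) A) K] [IsFractionRing (MvPolynomial (Fin e) A) K]
    (O : ValuationSubring K)
    (hO : ∀ g b : MvPolynomial (Fin e) A, g ≠ 0 → b ≠ 0 →
      (algebraMap _ K g / algebraMap _ K b ∈ O ↔ g.totalDegree ≤ b.totalDegree))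
    (O' : ValuationSubring Ω)
    (hO' : ∀ x, algebraMap K Ω x ∈ O' ↔ x ∈ O) (B : O'.ValueGroup) (hB : 1 ≤ B) (δ : ℕ) :
    ∃ D₀ : ℕ, ∀ Q : (MvPolynomial (Fin e) A)[X], Q.Monic → Q.natDegree ≤ δ →
      (∀ y, ((Q.map (algebraMap _ K)).map (algebraMap K Ω)).IsRoot y → (qvalOf O').v y ≤ B) →
      ∀ l, (Q.coeff l).totalDegree ≤ D₀ := by
  obtain ⟨b, hb0, hb⟩ := coeff_bound_of_place O O' hO' B hB δ
  obtain ⟨x, y, hy, hxy⟩ := IsFractionRing.div_surjective (A := MvPolynomial (Fin e) A) b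
  have hy0 : y ≠ 0 := nonZeroDivisors.ne_zero hy
  have hx0 : x ≠ 0 := by
    rintro rfl
    rw [map_zero, zero_div] at hxy
    exact hb0 hxy.symm
  have hinj := IsFractionRing.injective (MvPolynomial (Fin e) A) K
  have hyK : algebraMap (MvPolynomial (Fin e) A) K y ≠ 0 := fun h =>
    hy0 (hinj (h.trans (map_zero _).symm))
  have hxK : algebraMap (MvPolynomial (Fin e) A) K x ≠ 0 := fun h =>
    hx0 (hinj (h.trans (map_zero _).symm))
  refine ⟨x.totalDegree, fun Q hQ hdeg hroots l => ?_⟩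
  by_cases hg : Q.coeff l = 0
  · rw [hg, MvPolynomial.totalDegree_zero]; exact Nat.zero_le _
  have h1 := hb (Q.map (algebraMap _ K)) (hQ.map _) (by rwa [hQ.natDegree_map]) hroots l
  rw [coeff_map, ← hxy] at h1
  have h2 : algebraMap (MvPolynomial (Fin e) A) K (Q.coeff l) / (algebraMap _ K x / algebraMap _ K y) =
      algebraMap _ K (Q.coeff l * y) / algebraMap _ K x := by
    rw [map_mul]
    field_simp
  rw [h2, hO _ _ (mul_ne_zero hg hy0) hx0, MvPolynomial.totalDegree_mul_of_isDomain hg hy0] at h1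
  exact (Nat.le_add_right _ _).trans h1

/-- Counting at Gauss places. -/
lemma gauss_count {A k P : Type*} [CommRing A] [IsDomain A] [Field k] [Algebra A k]
    [IsFractionRing A k] {e : ℕ}
    [Algebra (MvPolynomial (Fin e) A) K] [IsFractionRing (MvPolynomial (Fin e) A) K]
    (Ov : ValuationSubring k)
    {r N δ : ℕ} {J : Fin r → Type*} (Q : P → ∀ i, J i → (MvPolynomial (Fin e) A)[X])
    (hmon : ∀ φ i j, (Q φ i j).Monic) (hnat : ∀ φ i j, (Q φ i j).natDegree ≤ δ)
    (hcount : ∀ O' : ValuationSubring Ω, ∃ B : O'.ValueGroup, 1 ≤ B ∧ ∀ φ,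
      {i | ∃ j, ∃ y, ((Q φ i j).map ((algebraMap K Ω).comp (algebraMap _ K))).IsRoot y ∧
        B < (qvalOf O').v y}.ncard ≤ N) :
    ∃ a : k, a ≠ 0 ∧ ∀ φ,
      {i | ∃ j l u, algebraMap A k (((Q φ i j).coeff l).coeff u) / a ∉ Ov}.ncard ≤ N := by
  obtain ⟨j, hj, hjmap⟩ := exists_constants A k K e
  obtain ⟨O, hO1, hO2⟩ := exists_gauss Ov j hj
  obtain ⟨O', hO'⟩ := exists_extension (Ω := Ω) O
  obtain ⟨B, hB1, hB⟩ := hcount O'
  obtain ⟨b, hb0, hb⟩ := coeff_bound_of_place O O' hO' B hB1 δ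
  obtain ⟨x, y, hy, hxy⟩ := IsFractionRing.div_surjective (A := MvPolynomial (Fin e) A) b
  have hy0 : y ≠ 0 := nonZeroDivisors.ne_zero hy
  have hx0 : x ≠ 0 := by
    rintro rfl
    rw [map_zero, zero_div] at hxy
    exact hb0 hxy.symm
  have hminj : Function.Injective (MvPolynomial.map (σ := Fin e) (algebraMap A k)) :=
    MvPolynomial.map_injective _ (IsFractionRing.injective A k)
  have hmx : MvPolynomial.map (algebraMap A k) x ≠ 0 := fun h =>
    hx0 (hminj (h.trans (map_zero _).symm))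
  have hmy : MvPolynomial.map (algebraMap A k) y ≠ 0 := fun h =>
    hy0 (hminj (h.trans (map_zero _).symm))
  obtain ⟨a₁, ha₁, h1, h1'⟩ := hO2 _ hmx
  obtain ⟨a₂, ha₂, h2, h2'⟩ := hO2 _ hmy
  have hj0 : ∀ g : MvPolynomial (Fin e) k, g ≠ 0 → j g ≠ 0 := fun g hg h =>
    hg (hj (h.trans (map_zero _).symm))
  have hjC : ∀ c : k, c ≠ 0 → j (MvPolynomial.C c) ≠ 0 := fun c hc =>
    hj0 _ (fun h => hc (MvPolynomial.C_eq_zero.1 h))
  refine ⟨a₁ / a₂, div_ne_zero ha₁ ha₂, fun φ => ?_⟩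
  refine le_trans (Set.ncard_le_ncard ?_ (Set.toFinite _)) (hB φ)
  rintro i ⟨t, l, u, hu⟩
  by_contra hcon
  apply hu
  have h3 := hb ((Q φ i t).map (algebraMap _ K)) ((hmon φ i t).map _)
    (by rw [(hmon φ i t).natDegree_map]; exact hnat φ i t) (by
      intro z hz
      by_contra hz2
      rw [not_le] at hz2
      rw [Polynomial.map_map] at hz
      exact hcon ⟨t, z, hz, hz2⟩) l
  rw [coeff_map] at h3
  have h4 := hO1 (MvPolynomial.map (algebraMap A k) ((Q φ i t).coeff l)) (a₁ / a₂)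
    (div_ne_zero ha₁ ha₂) (by
      rw [hjmap]
      have h5 : j (MvPolynomial.C (a₁ / a₂)) = j (MvPolynomial.C a₁) / j (MvPolynomial.C a₂) := by
        rw [eq_div_iff (hjC _ ha₂), ← map_mul, ← MvPolynomial.C_mul, div_mul_cancel₀ _ ha₂]
      have h6 : algebraMap _ K ((Q φ i t).coeff l) / j (MvPolynomial.C (a₁ / a₂)) =
          (algebraMap _ K ((Q φ i t).coeff l) / b) *
          ((j (MvPolynomial.map (algebraMap A k) x) / j (MvPolynomial.C a₁)) *
            (j (MvPolynomial.C a₂) / j (MvPolynomial.map (algebraMap A k) y))) := by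
        rw [h5, ← hxy, ← hjmap x, ← hjmap y]
        have e1 := hj0 _ hmx
        have e2 := hj0 _ hmy
        have e3 := hjC _ ha₁
        have e4 := hjC _ ha₂
        field_simp
      rw [h6]
      exact O.mul_mem _ _ h3 (O.mul_mem _ _ h1 h2')) u
  rw [MvPolynomial.coeff_map] at h4
  exact h4

end Places

end Pool.Agent.Helper6
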