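import Mathlib
import Pool.Agent.Helper6.RungeCross
import Pool.Agent.Helper6.RungePlaces

/-!
# Non-density of integral points (Runge's method over finitely generated rings)
-/

namespace Pool.Agent.Helper6

open Polynomial IsDedekindDomain NumberField

section

variable {k : Type*} [Field k] [NumberField k] (S : Set (HeightOneSpectrum (𝓞 k)))
  (hS : S.Finite) {e : ℕ} {K Ω D : Type*} [Field K]
  [Algebra (MvPolynomial (Fin e) (S.integer k)) K]
  [IsFractionRing (MvPolynomial (Fin e) (S.integer k)) K] [Field Ω] [IsAlgClosed Ω]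
  [Algebra (MvPolynomial (Fin e) (S.integer k)) Ω] [Algebra K Ω]
  [IsScalarTower (MvPolynomial (Fin e) (S.integer k)) K Ω] [Algebra.IsAlgebraic K Ω]
  [CommRing D] [IsDomain D] [Algebra (MvPolynomial (Fin e) (S.integer k)) D]
  [Algebra.FiniteType (MvPolynomial (Fin e) (S.integer k)) D]

include hS

/-- Generic embeddings for rings of `S`-integers. -/
lemma exists_generic_sInteger {e : ℕ} (σ : k →+* ℂ) (M : ℕ) :
    ∃ t : Fin e × Fin M → ℂ, Function.Injective
      (MvPolynomial.eval₂Hom (σ.comp (algebraMap (S.integer k) k)) t :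
        MvPolynomial (Fin e × Fin M) (S.integer k) →+* ℂ) := by
  obtain ⟨t, ht⟩ := exists_generic σ (Fin e × Fin M)
  refine ⟨t, ?_⟩
  have h1 : (MvPolynomial.eval₂Hom (σ.comp (algebraMap (S.integer k) k)) t :
        MvPolynomial (Fin e × Fin M) (S.integer k) →+* ℂ) =
      (MvPolynomial.eval₂Hom σ t).comp (MvPolynomial.map (algebraMap (S.integer k) k)) := by
    apply MvPolynomial.ringHom_ext
    · intro a; simp
    · intro i; simp
  rw [h1]
  exact ht.comp (MvPolynomial.map_injective _ (IsFractionRing.injective (S.integer k) k))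

theorem nondense (hRD : Function.Injective (algebraMap (MvPolynomial (Fin e) (S.integer k)) D))
    (hnalg : ¬ Algebra.IsAlgebraic (MvPolynomial (Fin e) (S.integer k)) D)
    {m r : ℕ} {n : Fin r → ℕ} (f : ∀ i, Fin (n i) → D) (δ : ℕ)
    (hr : m * (δ * (Fintype.card (InfinitePlace k) + S.ncard)) < r)
    (halg : ∀ i, Algebra.IsAlgebraic
      (Algebra.adjoin (MvPolynomial (Fin e) (S.integer k)) (Set.range (f i))) D)
    (hO : ∀ O : ValuationSubring (FractionRing D),
      (∀ a : MvPolynomial (Fin e) (S.integer k), a ≠ 0 →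
        algebraMap (MvPolynomial (Fin e) (S.integer k)) (FractionRing D) a ∈ O ∧
        (algebraMap (MvPolynomial (Fin e) (S.integer k)) (FractionRing D) a)⁻¹ ∈ O) →
      {i | ∃ j, algebraMap D (FractionRing D) (f i j) ∉ O}.ncard ≤ m) :
    ∃ g : D, g ≠ 0 ∧
      ∀ φ : D →ₐ[MvPolynomial (Fin e) (S.integer k)] Ω, IsPt K δ φ → φ g = 0 := by
  classical
  have hIC : IsIntegrallyClosed (MvPolynomial (Fin e) (S.integer k)) := isIntegrallyClosed_mvPolynomial _ _
  have hcard : 0 < Fintype.card (InfinitePlace k) := Fintype.card_pos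
  have hmδ : m * δ < r := by
    refine lt_of_le_of_lt ?_ hr
    exact Nat.mul_le_mul_left _ (Nat.le_mul_of_pos_right _ (by omega))
  -- the degree place
  obtain ⟨O₀, hO₀⟩ := exists_degree_place (S.integer k) (Fin e) K
  obtain ⟨O', hO'⟩ := exists_extension (Ω := Ω) O₀
  obtain ⟨B, hB1, hB⟩ := count (R := (MvPolynomial (Fin e) (S.integer k))) (K := K) (Ω := Ω) hRD (qvalOf O') (algebraMap K Ω) f hO δ
  have hw : ∀ c : (MvPolynomial (Fin e) (S.integer k)), c ≠ 0 → 1 ≤ (qvalOf O').v (algebraMap K Ω (algebraMap (MvPolynomial (Fin e) (S.integer k)) K c)) := by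
    intro c hc
    have h1 : algebraMap (MvPolynomial (Fin e) (S.integer k)) K 1 / algebraMap (MvPolynomial (Fin e) (S.integer k)) K c ∈ O₀ := by
      rw [hO₀ 1 c one_ne_zero hc, MvPolynomial.totalDegree_one]
      exact Nat.zero_le _
    rw [← hO', ← O'.valuation_le_one_iff, map_one, map_div₀, map_div₀, map_one, map_one,
      one_div] at h1
    rw [qvalOf_v]
    have hc' : algebraMap K Ω (algebraMap (MvPolynomial (Fin e) (S.integer k)) K c) ≠ 0 := by
      rw [Ne, map_eq_zero]
      exact fun h => hc (IsFractionRing.injective (MvPolynomial (Fin e) (S.integer k)) K (h.trans (map_zero _).symm))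
    have h2 : O'.valuation (algebraMap K Ω (algebraMap (MvPolynomial (Fin e) (S.integer k)) K c)) ≠ 0 :=
      (Valuation.ne_zero_iff _).2 hc'
    exact (inv_le_one₀ (zero_lt_iff.2 h2)).1 h1
  choose g₁ hg₁ B₁ hB₁1 hB₁ using fun (i₀ : Fin r) (i : Fin r) (j : Fin (n i)) =>
    cross (R := (MvPolynomial (Fin e) (S.integer k))) (K := K) (Ω := Ω) (qvalOf O') (algebraMap K Ω) hw (f i₀) (halg i₀) (f i j) δ B
  obtain ⟨B₂, hB₂1, hB₂⟩ : ∃ B₂ : O'.ValueGroup, 1 ≤ B₂ ∧ ∀ i₀ i j, B₁ i₀ i j ≤ B₂ := by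
    let s : Finset (Σ _ : Fin r, Σ i : Fin r, Fin (n i)) := Finset.univ
    by_cases hs : s.Nonempty
    · obtain ⟨x, hx, hmax⟩ := s.exists_max_image (fun x => B₁ x.1 x.2.1 x.2.2) hs
      exact ⟨B₁ x.1 x.2.1 x.2.2, hB₁1 _ _ _,
        fun i₀ i j => hmax ⟨i₀, i, j⟩ (Finset.mem_univ _)⟩
    · refine ⟨1, le_rfl, fun i₀ i j => ?_⟩
      exact absurd ⟨⟨i₀, i, j⟩, Finset.mem_univ _⟩ hs
  obtain ⟨D₀, hD₀⟩ := degree_bound (A := S.integer k) (e := e) (K := K) O₀ hO₀ O' hO' B₂ hB₂1 δ
  set G₁ : D := ∏ i₀ : Fin r, ∏ i : Fin r, ∏ j : Fin (n i), g₁ i₀ i j with hG₁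
  have hG₁0 : G₁ ≠ 0 := by
    rw [hG₁]
    exact Finset.prod_ne_zero_iff.2 fun i₀ _ => Finset.prod_ne_zero_iff.2 fun i _ =>
      Finset.prod_ne_zero_iff.2 fun j _ => hg₁ i₀ i j
  have hG₁z : ∀ (φ : D →ₐ[MvPolynomial (Fin e) (S.integer k)] Ω) i₀ i j, φ (g₁ i₀ i j) = 0 → φ G₁ = 0 := by
    intro φ i₀ i j h
    rw [hG₁, map_prod]
    refine Finset.prod_eq_zero (Finset.mem_univ i₀) ?_
    rw [map_prod]
    refine Finset.prod_eq_zero (Finset.mem_univ i) ?_
    rw [map_prod]
    exact Finset.prod_eq_zero (Finset.mem_univ j) h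
  clear_value G₁
  -- the points outside G₁
  let P := {φ : D →ₐ[MvPolynomial (Fin e) (S.integer k)] Ω // IsPt K δ φ ∧ φ G₁ ≠ 0}
  let Q : P → ∀ i, Fin (n i) → (MvPolynomial (Fin e) (S.integer k))[X] := fun φ i j => minpoly (MvPolynomial (Fin e) (S.integer k)) (φ.1 (f i j))
  have hint : ∀ (φ : P) (a : D), IsIntegral (MvPolynomial (Fin e) (S.integer k)) (φ.1 a) := fun φ a => φ.2.1.1 a
  have hQK : ∀ (φ : P) i j, (Q φ i j).map (algebraMap (MvPolynomial (Fin e) (S.integer k)) K) = minpoly K (φ.1 (f i j)) :=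
    fun φ i j => (minpoly.isIntegrallyClosed_eq_field_fractions' K (hint φ _)).symm
  have hmon : ∀ φ i j, (Q φ i j).Monic := fun φ i j => minpoly.monic (hint φ _)
  have hnat : ∀ φ i j, (Q φ i j).natDegree ≤ δ := fun φ i j => by
    rw [← (hmon φ i j).natDegree_map (algebraMap (MvPolynomial (Fin e) (S.integer k)) K), hQK]
    exact natDegree_minpoly_le φ.1 φ.2.1 _
  have hdeg : ∀ φ i j l, ((Q φ i j).coeff l).totalDegree ≤ D₀ := by
    intro φ i j
    -- a good index at the degree place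
    obtain ⟨i₀, hi₀⟩ : ∃ i₀ : Fin r, i₀ ∉ {i | ∃ j, ∃ y,
        ((minpoly K (φ.1 (f i j))).map (algebraMap K Ω)).IsRoot y ∧ B < (qvalOf O').v y} := by
      by_contra hcon
      push Not at hcon
      have h1 : {i | ∃ j, ∃ y, ((minpoly K (φ.1 (f i j))).map (algebraMap K Ω)).IsRoot y ∧
          B < (qvalOf O').v y} = Set.univ := Set.eq_univ_of_forall hcon
      have h2 := hB φ.1 φ.2.1
      rw [h1, Set.ncard_univ, Nat.card_eq_fintype_card, Fintype.card_fin] at h2
      omega
    have hφg : φ.1 (g₁ i₀ i j) ≠ 0 := fun h => φ.2.2 (hG₁z φ.1 i₀ i j h)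
    refine hD₀ (Q φ i j) (hmon φ i j) (hnat φ i j) ?_
    rw [hQK]
    intro y hy
    refine (hB₁ i₀ i j φ.1 φ.2.1 hφg (fun j' y' hy' => ?_) y hy).trans (hB₂ _ _ _)
    by_contra hlt
    rw [not_le] at hlt
    exact hi₀ ⟨j', y', hy', hlt⟩
  -- archimedean places
  have harch : ∀ v : InfinitePlace k, ∃ C : ℝ, ∀ φ : P,
      {i | ∃ j l u, C < ‖(v.embedding.comp (algebraMap (S.integer k) k))
        (((Q φ i j).coeff l).coeff u)‖}.ncard ≤ m * δ := by
    intro v
    refine arch_count (K := K) (v.embedding.comp (algebraMap (S.integer k) k))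
      (exists_generic_sInteger S hS v.embedding) Q hmon hnat hdeg ?_
    intro ι
    obtain ⟨B, hB1, hB⟩ := count (R := (MvPolynomial (Fin e) (S.integer k))) (K := K) (Ω := Ω) hRD qvalC ι f hO δ
    refine ⟨B, hB1, fun φ => ?_⟩
    have h1 := hB φ.1 φ.2.1
    simp_rw [← Polynomial.map_map, hQK]
    exact h1
  -- Gauss places
  have hgauss : ∀ v : HeightOneSpectrum (𝓞 k), ∃ a : k, a ≠ 0 ∧ ∀ φ : P,
      {i | ∃ j l u, algebraMap (S.integer k) k (((Q φ i j).coeff l).coeff u) / a ∉
        (v.valuation k).valuationSubring}.ncard ≤ m * δ := by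
    intro v
    refine gauss_count (K := K) (Ω := Ω) (v.valuation k).valuationSubring Q hmon hnat ?_
    intro O'
    obtain ⟨B, hB1, hB⟩ := count (R := (MvPolynomial (Fin e) (S.integer k))) (K := K) (Ω := Ω) hRD (qvalOf O') (algebraMap K Ω)
      f hO δ
    refine ⟨B, hB1, fun φ => ?_⟩
    have h1 := hB φ.1 φ.2.1
    simp_rw [← Polynomial.map_map, hQK]
    exact h1
  choose C hC using harch
  choose a ha0 ha using hgauss
  -- the finite set of coefficients
  have hX := northcott S hS C a (fun v _ => ha0 v)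
  have hX' := hX.preimage (f := algebraMap (S.integer k) k)
    (IsFractionRing.injective (S.integer k) k).injOn
  have hG := finite_mvPolynomial e D₀ _ hX'
  have hPoly := finite_polynomial δ _ hG
  -- transcendental elements
  have htr : ∀ i, ∃ j, Transcendental (MvPolynomial (Fin e) (S.integer k)) (f i j) := by
    intro i
    by_contra hcon
    push Not at hcon
    apply hnalg
    have h1 : ∀ x ∈ Set.range (f i), IsAlgebraic (MvPolynomial (Fin e) (S.integer k)) x := by
      rintro _ ⟨j, rfl⟩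
      exact not_not.1 (hcon j)
    have h2 : Algebra.IsAlgebraic (MvPolynomial (Fin e) (S.integer k)) (Algebra.adjoin (MvPolynomial (Fin e) (S.integer k)) (Set.range (f i))) :=
      (Subalgebra.isAlgebraic_iff _).1 (Algebra.isAlgebraic_adjoin_iff.2 h1)
    have h3 := halg i
    exact Algebra.IsAlgebraic.trans (MvPolynomial (Fin e) (S.integer k)) (Algebra.adjoin (MvPolynomial (Fin e) (S.integer k)) (Set.range (f i))) D
  choose jt hjt using htr
  set G₂ : D := ∏ i : Fin r, ∏ q ∈ hPoly.toFinset, (if q = 0 then 1 else aeval (f i (jt i)) q)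
    with hG₂
  have hG₂0 : G₂ ≠ 0 := by
    rw [hG₂]
    refine Finset.prod_ne_zero_iff.2 fun i _ => Finset.prod_ne_zero_iff.2 fun q _ => ?_
    split_ifs with hq
    · exact one_ne_zero
    · exact fun h => (transcendental_iff.1 (hjt i)) q h |> hq
  refine ⟨G₁ * G₂, mul_ne_zero hG₁0 hG₂0, fun φ₀ hφ₀ => ?_⟩
  rw [map_mul]
  by_cases hφG : φ₀ G₁ = 0
  · rw [hφG, zero_mul]
  let φ : P := ⟨φ₀, hφ₀, hφG⟩
  -- a good index at all places
  let badv : InfinitePlace k → Set (Fin r) := fun v =>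
    {i | ∃ j l u, C v < ‖(v.embedding.comp (algebraMap (S.integer k) k))
        (((Q φ i j).coeff l).coeff u)‖}
  let badp : HeightOneSpectrum (𝓞 k) → Set (Fin r) := fun v =>
    {i | ∃ j l u, algebraMap (S.integer k) k (((Q φ i j).coeff l).coeff u) / a v ∉
        (v.valuation k).valuationSubring}
  obtain ⟨i, hi1, hi2⟩ : ∃ i : Fin r, (∀ v, i ∉ badv v) ∧ ∀ v ∈ S, i ∉ badp v := by
    by_contra hcon
    push Not at hcon
    have hcov : (Set.univ : Set (Fin r)) ⊆ (⋃ v ∈ (Finset.univ : Finset (InfinitePlace k)),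
        badv v) ∪ ⋃ v ∈ hS.toFinset, badp v := by
      intro i _
      by_cases h : ∀ v, i ∉ badv v
      · obtain ⟨v, hv, hiv⟩ := hcon i h
        right
        simp only [Set.Finite.mem_toFinset, Set.mem_iUnion]
        exact ⟨v, hv, hiv⟩
      · push Not at h
        obtain ⟨v, hv⟩ := h
        left
        simp only [Finset.mem_univ, Set.iUnion_true, Set.mem_iUnion]
        exact ⟨v, hv⟩
    have h1 := Set.ncard_le_ncard hcov (Set.toFinite _)
    rw [Set.ncard_univ, Nat.card_eq_fintype_card, Fintype.card_fin] at h1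
    have h2 := h1.trans (Set.ncard_union_le _ _)
    have h3 : (⋃ v ∈ (Finset.univ : Finset (InfinitePlace k)), badv v).ncard ≤
        Fintype.card (InfinitePlace k) * (m * δ) := by
      refine (Finset.set_ncard_biUnion_le _ _).trans ?_
      refine (Finset.sum_le_card_nsmul _ _ (m * δ) (fun v _ => hC v φ)).trans ?_
      rw [smul_eq_mul, Finset.card_univ]
    have h4 : (⋃ v ∈ hS.toFinset, badp v).ncard ≤ S.ncard * (m * δ) := by
      refine (Finset.set_ncard_biUnion_le _ _).trans ?_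
      refine (Finset.sum_le_card_nsmul _ _ (m * δ) (fun v _ => ha v φ)).trans ?_
      rw [smul_eq_mul, Set.ncard_eq_toFinset_card S hS]
    have h5 : r ≤ m * (δ * (Fintype.card (InfinitePlace k) + S.ncard)) := by
      calc r ≤ Fintype.card (InfinitePlace k) * (m * δ) + S.ncard * (m * δ) :=
            h2.trans (Nat.add_le_add h3 h4)
        _ = m * (δ * (Fintype.card (InfinitePlace k) + S.ncard)) := by ring
    omega
  have hmem : Q φ i (jt i) ∈ hPoly.toFinset := by
    rw [Set.Finite.mem_toFinset]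
    refine ⟨hnat _ _ _, fun l => ⟨hdeg _ _ _ _, fun u => ?_⟩⟩
    refine ⟨(((Q φ i (jt i)).coeff l).coeff u).2, fun v => ?_, fun v hv => ?_⟩
    · by_contra hlt
      rw [not_le] at hlt
      refine hi1 v ⟨jt i, l, u, ?_⟩
      rw [← InfinitePlace.norm_embedding_eq] at hlt
      exact hlt
    · by_contra hlt
      exact hi2 v hv ⟨jt i, l, u, hlt⟩
  have hzero : φ₀ G₂ = 0 := by
    rw [hG₂, map_prod]
    refine Finset.prod_eq_zero (Finset.mem_univ i) ?_
    rw [map_prod]
    refine Finset.prod_eq_zero hmem ?_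
    rw [if_neg (hmon _ _ _).ne_zero, ← aeval_algHom_apply]
    exact minpoly.aeval (MvPolynomial (Fin e) (S.integer k)) (φ₀ (f i (jt i)))
  rw [hzero, mul_zero]

end

end Pool.Agent.Helper6
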