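import Mathlib
import Pool.Agent.Helper6.RungeMain

/-!
# Finiteness of integral points (Runge's method over finitely generated rings)
-/

namespace Pool.Agent.Helper6

open Polynomial IsDedekindDomain NumberField TensorProduct

section

/-- Points with algebraic coordinate ring: finitely many. -/
lemma finite_of_algebraic {R A Ω : Type*} [CommRing R] [IsDomain R] [CommRing A] [Algebra R A]
    [Algebra.FiniteType R A] [Field Ω] [Algebra R Ω]
    (hRΩ : Function.Injective (algebraMap R Ω)) (q : Ideal A)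
    [Algebra.IsAlgebraic R (A ⧸ q)] :
    {φ : A →ₐ[R] Ω | q ≤ RingHom.ker φ}.Finite := by
  classical
  obtain ⟨s, hs⟩ := (inferInstance : Algebra.FiniteType R A).out
  -- polynomials
  have h1 : ∀ a : A, ∃ P : R[X], P ≠ 0 ∧ aeval a P ∈ q := by
    intro a
    obtain ⟨P, hP0, hP⟩ := Algebra.IsAlgebraic.isAlgebraic (R := R) (Ideal.Quotient.mk q a)
    refine ⟨P, hP0, ?_⟩
    rw [← Ideal.Quotient.eq_zero_iff_mem]
    have h2 : aeval (Ideal.Quotient.mkₐ R q a) P = Ideal.Quotient.mkₐ R q (aeval a P) :=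
      aeval_algHom_apply _ _ _
    rw [← hP]
    exact h2.symm
  choose P hP0 hP using h1
  have hfin : (Set.pi Set.univ (fun a : s => ((P a.1).rootSet Ω))).Finite :=
    Set.Finite.pi fun a => rootSet_finite _ _
  refine Set.Finite.of_finite_image (f := fun φ : A →ₐ[R] Ω => fun a : s => φ a.1)
    (hfin.subset ?_) ?_
  · rintro _ ⟨φ, hφ, rfl⟩ a _
    rw [mem_rootSet']
    refine ⟨(Polynomial.map_ne_zero_iff hRΩ).2 (hP0 _), ?_⟩
    have h2 : φ (aeval a.1 (P a.1)) = 0 := hφ (hP _)
    rw [aeval_algHom_apply]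
    exact h2
  · intro φ _ φ' _ h
    apply AlgHom.ext_of_adjoin_eq_top hs
    intro a ha
    exact congrFun h ⟨a, ha⟩

variable {k : Type*} [Field k] [NumberField k] (S : Set (HeightOneSpectrum (𝓞 k)))
  (hS : S.Finite) {e : ℕ} {K Ω A : Type*} [Field K]
  [Algebra (MvPolynomial (Fin e) (S.integer k)) K]
  [IsFractionRing (MvPolynomial (Fin e) (S.integer k)) K] [Field Ω] [IsAlgClosed Ω]
  [Algebra (MvPolynomial (Fin e) (S.integer k)) Ω] [Algebra K Ω]
  [IsScalarTower (MvPolynomial (Fin e) (S.integer k)) K Ω] [Algebra.IsAlgebraic K Ω]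
  [CommRing A] [Algebra (MvPolynomial (Fin e) (S.integer k)) A]
  [Algebra.FiniteType (MvPolynomial (Fin e) (S.integer k)) A]

/-- Runge type. -/
def RungeType (R : Type*) [CommRing R] (D : Type*) [CommRing D] [IsDomain D] [Algebra R D]
    (ρ : ℕ) : Prop :=
  ∃ (m r : ℕ) (n : Fin r → ℕ) (f : ∀ i, Fin (n i) → D), m * ρ < r ∧
    (∀ i, Algebra.IsAlgebraic (Algebra.adjoin R (Set.range (f i))) D) ∧
    ∀ O : ValuationSubring (FractionRing D),
      (∀ a : R, a ≠ 0 → algebraMap R (FractionRing D) a ∈ O ∧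
        (algebraMap R (FractionRing D) a)⁻¹ ∈ O) →
      {i | ∃ j, algebraMap D (FractionRing D) (f i j) ∉ O}.ncard ≤ m

include hS

/-- Non-density of the points in a component of Runge type. -/
theorem nondense_quotient (δ : ℕ) (q : Ideal A) [q.IsPrime]
    (hinj : Function.Injective (algebraMap (MvPolynomial (Fin e) (S.integer k)) (A ⧸ q)))
    (hnalg : ¬ Algebra.IsAlgebraic (MvPolynomial (Fin e) (S.integer k)) (A ⧸ q))
    (hR : RungeType (MvPolynomial (Fin e) (S.integer k)) (A ⧸ q) (δ * (Fintype.card (InfinitePlace k) + S.ncard))) :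
    ∃ g : A, g ∉ q ∧ ∀ φ : A →ₐ[MvPolynomial (Fin e) (S.integer k)] Ω, IsPt K δ φ → q ≤ RingHom.ker φ → φ g = 0 := by
  obtain ⟨m, r, n, f, hr, halg, hO⟩ := hR
  obtain ⟨g, hg0, hg⟩ := nondense S hS (K := K) (Ω := Ω) hinj hnalg f δ hr halg hO
  obtain ⟨g', rfl⟩ := Ideal.Quotient.mk_surjective g
  refine ⟨g', fun h => hg0 (Ideal.Quotient.eq_zero_iff_mem.2 h), fun φ hφ hq => ?_⟩
  let φ' : (A ⧸ q) →ₐ[MvPolynomial (Fin e) (S.integer k)] Ω := Ideal.Quotient.liftₐ q φ (fun a ha => hq ha)
  have hφ' : ∀ a, φ' (Ideal.Quotient.mk q a) = φ a := fun a => rfl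
  have hrange : Set.range φ' = Set.range φ := by
    ext x
    constructor
    · rintro ⟨y, rfl⟩
      obtain ⟨a, rfl⟩ := Ideal.Quotient.mk_surjective y
      exact ⟨a, rfl⟩
    · rintro ⟨a, rfl⟩
      exact ⟨Ideal.Quotient.mk q a, rfl⟩
  rw [← hφ']
  refine hg φ' ⟨fun y => ?_, ?_⟩
  · obtain ⟨a, rfl⟩ := Ideal.Quotient.mk_surjective y
    exact hφ.1 a
  · rw [hrange]
    exact hφ.2

/-- Finiteness of integral points of bounded degree. -/
theorem finite_points (δ : ℕ)
    (hA : ∀ (q : Ideal A) [q.IsPrime], Function.Injective (algebraMap (MvPolynomial (Fin e) (S.integer k)) (A ⧸ q)) →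
      ¬ Algebra.IsAlgebraic (MvPolynomial (Fin e) (S.integer k)) (A ⧸ q) →
      RungeType (MvPolynomial (Fin e) (S.integer k)) (A ⧸ q) (δ * (Fintype.card (InfinitePlace k) + S.ncard))) :
    {φ : A →ₐ[MvPolynomial (Fin e) (S.integer k)] Ω | IsPt K δ φ}.Finite := by
  classical
  have hRΩ : Function.Injective (algebraMap (MvPolynomial (Fin e) (S.integer k)) Ω) := by
    rw [IsScalarTower.algebraMap_eq (MvPolynomial (Fin e) (S.integer k)) K Ω]
    exact (algebraMap K Ω).injective.comp (IsFractionRing.injective (MvPolynomial (Fin e) (S.integer k)) K)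
  let ext : (A →ₐ[MvPolynomial (Fin e) (S.integer k)] Ω) → (K ⊗[MvPolynomial (Fin e) (S.integer k)] A →ₐ[K] Ω) := fun φ =>
    Algebra.TensorProduct.lift (Algebra.ofId K Ω) φ (fun _ _ => mul_comm _ _)
  have hext : ∀ φ a, ext φ ((1 : K) ⊗ₜ[MvPolynomial (Fin e) (S.integer k)] a) = φ a := by
    intro φ a
    simp [ext]
  let inc : A →ₐ[MvPolynomial (Fin e) (S.integer k)] K ⊗[MvPolynomial (Fin e) (S.integer k)] A := Algebra.TensorProduct.includeRight
  have hinc : ∀ φ a, ext φ (inc a) = φ a := fun φ a => hext φ a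
  have hNoeth : IsNoetherianRing (K ⊗[MvPolynomial (Fin e) (S.integer k)] A) := Algebra.FiniteType.isNoetherianRing K _
  suffices h : ∀ J : Ideal (K ⊗[MvPolynomial (Fin e) (S.integer k)] A),
      {φ : A →ₐ[MvPolynomial (Fin e) (S.integer k)] Ω | IsPt K δ φ ∧ J ≤ RingHom.ker (ext φ)}.Finite by
    refine (h ⊥).subset fun φ hφ => ⟨hφ, bot_le⟩
  intro J
  induction J using WellFoundedGT.induction with
  | ind J ih =>
  by_cases htop : J = ⊤
  · refine Set.Finite.subset Set.finite_empty ?_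
    rintro φ ⟨_, hφ⟩
    exfalso
    rw [htop, top_le_iff] at hφ
    exact RingHom.ker_ne_top (ext φ).toRingHom hφ
  by_cases hprime : J.IsPrime
  · set q : Ideal A := J.comap inc with hq
    have hqp : q.IsPrime := Ideal.comap_isPrime _ _
    have hinj : Function.Injective (algebraMap (MvPolynomial (Fin e) (S.integer k)) (A ⧸ q)) := by
      rw [injective_iff_map_eq_zero]
      intro c hc
      by_contra hc0
      have h1 : algebraMap (MvPolynomial (Fin e) (S.integer k)) A c ∈ q := Ideal.Quotient.eq_zero_iff_mem.1 hc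
      have h2 : inc (algebraMap (MvPolynomial (Fin e) (S.integer k)) A c) ∈ J := h1
      rw [AlgHom.commutes, IsScalarTower.algebraMap_apply (MvPolynomial (Fin e) (S.integer k)) K (K ⊗[MvPolynomial (Fin e) (S.integer k)] A)] at h2
      have h3 : IsUnit (algebraMap K (K ⊗[MvPolynomial (Fin e) (S.integer k)] A) (algebraMap (MvPolynomial (Fin e) (S.integer k)) K c)) := by
        apply IsUnit.map
        rw [isUnit_iff_ne_zero]
        exact fun h => hc0 (IsFractionRing.injective (MvPolynomial (Fin e) (S.integer k)) K (h.trans (map_zero _).symm))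
      exact hprime.ne_top (Ideal.eq_top_of_isUnit_mem J h2 h3)
    have hsub : ∀ φ : A →ₐ[MvPolynomial (Fin e) (S.integer k)] Ω, J ≤ RingHom.ker (ext φ) → q ≤ RingHom.ker φ := by
      intro φ hφ a ha
      have h1 : ext φ (inc a) = 0 := hφ ha
      rw [hinc] at h1
      exact h1
    by_cases halg : Algebra.IsAlgebraic (MvPolynomial (Fin e) (S.integer k)) (A ⧸ q)
    · exact (finite_of_algebraic hRΩ q).subset fun φ hφ => hsub φ hφ.2
    · obtain ⟨g, hgq, hg⟩ := nondense_quotient S hS (K := K) (Ω := Ω) δ q hinj halg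
        (hA q hinj halg)
      have hlt : J < J ⊔ Ideal.span {inc g} := by
        refine lt_of_le_of_ne le_sup_left fun h => hgq ?_
        show inc g ∈ J
        rw [h]
        exact Ideal.mem_sup_right (Ideal.mem_span_singleton_self _)
      refine (ih _ hlt).subset ?_
      rintro φ ⟨hφ, hJ⟩
      refine ⟨hφ, sup_le hJ ?_⟩
      rw [Ideal.span_singleton_le_iff_mem]
      show ext φ (inc g) = 0
      rw [hinc]
      exact hg φ hφ (hsub φ hJ)
  · rw [Ideal.isPrime_iff] at hprime
    push Not at hprime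
    obtain ⟨a, b, hab, ha, hb⟩ := hprime htop
    have hlt : ∀ c, c ∉ J → J < J ⊔ Ideal.span {c} := by
      intro c hc
      refine lt_of_le_of_ne le_sup_left fun h => hc ?_
      rw [h]
      exact Ideal.mem_sup_right (Ideal.mem_span_singleton_self _)
    refine ((ih _ (hlt a ha)).union (ih _ (hlt b hb))).subset ?_
    rintro φ ⟨hφ, hJ⟩
    have h1 : ext φ (a * b) = 0 := hJ hab
    rw [map_mul] at h1
    rcases mul_eq_zero.1 h1 with h | h
    · left
      refine ⟨hφ, sup_le hJ ?_⟩
      rw [Ideal.span_singleton_le_iff_mem]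
      exact h
    · right
      refine ⟨hφ, sup_le hJ ?_⟩
      rw [Ideal.span_singleton_le_iff_mem]
      exact h

end

end Pool.Agent.Helper6
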